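import Pool.Agent.Lib.H82T.Defs

/-!
# Project H82T, chunk CV: bounded versions of conditional expectations
-/

open MeasureTheory Filter Topology Finset
open scoped ENNReal ComplexConjugate

namespace Pool.Agent.Lib.H82T

open Pool.Agent.Lib.H22M

theorem cv_ite {Ω : Type*} [MeasurableSpace Ω] (g : Ω → ℂ) (hg : Measurable g) (C : ℝ) :
    Measurable (fun ω => if ‖g ω‖ ≤ C then g ω else 0) :=
  Measurable.ite (measurableSet_le hg.norm measurable_const) hg measurable_const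

theorem cv_sm {Ω : Type*} [MeasurableSpace Ω] (g : Ω → ℂ) (hg : Measurable g) :
    StronglyMeasurable g := hg.stronglyMeasurable

/-- Proof. Let `g₀ = ν[h|𝒜]` (strongly `𝒜`-measurable). `‖g₀‖ ≤ C` almost everywhere
(`ae_bdd_condExp_of_ae_bdd`, or `norm_condExp_le` and monotonicity, as in the proof of `l2_condExp_le` in
`H22M/JB.lean`). Let `g ω = g₀ ω` if `‖g₀ ω‖ ≤ C` and `0` otherwise: `𝒜`-measurable, bounded by `C`, almost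
everywhere equal to `g₀`. For the integrals: `∫ f h = ∫ ν[f h|𝒜] = ∫ f ν[h|𝒜] = ∫ f g` by the pull-out
property (`condExp_bilin_of_stronglyMeasurable_left` with `ContinuousLinearMap.mul ℝ ℂ`, as in
`H22M/JJ.lean`) and `integral_condExp`. The last assertion for `f = 1` on a set `A` in `𝒜` is the case of
the indicator. -/
theorem exists_version {Ω : Type*} (𝒜 : MeasurableSpace Ω) [mΩ : MeasurableSpace Ω]
    (ν : Measure Ω) [IsProbabilityMeasure ν] (h𝒜 : 𝒜 ≤ mΩ) (h : Ω → ℂ) (hh : Measurable h)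
    (C : ℝ) (hC0 : 0 ≤ C) (hC : ∀ᵐ ω ∂ν, ‖h ω‖ ≤ C) :
    ∃ g : Ω → ℂ, Measurable[𝒜] g ∧ (∀ ω, ‖g ω‖ ≤ C) ∧ g =ᵐ[ν] ν[h|𝒜] ∧
      ∀ f : Ω → ℂ, Measurable[𝒜] f → (∃ C' : ℝ, ∀ᵐ ω ∂ν, ‖f ω‖ ≤ C') →
        ∫ ω, f ω * h ω ∂ν = ∫ ω, f ω * g ω ∂ν := by
  have hhi : Integrable h ν := Integrable.of_bound hh.aestronglyMeasurable C hC
  have hb : ∀ᵐ ω ∂ν, ‖(ν[h|𝒜]) ω‖ ≤ C := by
    have h1 := norm_condExp_le (μ := ν) (m := 𝒜) h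
    have h2 : ν[(fun ω => ‖h ω‖)|𝒜] ≤ᵐ[ν] ν[(fun _ => C)|𝒜] :=
      condExp_mono hhi.norm (integrable_const C) hC
    have h3 : ν[(fun _ : Ω => C)|𝒜] = fun _ => C := condExp_const h𝒜 C
    rw [h3] at h2
    exact h1.trans h2
  have hm0 : Measurable[𝒜] (ν[h|𝒜]) := stronglyMeasurable_condExp.measurable
  have hgm : Measurable[𝒜] (fun ω => if ‖(ν[h|𝒜]) ω‖ ≤ C then (ν[h|𝒜]) ω else 0) :=
    @cv_ite Ω 𝒜 _ hm0 C
  have hge : (fun ω => if ‖(ν[h|𝒜]) ω‖ ≤ C then (ν[h|𝒜]) ω else 0) =ᵐ[ν] ν[h|𝒜] := by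
    filter_upwards [hb] with ω hω
    rw [if_pos hω]
  refine ⟨fun ω => if ‖(ν[h|𝒜]) ω‖ ≤ C then (ν[h|𝒜]) ω else 0, hgm, ?_, hge, ?_⟩
  · intro ω
    dsimp only
    split_ifs with h1
    · exact h1
    · simpa using hC0
  · rintro f hf ⟨C', hC'⟩
    have hfs : StronglyMeasurable[𝒜] f := @cv_sm Ω 𝒜 f hf
    have hfm : Measurable f := hf.mono h𝒜 le_rfl
    have hint : Integrable (fun ω => f ω * h ω) ν := by
      refine Integrable.of_bound (hfm.mul hh).aestronglyMeasurable (C' * C) ?_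
      filter_upwards [hC, hC'] with ω h1 h2
      rw [norm_mul]
      exact mul_le_mul h2 h1 (norm_nonneg _) ((norm_nonneg _).trans h2)
    have hpull : ν[fun ω => f ω * h ω|𝒜] =ᵐ[ν] fun ω => f ω * (ν[h|𝒜]) ω :=
      condExp_bilin_of_stronglyMeasurable_left (ContinuousLinearMap.mul ℝ ℂ) hfs hint hhi
    rw [← integral_condExp h𝒜 (f := fun ω => f ω * h ω)]
    refine integral_congr_ae ?_
    filter_upwards [hpull, hge] with ω h1 h2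
    rw [h1, h2]

/-- Proof. Take `g` from `exists_version`. `g ∘ S` is almost everywhere `(ν[h|𝒜]) ∘ S` (`S` preserves
`ν`), which is `ν[h ∘ S|𝒜]` by `condExp_comp_equiv` (`H22M/CE.lean`); its hypotheses `h1`, `h2` follow from
`hinv : 𝒜.comap S = 𝒜` (every set of `𝒜` is `S ⁻¹' t` with `t` in `𝒜`, and conversely). And
`ν[h ∘ S|𝒜] = ν[ζ h|𝒜] = ζ ν[h|𝒜]` (`condExp_congr_ae`, `condExp_smul`). -/
theorem exists_eigen_version {Ω : Type*} (𝒜 : MeasurableSpace Ω) [mΩ : MeasurableSpace Ω]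
    (ν : Measure Ω) [IsProbabilityMeasure ν] (h𝒜 : 𝒜 ≤ mΩ) (S : Ω ≃ᵐ Ω)
    (hS : MeasurePreserving S ν ν) (hinv : 𝒜.comap S = 𝒜) (h : Ω → ℂ) (hh : Measurable h)
    (C : ℝ) (hC0 : 0 ≤ C) (hC : ∀ᵐ ω ∂ν, ‖h ω‖ ≤ C) (ζ : ℂ)
    (hζ : ∀ᵐ ω ∂ν, h (S ω) = ζ * h ω) :
    ∃ g : Ω → ℂ, Measurable[𝒜] g ∧ (∀ ω, ‖g ω‖ ≤ C) ∧ g =ᵐ[ν] ν[h|𝒜] ∧
      (∀ᵐ ω ∂ν, g (S ω) = ζ * g ω) ∧
      ∀ f : Ω → ℂ, Measurable[𝒜] f → (∃ C' : ℝ, ∀ᵐ ω ∂ν, ‖f ω‖ ≤ C') →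
        ∫ ω, f ω * h ω ∂ν = ∫ ω, f ω * g ω ∂ν := by
  obtain ⟨g, g1, g2, g3, g4⟩ := exists_version 𝒜 ν h𝒜 h hh C hC0 hC
  refine ⟨g, g1, g2, g3, ?_, g4⟩
  have hhi : Integrable h ν := Integrable.of_bound hh.aestronglyMeasurable C hC
  have h1 : ∀ s, MeasurableSet[𝒜] s → MeasurableSet[𝒜] (S ⁻¹' s) := by
    intro s hs
    have h2 : MeasurableSet[𝒜.comap S] (S ⁻¹' s) := ⟨s, hs, rfl⟩
    rwa [hinv] at h2
  have h2 : ∀ s, MeasurableSet[𝒜] s → MeasurableSet[𝒜] (S.symm ⁻¹' s) := by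
    intro s hs
    have h3 : MeasurableSet[𝒜.comap S] s := by rwa [hinv]
    obtain ⟨t, ht, rfl⟩ := h3
    have h4 : S.symm ⁻¹' (S ⁻¹' t) = t := by
      rw [← Set.preimage_comp]
      simp
    rwa [h4]
  have h5 := condExp_comp_equiv 𝒜 ν h𝒜 S hS h1 h2 h hhi
  have h6 : ν[fun ω => h (S ω)|𝒜] =ᵐ[ν] ν[fun ω => ζ * h ω|𝒜] := condExp_congr_ae hζ
  have h7 : ν[fun ω => ζ * h ω|𝒜] =ᵐ[ν] fun ω => ζ * (ν[h|𝒜]) ω := by
    have h8 := condExp_smul (μ := ν) ζ h 𝒜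
    exact h8
  have h8 : ∀ᵐ ω ∂ν, g (S ω) = (ν[h|𝒜]) (S ω) :=
    hS.quasiMeasurePreserving.ae g3
  filter_upwards [g3, h5, h6, h7, h8] with ω e1 e2 e3 e4 e5
  rw [e5, ← e2, e3, e4, e1]

end Pool.Agent.Lib.H82T
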