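import Pool.Agent.Lib.H82T.Defs

/-!
# Project H82T, chunk D1: the σ-algebras `DD`
-/

open MeasureTheory Filter Topology Finset
open scoped ENNReal ComplexConjugate

namespace Pool.Agent.Lib.H82T

open Pool.Agent.Lib.H22M

/-- Proof. `comap_mono`, `measurable_fst.comap_le`, `measurable_snd.comap_le`, `aeInv_le`. -/
theorem DD_le {Y : Type*} (ℬ : MeasurableSpace Y) [mY : MeasurableSpace Y]
    (ν : Measure (Y × Y)) (R : Y → Y) (hℬ : ℬ ≤ mY) :
    DD ℬ ν R ≤ (inferInstance : MeasurableSpace (Y × Y)) := by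
  refine sup_le (sup_le ?_ ?_) (aeInv_le _ _)
  · exact (MeasurableSpace.comap_mono hℬ).trans measurable_fst.comap_le
  · exact (MeasurableSpace.comap_mono hℬ).trans measurable_snd.comap_le

/-- Proof. `comap (sqE R)` of a supremum is the supremum of the comaps (`MeasurableSpace.comap_sup`), and
`(ℬ.comap fst).comap (R × R) = ℬ.comap (R ∘ fst) = (ℬ.comap R).comap fst = ℬ.comap fst`
(`MeasurableSpace.comap_comp`). For `aeInv ν (R × R)`: if `s` is in it, `(R × R) ⁻¹' s` is in it (measurable,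
and `hν` transports `=ᵐ`), so `comap ≤`; conversely `s = (R × R) ⁻¹' s'` with
`s' = (R × R)⁻¹ ⁻¹' s`, which is in `aeInv` (the inverse also preserves `ν`). -/
theorem DD_comap {Y : Type*} (ℬ : MeasurableSpace Y) [mY : MeasurableSpace Y]
    (ν : Measure (Y × Y)) (R : Y ≃ᵐ Y) (hν : MeasurePreserving (Prod.map R R) ν ν)
    (hinv : ℬ.comap R = ℬ) : (DD ℬ ν R).comap (sqE R) = DD ℬ ν R := by
  have hS : MeasurePreserving (sqE R) ν ν := hν
  have hS' : MeasurePreserving (sqE R).symm ν ν := hS.symm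
  have h1 : (ℬ.comap Prod.fst).comap (sqE R) = ℬ.comap (Prod.fst : Y × Y → Y) := by
    rw [MeasurableSpace.comap_comp]
    have h2 : (Prod.fst ∘ ⇑(sqE R) : Y × Y → Y) = R ∘ Prod.fst := rfl
    rw [h2, ← MeasurableSpace.comap_comp, hinv]
  have h3 : (ℬ.comap Prod.snd).comap (sqE R) = ℬ.comap (Prod.snd : Y × Y → Y) := by
    rw [MeasurableSpace.comap_comp]
    have h2 : (Prod.snd ∘ ⇑(sqE R) : Y × Y → Y) = R ∘ Prod.snd := rfl
    rw [h2, ← MeasurableSpace.comap_comp, hinv]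
  have h4 : (aeInv ν (Prod.map R R)).comap (sqE R) = aeInv ν (Prod.map R R) := by
    refine le_antisymm ?_ ?_
    · rintro _ ⟨t, ht, rfl⟩
      exact ⟨(sqE R).measurable ht.1, hS.quasiMeasurePreserving.preimage_ae_eq ht.2⟩
    · intro t ht
      have h5 : sqE R ⁻¹' ((sqE R).symm ⁻¹' t) = t := by
        rw [← Set.preimage_comp]
        simp
      refine ⟨(sqE R).symm ⁻¹' t, ⟨(sqE R).symm.measurable ht.1, ?_⟩, h5⟩
      have h6 : Prod.map ⇑R ⇑R ⁻¹' ((sqE R).symm ⁻¹' t) = t := h5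
      have h7 : (sqE R).symm ⁻¹' (Prod.map ⇑R ⇑R ⁻¹' t) = t := by
        have h8 : Prod.map ⇑R ⇑R = ⇑(sqE R) := rfl
        rw [h8, ← Set.preimage_comp]
        simp
      have h9 := hS'.quasiMeasurePreserving.preimage_ae_eq ht.2
      rw [h7] at h9
      rw [h6]
      exact h9
  have h10 : (DD ℬ ν R).comap (sqE R) = ((ℬ.comap Prod.fst).comap (sqE R) ⊔
      (ℬ.comap Prod.snd).comap (sqE R)) ⊔ (aeInv ν (Prod.map R R)).comap (sqE R) := by
    change MeasurableSpace.comap _ ((_ ⊔ _) ⊔ _) = _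
    rw [MeasurableSpace.comap_sup, MeasurableSpace.comap_sup]
  rw [h10, h1, h3, h4]

/-- Proof. `comap_sup`, `comap_comp`; the σ-algebra of `(θ ∘ fst, θ ∘ snd)` (all subsets of the finite set
`Fin d × Fin d` pulled back) is generated by the preimages of points
`{θ z.1 = a} ∩ {θ z.2 = b}`, so it is `comap (θ ∘ fst) ⊤ ⊔ comap (θ ∘ snd) ⊤`. Both inequalities by
`le_antisymm`, `sup_le`. -/
theorem DD_step {Y : Type*} (ℬ : MeasurableSpace Y) [mY : MeasurableSpace Y]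
    (ν : Measure (Y × Y)) (R : Y → Y) (d : ℕ) (θ : Y → Fin d) :
    DD (ℬ ⊔ MeasurableSpace.comap θ ⊤) ν R =
      DD ℬ ν R ⊔ MeasurableSpace.comap (fun z : Y × Y => (θ z.1, θ z.2)) ⊤ := by
  have h1 : (MeasurableSpace.comap (fun z : Y × Y => (θ z.1, θ z.2)) ⊤ : MeasurableSpace (Y × Y)) =
      (MeasurableSpace.comap θ ⊤).comap Prod.fst ⊔ (MeasurableSpace.comap θ ⊤).comap Prod.snd := by
    refine le_antisymm ?_ (sup_le ?_ ?_)
    · rintro _ ⟨t, -, rfl⟩
      have h2 : (fun z : Y × Y => (θ z.1, θ z.2)) ⁻¹' t =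
          ⋃ c ∈ t, ({z : Y × Y | θ z.1 = c.1} ∩ {z : Y × Y | θ z.2 = c.2}) := by
        ext z
        simp only [Set.mem_preimage, Set.mem_iUnion, Set.mem_inter_iff, Set.mem_ofPred_eq,
          exists_prop]
        constructor
        · intro h
          exact ⟨_, h, rfl, rfl⟩
        · rintro ⟨c, hc, h3, h4⟩
          rw [h3, h4]
          exact hc
      rw [h2]
      refine Set.Finite.measurableSet_biUnion (Set.toFinite t) fun c _ => ?_
      refine MeasurableSet.inter ?_ ?_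
      · have h5 : (MeasurableSpace.comap θ ⊤).comap Prod.fst ≤
            (MeasurableSpace.comap θ ⊤).comap (Prod.fst : Y × Y → Y) ⊔
              (MeasurableSpace.comap θ ⊤).comap Prod.snd := le_sup_left
        exact h5 _ ⟨θ ⁻¹' {c.1}, ⟨{c.1}, trivial, rfl⟩, rfl⟩
      · have h5 : (MeasurableSpace.comap θ ⊤).comap Prod.snd ≤
            (MeasurableSpace.comap θ ⊤).comap (Prod.fst : Y × Y → Y) ⊔
              (MeasurableSpace.comap θ ⊤).comap Prod.snd := le_sup_right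
        exact h5 _ ⟨θ ⁻¹' {c.2}, ⟨{c.2}, trivial, rfl⟩, rfl⟩
    · rintro _ ⟨_, ⟨t, -, rfl⟩, rfl⟩
      exact ⟨Prod.fst ⁻¹' t, trivial, rfl⟩
    · rintro _ ⟨_, ⟨t, -, rfl⟩, rfl⟩
      exact ⟨Prod.snd ⁻¹' t, trivial, rfl⟩
  rw [h1]
  change ((ℬ ⊔ MeasurableSpace.comap θ ⊤).comap Prod.fst ⊔
    (ℬ ⊔ MeasurableSpace.comap θ ⊤).comap Prod.snd) ⊔ aeInv ν (Prod.map R R) =
    ((ℬ.comap Prod.fst ⊔ ℬ.comap Prod.snd) ⊔ aeInv ν (Prod.map R R)) ⊔ _
  rw [MeasurableSpace.comap_sup, MeasurableSpace.comap_sup, sup_sup_sup_comm, sup_right_comm]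

/-- Proof. `sSup_eq_iSup'`, `MeasurableSpace.comap_iSup`; `⨆` of the three summands separately;
`𝒮` is nonempty so the constant summand `aeInv` is the supremum of its copies. -/
theorem DD_sSup {Y : Type*} (𝒮 : Set (MeasurableSpace Y)) (hne : 𝒮.Nonempty)
    [mY : MeasurableSpace Y] (ν : Measure (Y × Y)) (R : Y → Y) :
    DD (sSup 𝒮) ν R = ⨆ ℬ : 𝒮, DD (ℬ : MeasurableSpace Y) ν R := by
  have hn : Nonempty 𝒮 := hne.to_subtype
  refine le_antisymm ?_ ?_
  · refine sup_le (sup_le ?_ ?_) ?_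
    · rw [sSup_eq_iSup', MeasurableSpace.comap_iSup]
      refine iSup_mono fun ℬ => ?_
      exact le_sup_left.trans (le_sup_left : CC (ℬ : MeasurableSpace Y) ≤ DD ℬ ν R)
    · rw [sSup_eq_iSup', MeasurableSpace.comap_iSup]
      refine iSup_mono fun ℬ => ?_
      exact le_sup_right.trans (le_sup_left : CC (ℬ : MeasurableSpace Y) ≤ DD ℬ ν R)
    · exact (le_sup_right : aeInv ν (Prod.map R R) ≤ DD (hn.some : MeasurableSpace Y) ν R).trans
        (le_iSup (fun ℬ : 𝒮 => DD (ℬ : MeasurableSpace Y) ν R) hn.some)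
  · refine iSup_le fun ℬ => ?_
    have h1 : (ℬ : MeasurableSpace Y) ≤ sSup 𝒮 := le_sSup ℬ.2
    exact sup_le_sup (sup_le_sup (MeasurableSpace.comap_mono h1) (MeasurableSpace.comap_mono h1))
      le_rfl

/-- Proof. Monotonicity of `comap` and `sup`. -/
theorem DD_mono {Y : Type*} (ℬ ℬ' : MeasurableSpace Y) [mY : MeasurableSpace Y]
    (ν : Measure (Y × Y)) (R : Y → Y) (h : ℬ ≤ ℬ') : DD ℬ ν R ≤ DD ℬ' ν R := by
  exact sup_le_sup (sup_le_sup (MeasurableSpace.comap_mono h) (MeasurableSpace.comap_mono h))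
    le_rfl

end Pool.Agent.Lib.H82T
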