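import Pool.Agent.Lib.H82T.AV
import Pool.Agent.Lib.H22M.FC

/-!
# Project H82T, chunk SC: the average of the relative square is a self-coupling
-/

open MeasureTheory Filter Topology Finset
open scoped ENNReal ComplexConjugate

namespace Pool.Agent.Lib.H82T

open Pool.Agent.Lib.H22M

theorem sc_marg {Y : Type*} [MeasurableSpace Y] {m : Measure Y} {R : Y → Y}
    (hR : MeasurePreserving R m m) {q : ℕ} (hq : 1 ≤ q) {σ : Measure (Y × Y)} {f : Y × Y → Y}
    (hf : Measurable f) (hcomm : ∀ n, ∀ z, f ((Prod.map R R)^[n] z) = R^[n] (f z))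
    (hσ : σ.map f = m) : (avg σ (Prod.map R R) q).map f = m := by
  have hS : Measurable (Prod.map R R) := hR.measurable.prodMap hR.measurable
  ext s hs
  rw [Measure.map_apply hf hs]
  unfold avg
  rw [Measure.smul_apply, Measure.finsetSum_apply]
  have h1 : ∀ n ∈ range q, (σ.map ((Prod.map R R)^[n])) (f ⁻¹' s) = m s := by
    intro n _
    rw [Measure.map_apply (hS.iterate n) (hf hs)]
    have h2 : (Prod.map R R)^[n] ⁻¹' (f ⁻¹' s) = f ⁻¹' (R^[n] ⁻¹' s) := by
      ext z
      show f ((Prod.map R R)^[n] z) ∈ s ↔ R^[n] (f z) ∈ s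
      rw [hcomm]
    rw [h2, ← Measure.map_apply hf ((hR.measurable.iterate n) hs), hσ]
    exact (hR.iterate n).measure_preimage hs.nullMeasurableSet
  rw [Finset.sum_congr rfl h1, Finset.sum_const, card_range, nsmul_eq_mul, smul_eq_mul, ← mul_assoc,
    ENNReal.inv_mul_cancel, one_mul]
  · exact_mod_cast Nat.one_le_iff_ne_zero.mp hq
  · exact ENNReal.natCast_ne_top q

theorem sc_iter1 {Y : Type*} (R : Y → Y) (n : ℕ) (z : Y × Y) :
    ((Prod.map R R)^[n] z) = (R^[n] z.1, R^[n] z.2) := by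
  rw [Prod.map_iterate]
  rfl

theorem sc_eig {Y : Type*} [MeasurableSpace Y] {m : Measure Y} {R : Y → Y}
    (hR : MeasurePreserving R m m) {e : Y → ℂ} {c : ℂ} (h : ∀ᵐ y ∂m, e (R y) = c * e y) (n : ℕ) :
    ∀ᵐ y ∂m, e (R^[n] y) = c ^ n * e y := by
  induction n with
  | zero => exact Eventually.of_forall fun y => by simp
  | succ n ih =>
    have h4 : ∀ᵐ y ∂m, e (R (R^[n] y)) = c * e (R^[n] y) :=
      (hR.iterate n).quasiMeasurePreserving.ae h
    filter_upwards [ih, h4] with y h5 h6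
    rw [Function.iterate_succ_apply', h6, h5]
    ring

/-- Proof. `(Prod.map R R)^[n] = Prod.map (R^[n]) (R^[n])` (`Prod.map_iterate`). Probability and invariance:
`avg_prob`, `avg_inv` and `hσ.inv`. The first marginal of `σ.map ((Prod.map R R)^[n])` is
`(σ.map Prod.fst).map (R^[n]) = m.map (R^[n]) = m` (`Measure.map_map`), and the average of `q` copies of
`m` is `m`. -/
theorem avg_isSelf {Y : Type*} [MeasurableSpace Y] {m : Measure Y} [IsProbabilityMeasure m]
    {R : Y → Y} (hR : MeasurePreserving R m m) {p q : ℕ} (hq : 1 ≤ q) {ρ σ : Measure (Y × Y)}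
    (hσ : RelSq m R p q ρ σ) : IsSelf m R (avg σ (Prod.map R R) q) := by
  have hS : Measurable (Prod.map R R) := hR.measurable.prodMap hR.measurable
  have := hσ.prob
  refine ⟨avg_prob σ _ hS q hq, ?_, ?_, ?_⟩
  · exact sc_marg hR hq measurable_fst (fun n z => by rw [sc_iter1]) hσ.fst
  · exact sc_marg hR hq measurable_snd (fun n z => by rw [sc_iter1]) hσ.snd
  · apply avg_inv σ _ hS q
    rw [Prod.map_iterate]
    exact hσ.inv

/-- Proof. By `integral_avg`, `∫ e(z.1) g(z.2) d avg = (1/q) ∑_n ∫ e(R^[n] z.1) g(R^[n] z.2) dσ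
= (1/q) ∑_n c^n ∫ e(z.1) g(R^[n] z.2) dσ` (almost everywhere equality `e ∘ R^[n] = c^n e` on the first
marginal `m`), and every term is `0` by `hσ.eig_zero` for the function `g ∘ R^[n]` (the hypothesis on
`p`-th powers is `hF c hc`). The other assertion in the same way. -/
theorem avg_kills {Y : Type*} [MeasurableSpace Y] {m : Measure Y} [IsProbabilityMeasure m]
    {R : Y → Y} (hR : MeasurePreserving R m m) {p q : ℕ} {ρ σ : Measure (Y × Y)}
    (hσ : RelSq m R p q ρ σ) (F : Finset ℂ)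
    (hF : ∀ c ∈ F, ∀ e : ℂ, IsEigenvalue m R e → e ^ p ≠ c) :
    Kills m R F (avg σ (Prod.map R R) q) := by
  have hS : Measurable (Prod.map R R) := hR.measurable.prodMap hR.measurable
  have := hσ.prob
  intro c hc hc1 e he hce g hg
  obtain ⟨-, hz⟩ := hσ.eig_zero e c he hc1 hce (fun l hl => hF c hc l hl)
  have hB1 : BM (fun z : Y × Y => e z.1 * g z.2) :=
    (he.comp measurable_fst).mul (hg.comp measurable_snd)
  have hB2 : BM (fun z : Y × Y => g z.1 * e z.2) :=
    (hg.comp measurable_fst).mul (he.comp measurable_snd)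
  have hgn : ∀ n, BM (fun y => g (R^[n] y)) := fun n => hg.comp (hR.measurable.iterate n)
  have ha1 : ∀ n, ∀ᵐ z ∂σ, e (R^[n] z.1) = c ^ n * e z.1 := by
    intro n
    have h1 := sc_eig hR hce n
    rw [← hσ.fst] at h1
    exact ae_of_ae_map measurable_fst.aemeasurable h1
  have ha2 : ∀ n, ∀ᵐ z ∂σ, e (R^[n] z.2) = c ^ n * e z.2 := by
    intro n
    have h1 := sc_eig hR hce n
    rw [← hσ.snd] at h1
    exact ae_of_ae_map measurable_snd.aemeasurable h1
  constructor
  · rw [integral_avg σ _ hS q _ hB1, Finset.sum_eq_zero, mul_zero]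
    intro n _
    have h2 : ∫ z, (fun z : Y × Y => e z.1 * g z.2) ((Prod.map R R)^[n] z) ∂σ =
        ∫ z, c ^ n * (e z.1 * g (R^[n] z.2)) ∂σ := by
      apply integral_congr_ae
      filter_upwards [ha1 n] with z hz1
      rw [sc_iter1]
      show e (R^[n] z.1) * g (R^[n] z.2) = _
      rw [hz1]
      ring
    rw [h2, integral_const_mul, (hz _ (hgn n)).1, mul_zero]
  · rw [integral_avg σ _ hS q _ hB2, Finset.sum_eq_zero, mul_zero]
    intro n _
    have h2 : ∫ z, (fun z : Y × Y => g z.1 * e z.2) ((Prod.map R R)^[n] z) ∂σ =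
        ∫ z, c ^ n * (g (R^[n] z.1) * e z.2) ∂σ := by
      apply integral_congr_ae
      filter_upwards [ha2 n] with z hz1
      rw [sc_iter1]
      show g (R^[n] z.1) * e (R^[n] z.2) = _
      rw [hz1]
      ring
    rw [h2, integral_const_mul, (hz _ (hgn n)).2, mul_zero]

end Pool.Agent.Lib.H82T
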