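import Pool.Agent.Lib.H82T.Defs
import Pool.Agent.Lib.H22M.NL

/-!
# Project H82T, chunk S1: elementary properties of small functions
-/

open MeasureTheory Filter Topology Finset
open scoped ENNReal ComplexConjugate

namespace Pool.Agent.Lib.H82T

open Pool.Agent.Lib.H22M

/-- Cauchy–Schwarz for a coupling. Proof: `norm_integral_mul_conj_le` (`H22M/NL.lean`) for the functions
`z ↦ f z.1`, `z ↦ conj (g z.2)` and `ν`, and `l2_map`. -/
theorem IsSelf.norm_le {Y : Type*} [MeasurableSpace Y] {m : Measure Y} [IsProbabilityMeasure m]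
    {R : Y → Y} {ν : Measure (Y × Y)} (h : IsSelf m R ν) {f g : Y → ℂ} (hf : BM f) (hg : BM g) :
    ‖∫ z, f z.1 * g z.2 ∂ν‖ ≤ l2 m f * l2 m g := by
  haveI := h.prob
  have hf' : BM (fun z : Y × Y => f z.1) := hf.comp measurable_fst
  have hg' : BM (fun z : Y × Y => conj (g z.2)) := (hg.comp measurable_snd).conj
  have h1 := norm_integral_mul_conj_le (m := ν) hf' hg'
  have h2 : l2 ν (fun z : Y × Y => f z.1) = l2 m f := by
    rw [← h.fst, l2_map measurable_fst hf.1]
  have h3 : l2 ν (fun z : Y × Y => conj (g z.2)) = l2 m g := by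
    rw [← h.snd, l2_map measurable_snd hg.1]
    unfold l2
    simp only [RCLike.norm_conj]
  rw [h2, h3] at h1
  simpa only [Complex.conj_conj] using h1

/-- Proof. If `c = 1`, `e` is almost everywhere constant (`const_of_invariant`), `F = ∅` and the difference
is `0` for every coupling (`IsSelf.bm_snd`). If `c ≠ 1` take `F = {c}`: the first integral is `0` by `Kills`
and `∫ e dm = c ∫ e dm` (invariance of `m`), so `∫ e dm = 0`. -/
theorem small_eigen {Y : Type*} [MeasurableSpace Y] {m : Measure Y} [IsProbabilityMeasure m]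
    {R : Y → Y} (hR : Ergodic R m) (e : Y → ℂ) (he : BM e) (c : ℂ) (hc : ‖c‖ = 1)
    (h : ∀ᵐ y ∂m, e (R y) = c * e y) : Small m R e := by
  have he' := he
  obtain ⟨hem, C, hC⟩ := he'
  intro g hg ε hε
  by_cases hc1 : c = 1
  · subst hc1
    refine ⟨∅, Finset.notMem_empty _, ?_⟩
    intro ν hν _
    haveI := hν.prob
    obtain ⟨d, hd⟩ := const_of_invariant hR e hem (by
      filter_upwards [h] with y hy
      rw [hy, one_mul])
    have hd' : ∀ᵐ z ∂ν, e z.1 = d := by
      have : ∀ᵐ y ∂(ν.map Prod.fst), e y = d := by rw [hν.fst]; exact hd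
      exact ae_of_ae_map measurable_fst.aemeasurable this
    have h1 : ∫ z, e z.1 * g z.2 ∂ν = d * ∫ y, g y ∂m := by
      rw [← hν.bm_snd hg, ← integral_const_mul]
      refine integral_congr_ae ?_
      filter_upwards [hd'] with z hz
      rw [hz]
    have h2 : ∫ y, e y ∂m = d := by
      rw [integral_congr_ae hd]
      simp
    rw [h1, h2, sub_self, norm_zero]
    exact hε.le
  · refine ⟨{c}, ?_, ?_⟩
    · rw [Finset.mem_singleton]
      exact fun hh => hc1 hh.symm
    · intro ν hν hk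
      have h1 := (hk c (Finset.mem_singleton_self c) hc e he h g hg).1
      have h2 : ∫ y, e y ∂m = c * ∫ y, e y ∂m := by
        have h3 : ∫ y, e (R y) ∂m = ∫ y, e y ∂m := by
          have h4 := integral_map (μ := m) (φ := R) hR.measurable.aemeasurable
            (f := e) (by rw [hR.toMeasurePreserving.map_eq]; exact hem.aestronglyMeasurable)
          rw [hR.toMeasurePreserving.map_eq] at h4
          exact h4.symm
        calc ∫ y, e y ∂m = ∫ y, e (R y) ∂m := h3.symm
          _ = ∫ y, c * e y ∂m := integral_congr_ae h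
          _ = c * ∫ y, e y ∂m := integral_const_mul _ _
      have h5 : ∫ y, e y ∂m = 0 := by
        have h6 : (1 - c) * ∫ y, e y ∂m = 0 := by linear_combination h2
        rcases mul_eq_zero.1 h6 with h7 | h7
        · exact absurd (sub_eq_zero.1 h7).symm hc1
        · exact h7
      rw [h1, h5, zero_mul, sub_zero, norm_zero]
      exact hε.le

/-- Closure in `L²`. Proof: given `g`, `ε`, let `G = l2 m g`, take `f'` for `δ = ε / (4 * (G + 1))` and
the finite set of `Small m R f'` for `g`, `ε/2`. Then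
`|∫ f⊗g dν - ∫ f' ⊗ g dν| ≤ l2 m (f - f') * G ≤ ε/4` (`IsSelf.norm_le`) and
`|∫ f dm ∫ g dm - ∫ f' dm ∫ g dm| ≤ l2 m (f - f') * l2 m g ≤ ε/4` (`norm_integral_le_l2`). -/
theorem small_of_approx {Y : Type*} [MeasurableSpace Y] {m : Measure Y} [IsProbabilityMeasure m]
    {R : Y → Y} (f : Y → ℂ) (hf : BM f)
    (h : ∀ δ : ℝ, 0 < δ → ∃ f' : Y → ℂ, BM f' ∧ Small m R f' ∧ l2 m (fun y => f y - f' y) ≤ δ) :
    Small m R f := by
  intro g hg ε hε
  have hG : 0 ≤ l2 m g := Real.sqrt_nonneg _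
  have hG1 : 0 < 4 * (l2 m g + 1) := by positivity
  obtain ⟨f', hf', hs, hl⟩ := h (ε / (4 * (l2 m g + 1))) (div_pos hε hG1)
  obtain ⟨F, hF, hFν⟩ := hs g hg (ε / 2) (half_pos hε)
  refine ⟨F, hF, ?_⟩
  intro ν hν hk
  haveI := hν.prob
  have h0 := hFν ν hν hk
  have hd : BM (fun y => f y - f' y) := hf.sub hf'
  have hsmall : l2 m (fun y => f y - f' y) * l2 m g ≤ ε / 4 := by
    calc l2 m (fun y => f y - f' y) * l2 m g ≤ ε / (4 * (l2 m g + 1)) * l2 m g :=
          mul_le_mul_of_nonneg_right hl hG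
      _ = ε / 4 * (l2 m g / (l2 m g + 1)) := by
          field_simp
      _ ≤ ε / 4 * 1 := by
          apply mul_le_mul_of_nonneg_left _ (by positivity)
          rw [div_le_one (by linarith)]
          linarith
      _ = ε / 4 := mul_one _
  have h1 : ‖∫ z, (f z.1 - f' z.1) * g z.2 ∂ν‖ ≤ ε / 4 := (hν.norm_le hd hg).trans hsmall
  have h2 : ‖(∫ y, (f y - f' y) ∂m) * ∫ y, g y ∂m‖ ≤ ε / 4 := by
    rw [norm_mul]
    exact (mul_le_mul (norm_integral_le_l2 hd) (norm_integral_le_l2 hg) (norm_nonneg _)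
      (Real.sqrt_nonneg _)).trans hsmall
  have e1 : ∫ z, (f z.1 - f' z.1) * g z.2 ∂ν =
      (∫ z, f z.1 * g z.2 ∂ν) - ∫ z, f' z.1 * g z.2 ∂ν := by
    rw [← integral_sub]
    · refine integral_congr_ae (Eventually.of_forall fun z => ?_)
      ring
    · exact ((hf.comp measurable_fst).mul (hg.comp measurable_snd)).integrable
    · exact ((hf'.comp measurable_fst).mul (hg.comp measurable_snd)).integrable
  have e2 : ∫ y, (f y - f' y) ∂m = (∫ y, f y ∂m) - ∫ y, f' y ∂m :=
    integral_sub hf.integrable hf'.integrable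
  rw [e1] at h1
  rw [e2] at h2
  have e3 : (∫ z, f z.1 * g z.2 ∂ν) - (∫ y, f y ∂m) * ∫ y, g y ∂m =
      (((∫ z, f z.1 * g z.2 ∂ν) - ∫ z, f' z.1 * g z.2 ∂ν) +
        ((∫ z, f' z.1 * g z.2 ∂ν) - (∫ y, f' y ∂m) * ∫ y, g y ∂m)) -
        ((∫ y, f y ∂m) - ∫ y, f' y ∂m) * ∫ y, g y ∂m := by ring
  rw [e3]
  refine (norm_sub_le _ _).trans ?_
  have h3 := norm_add_le ((∫ z, f z.1 * g z.2 ∂ν) - ∫ z, f' z.1 * g z.2 ∂ν)
    ((∫ z, f' z.1 * g z.2 ∂ν) - (∫ y, f' y ∂m) * ∫ y, g y ∂m)
  linarith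

/-- Almost everywhere equality. Proof: `small_of_approx` with `f' = f₀` (`l2 = 0`). -/
theorem Small.congr {Y : Type*} [MeasurableSpace Y] {m : Measure Y} [IsProbabilityMeasure m]
    {R : Y → Y} {f f₀ : Y → ℂ} (hf : BM f) (hf₀ : BM f₀) (h : ∀ᵐ y ∂m, f y = f₀ y)
    (h₀ : Small m R f₀) : Small m R f := by
  refine small_of_approx f hf ?_
  intro δ hδ
  refine ⟨f₀, hf₀, h₀, ?_⟩
  have : l2 m (fun y => f y - f₀ y) = 0 := by
    rw [l2_congr (g := fun _ => (0 : ℂ)) (by
      filter_upwards [h] with y hy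
      rw [hy, sub_self]), l2_const, norm_zero]
  rw [this]
  exact hδ.le

end Pool.Agent.Lib.H82T
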