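import Pool.Agent.Lib.H82T.F2
import Pool.Agent.Lib.H22M.KA3
import Pool.Agent.Lib.H22M.MU
import Pool.Agent.Lib.H22M.TO3
import Pool.Agent.Lib.H22M.TE

/-!
# Project H82T, chunk F3: Möbius disjointness
-/

open MeasureTheory Filter Topology Finset
open scoped ENNReal ComplexConjugate

namespace Pool.Agent.Lib.H82T

open Pool.Agent.Lib.H22M

/-- Removing one prime does not change the divergence. Proof: the indicator of `P \ {2}` and that of `P`
differ at one point at most (`summable` is stable under changes on a finite set: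
`Summable.congr_cofinite`-type lemma, or add the finitely supported function). -/
theorem not_summable_diff (P : Set ℕ)
    (h : ¬ Summable (P.indicator fun p : ℕ => 1 / (p : ℝ))) :
    ¬ Summable ((P \ {2}).indicator fun p : ℕ => 1 / (p : ℝ)) := by
  intro h1
  apply h
  refine (summable_congr_cofinite ?_).1 h1
  have h2 : ∀ᶠ p : ℕ in cofinite, p ≠ 2 := by
    rw [Nat.cofinite_eq_atTop]
    filter_upwards [eventually_gt_atTop 2] with p hp
    exact hp.ne'
  filter_upwards [h2] with p hp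
  by_cases hpP : p ∈ P
  · rw [Set.indicator_of_mem (show p ∈ P \ {2} from ⟨hpP, hp⟩), Set.indicator_of_mem hpP]
  · rw [Set.indicator_of_notMem (fun h3 : p ∈ P \ {2} => hpP h3.1), Set.indicator_of_notMem hpP]

/-- Proof. The proof of `Pool.Agent.Lib.H22M.main` (`H22M/FIN.lean`, copy it; `moebius_mean`, `katai_average`, `eventually_le_of_join`, `ergodic_iterate` are imported here) with `Z × M` replaced by `Y`,
`bad_bound` replaced by `tower_bound` (`hroot` from `eq_one_of_root hD`) and `P = goodPrimes m R F0 \ {2}`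
(`not_summable_diff`). -/
theorem main {Y Z : Type*} (𝒮 : Set (MeasurableSpace Y)) [mY : MeasurableSpace Y]
    [StandardBorelSpace Y] {m : Measure Y} [IsProbabilityMeasure m]
    [MeasurableSpace Circle] [BorelSpace Circle]
    [CommGroup Z] [TopologicalSpace Z] [IsTopologicalGroup Z]
    [CompactSpace Z] [T2Space Z] [SecondCountableTopology Z] [MeasurableSpace Z] [BorelSpace Z]
    (lam : Measure Z) [lam.IsHaarMeasure] [IsProbabilityMeasure lam]
    (R : Y ≃ᵐ Y) (hR : Ergodic R m) (hD : ManyGoodPrimes m R)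
    (π : Y → Z) (hπ : MeasurePreserving π m lam) (α : Z) (hπR : ∀ y, π (R y) = α * π y)
    (u : Y → Circle) (hu : Measurable u) (φ : Z → Circle) (hφ : Measurable φ)
    (huR : ∀ y, u (R y) = φ (π y) * u y)
    (hne : 𝒮.Nonempty) (hdir : DirectedOn (· ≤ ·) 𝒮)
    (hT : ∀ ℬ ∈ 𝒮, ∃ D : ℕ,
      Tow mY R D (MeasurableSpace.comap (fun y => (π y, u y)) inferInstance) ℬ)
    (hgen : ∀ A : Set Y, MeasurableSet A → ∃ B, MeasurableSet[sSup 𝒮] B ∧ m (symmDiff A B) = 0)
    {X : Type*} [MetricSpace X] [CompactSpace X] [MeasurableSpace X] [BorelSpace X]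
    (T : X ≃ₜ X) (ν : Measure X) (θ : X → Y) (ψ : Y → X)
    (hmodel : IsUEModel T ν m R θ ψ) (f : C(X, ℂ)) (x : X) :
    Tendsto (fun N : ℕ => (1 / (N : ℂ)) *
      ∑ n ∈ Icc 1 N, f ((⇑T)^[n] x) * (ArithmeticFunction.moebius n : ℂ)) atTop (𝓝 0) := by
  have hergR : Ergodic (⇑R) m := hR
  have hroot : ∀ c : ℂ, IsEigenvalue m R c → ∀ n : ℕ, 1 ≤ n → c ^ n = 1 → c = 1 :=
    fun c hc n hn h => eq_one_of_root hD c hc n hn h
  have hergn : ∀ n : ℕ, 1 ≤ n → Ergodic ((⇑R)^[n]) m := ergodic_iterate hergR hroot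
  have hνp : IsProbabilityMeasure ν := hmodel.prob
  set c₀ : ℂ := ∫ x, f x ∂ν with hc₀
  set L : ℝ := 2 * ‖f‖ + 1 with hL
  have hL0 : 0 < L := by positivity
  have hLC : (L : ℂ) ≠ 0 := by exact_mod_cast hL0.ne'
  set g : C(X, ℂ) := (L : ℂ)⁻¹ • (f - ContinuousMap.const X c₀) with hg
  have hgx : ∀ x, g x = (L : ℂ)⁻¹ * (f x - c₀) := fun x => rfl
  have hc₀n : ‖c₀‖ ≤ ‖f‖ := by
    have h1 := norm_integral_le_of_norm_le_const (μ := ν) (f := fun x => f x) (C := ‖f‖)
      (Eventually.of_forall fun x => f.norm_coe_le_norm x)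
    simpa using h1
  have hg1 : ∀ x, ‖g x‖ ≤ 1 := by
    intro x
    rw [hgx, norm_mul, norm_inv, Complex.norm_real, Real.norm_of_nonneg hL0.le,
      inv_mul_le_iff₀ hL0, mul_one]
    calc ‖f x - c₀‖ ≤ ‖f x‖ + ‖c₀‖ := norm_sub_le _ _
      _ ≤ ‖f‖ + ‖f‖ := add_le_add (f.norm_coe_le_norm x) hc₀n
      _ ≤ L := by rw [hL]; linarith
  have hF0 : ∫ y, g (ψ y) ∂m = 0 := by
    have h1 : ∫ y, g (ψ y) ∂m = ∫ x, g x ∂ν := by
      rw [← hmodel.map_psi, integral_map hmodel.meas_psi.aemeasurable]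
      exact g.continuous.measurable.aestronglyMeasurable
    have hfi : Integrable (fun x => f x) ν :=
      Integrable.of_bound f.continuous.measurable.aestronglyMeasurable ‖f‖
        (Eventually.of_forall fun x => f.norm_coe_le_norm x)
    rw [h1]
    simp_rw [hgx]
    rw [integral_const_mul, integral_sub hfi (integrable_const _), integral_const]
    simp [hc₀]
  have hmain : Tendsto (fun N : ℕ =>
      (∑ n ∈ Icc 1 N, (ArithmeticFunction.moebius n : ℂ) * g ((⇑T)^[n] x)) / N) atTop (𝓝 0) := by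
    apply katai_average (fun n => g ((⇑T)^[n] x)) (fun n => hg1 _)
    intro ε hε
    obtain ⟨F0, h1, m0, hm0⟩ := tower_bound 𝒮 lam R hR hroot π hπ α hπR u hu φ hφ huR hne hdir hT
      hgen (fun y => g (ψ y)) (g.continuous.measurable.comp hmodel.meas_psi) (fun y => hg1 _) hF0
      (ε / 2) (by positivity)
    refine ⟨goodPrimes m R F0 \ {2}, fun p hp => hp.1.1,
      not_summable_diff _ (hD F0 h1), m0, fun p hp Q hQ hcard => ?_⟩
    obtain ⟨q, hq, hbound⟩ := hm0 p hp.1 hp.2 Q hQ hcard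
    refine ⟨q, hq, ?_⟩
    exact eventually_le_of_join T.continuous hergR.measurable hmodel hergn p q hp.1.1.one_le
      (hQ q hq).1.one_le g x (ε / 2) ε (by linarith) hbound
  have h2 := (hmain.const_mul (L : ℂ)).add (moebius_mean.const_mul c₀)
  rw [mul_zero, mul_zero, add_zero] at h2
  refine h2.congr fun N => ?_
  have h3 : ∀ n, f ((⇑T)^[n] x) = (L : ℂ) * g ((⇑T)^[n] x) + c₀ := by
    intro n
    rw [hgx]
    field_simp
    ring
  simp_rw [h3, div_eq_mul_inv, one_mul]
  rw [Finset.sum_mul, Finset.mul_sum, Finset.sum_mul, Finset.mul_sum, Finset.mul_sum,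
    ← Finset.sum_add_distrib]
  refine Finset.sum_congr rfl fun n _ => ?_
  ring

end Pool.Agent.Lib.H82T
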