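import Pool.Agent.Lib.H82T.F1

/-!
# Project H82T, chunk F2: for a good prime `p` there are boundedly many bad primes `q`
-/

open MeasureTheory Filter Topology Finset
open scoped ENNReal ComplexConjugate

namespace Pool.Agent.Lib.H82T

open Pool.Agent.Lib.H22M

/-- Approximation of bounded measurable functions by functions on the levels. -/
theorem f2_approx {Y : Type*} (𝒮 : Set (MeasurableSpace Y)) [mY : MeasurableSpace Y]
    (m : Measure Y) [IsProbabilityMeasure m] (hne : 𝒮.Nonempty) (hdir : DirectedOn (· ≤ ·) 𝒮)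
    (hle : ∀ ℬ ∈ 𝒮, ℬ ≤ mY)
    (hgen : ∀ A : Set Y, MeasurableSet A → ∃ B, MeasurableSet[sSup 𝒮] B ∧ m (symmDiff A B) = 0)
    (F : Y → ℂ) (hF : Measurable F) (hb : ∃ C : ℝ, ∀ y, ‖F y‖ ≤ C) (δ : ℝ) (hδ : 0 < δ) :
    ∃ j : 𝒮, ∃ f' : Y → ℂ, Measurable[(j : MeasurableSpace Y)] f' ∧
      (∃ C : ℝ, ∀ y, ‖f' y‖ ≤ C) ∧ l2 m (fun y => F y - f' y) ≤ δ := by
  refine exists_approx_fun (J := 𝒮) (fun j => (j : MeasurableSpace Y)) mY m
    (fun j => hle j j.2) le_rfl ?_ F hF hb δ hδ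
  intro K A hA ε hε
  choose A' hA' hAA' using fun k => hgen (A k) (hA k)
  obtain ⟨j, B, hB, hAB⟩ := exists_approx_sets 𝒮 hne hdir m hle K A' hA' ε hε
  refine ⟨j, B, hB, fun k => ?_⟩
  have h1 : m (symmDiff (A k) (B k)) ≤ m (symmDiff (A k) (A' k)) + m (symmDiff (A' k) (B k)) :=
    measure_symmDiff_le _ _ _
  rw [hAA' k, zero_add] at h1
  exact (ENNReal.toReal_mono (measure_ne_top _ _) h1).trans_lt (hAB k)

/-- Some element of a large finite set is large. -/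
theorem f2_card (Q : Finset ℕ) (N : ℕ) (h : N + 1 < Q.card) : ∃ q ∈ Q, N < q := by
  by_contra hcon
  push Not at hcon
  have h1 : Q ⊆ range (N + 1) := fun q hq => mem_range.2 (Nat.lt_succ_of_le (hcon q hq))
  have h2 := card_le_card h1
  rw [card_range] at h2
  omega

/-- Proof. Let `ℬ₀ = comap (π, u)`; `ℬ₀ ≤ mY` (measurability), `ℬ₀.comap R = ℬ₀` (`base_comap`), all bounded
`ℬ₀`-measurable functions are small (`small_base`), and `noRoot_base` gives `M₀`. Let `δ = ε₀ / 4`.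
By `hgen`, `exists_approx_sets` and `exists_approx_fun` (`ℬ = mY`; for measurable `A_k` take `A_k'` in
`sSup 𝒮` with `m (A_k ∆ A_k') = 0`, then `B_k` for `A_k'`; `𝒞 j = j` for `j` in `𝒮`) there are `ℬ` in `𝒮` and a
bounded `ℬ`-measurable `f'` with `l2 m (F - f') ≤ δ`. Let `κ = ∫ f' dm`, `|κ| = |∫ (f' - F)| ≤ δ`
(`norm_integral_le_l2`) and `f = f' - κ`: bounded, `ℬ`-measurable, `∫ f = 0`, `l2 m (F - f) ≤ 2 δ`
(`l2_add_le`, `l2_const`). Let `D` be the bound for `ℬ` (`hT`). `Tow.small` gives `Small m R f`; take the finite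
set `F0` for `g = conj f` and `δ^2`, so `‖∫ f z.1 conj (f z.2) dν‖ ≤ δ^2` whenever `IsSelf`, `Kills F0`.
Let `m0 = max (D^2) M₀ + 1`. Let `p` be in `goodPrimes m R F0`, `p ≠ 2`, `Q` a finite set of primes `≠ p` with
more than `m0` elements: some `q` in `Q` is larger than `max (D^2) M₀` (otherwise
`Q ⊆ range (max … + 1)`, of cardinality `m0`). Let `ρ` be a joining of `R^p` and `R^q`. `R^[p]` is ergodic
(`ergodic_iterate` of `H22M/TE.lean`), `p, q` coprime, so `exists_relSq` (`H22M/JJ.lean`) gives `σ`, and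
`‖∫ F conj F dρ‖ ≤ l2 m F * qf σ F ≤ qf σ f + qf σ (F - f) ≤ qf σ f + 2 δ`
(`hσ.join`, `l2_le_of_bound`, `hσ.add`, `hσ.le_l2`), and `(qf σ f)^2 ≤ δ^2` by `qf_sq_le`. So the integral is
at most `3 δ ≤ ε₀`. -/
theorem tower_bound {Y Z : Type*} (𝒮 : Set (MeasurableSpace Y)) [mY : MeasurableSpace Y]
    [StandardBorelSpace Y] {m : Measure Y} [IsProbabilityMeasure m]
    [MeasurableSpace Circle] [BorelSpace Circle]
    [CommGroup Z] [TopologicalSpace Z] [IsTopologicalGroup Z]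
    [CompactSpace Z] [T2Space Z] [SecondCountableTopology Z] [MeasurableSpace Z] [BorelSpace Z]
    (lam : Measure Z) [lam.IsHaarMeasure] [IsProbabilityMeasure lam]
    (R : Y ≃ᵐ Y) (hR : Ergodic R m)
    (hroot : ∀ c : ℂ, IsEigenvalue m R c → ∀ n : ℕ, 1 ≤ n → c ^ n = 1 → c = 1)
    (π : Y → Z) (hπ : MeasurePreserving π m lam) (α : Z) (hπR : ∀ y, π (R y) = α * π y)
    (u : Y → Circle) (hu : Measurable u) (φ : Z → Circle) (hφ : Measurable φ)
    (huR : ∀ y, u (R y) = φ (π y) * u y)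
    (hne : 𝒮.Nonempty) (hdir : DirectedOn (· ≤ ·) 𝒮)
    (hT : ∀ ℬ ∈ 𝒮, ∃ D : ℕ,
      Tow mY R D (MeasurableSpace.comap (fun y => (π y, u y)) inferInstance) ℬ)
    (hgen : ∀ A : Set Y, MeasurableSet A → ∃ B, MeasurableSet[sSup 𝒮] B ∧ m (symmDiff A B) = 0)
    (F : Y → ℂ) (hF : Measurable F) (hF1 : ∀ y, ‖F y‖ ≤ 1) (hF0 : ∫ y, F y ∂m = 0)
    (ε₀ : ℝ) (hε : 0 < ε₀) :
    ∃ F0 : Finset ℂ, 1 ∉ F0 ∧ ∃ m0 : ℕ, ∀ p ∈ goodPrimes m R F0, p ≠ 2 →
      ∀ Q : Finset ℕ, (∀ q ∈ Q, q.Prime ∧ q ≠ p) → m0 < Q.card →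
        ∃ q ∈ Q, ∀ ρ : Measure (Y × Y), IsJoin m R p q ρ →
          ‖∫ z, F z.1 * conj (F z.2) ∂ρ‖ ≤ ε₀ := by
  classical
  have hRm : MeasurePreserving R m m := hR.toMeasurePreserving
  have h₀ : MeasurableSpace.comap (fun y => (π y, u y)) inferInstance ≤ mY :=
    (hπ.measurable.prodMk hu).comap_le
  have hinv : (MeasurableSpace.comap (fun y => (π y, u y)) inferInstance).comap R =
      MeasurableSpace.comap (fun y => (π y, u y)) inferInstance :=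
    base_comap R π α hπR u φ hφ huR
  have hS : ∀ f : Y → ℂ,
      Measurable[MeasurableSpace.comap (fun y => (π y, u y)) inferInstance] f →
      (∃ C : ℝ, ∀ y, ‖f y‖ ≤ C) → Small m R f := fun f hf hb =>
    small_base hR π hπ.measurable α hπR u hu φ hφ huR f hf hb
  obtain ⟨M₀, hM₀⟩ := noRoot_base lam R hR hroot π hπ α hπR u hu φ hφ huR
  have hle : ∀ ℬ ∈ 𝒮, ℬ ≤ mY := fun ℬ hℬ => by
    obtain ⟨D, hD⟩ := hT ℬ hℬ
    exact hD.le h₀
  obtain ⟨δ, hδe⟩ : ∃ δ : ℝ, δ = ε₀ / 4 := ⟨_, rfl⟩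
  have hδ : 0 < δ := by rw [hδe]; positivity
  obtain ⟨j, f', hf', ⟨C', hC'⟩, hl⟩ :=
    f2_approx 𝒮 m hne hdir hle hgen F hF ⟨1, hF1⟩ δ hδ
  obtain ⟨D, hD⟩ := hT j j.2
  have hf'BM : BM f' := bm_mono (hle j j.2) hf' hC'
  have hFBM : BM F := ⟨hF, 1, hF1⟩
  obtain ⟨κ, hκe⟩ : ∃ κ : ℂ, κ = ∫ y, f' y ∂m := ⟨_, rfl⟩
  have hκ : ‖κ‖ ≤ δ := by
    have h1 : κ = - ∫ y, (F y - f' y) ∂m := by
      rw [integral_sub hFBM.integrable hf'BM.integrable, hF0, hκe]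
      simp
    rw [h1, norm_neg]
    exact (norm_integral_le_l2 (hFBM.sub hf'BM)).trans hl
  obtain ⟨f, hfe⟩ : ∃ f : Y → ℂ, f = fun y => f' y - κ := ⟨_, rfl⟩
  have hf : Measurable[(j : MeasurableSpace Y)] f := by
    rw [hfe]
    exact hf'.sub measurable_const
  have hfb : ∃ C : ℝ, ∀ y, ‖f y‖ ≤ C := by
    refine ⟨C' + ‖κ‖, fun y => ?_⟩
    rw [hfe]
    exact (norm_sub_le _ _).trans (add_le_add (hC' y) le_rfl)
  have hfBM : BM f := by
    rw [hfe]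
    exact hf'BM.sub (BM.const κ)
  have hf0 : ∫ y, f y ∂m = 0 := by
    rw [hfe, integral_sub hf'BM.integrable (BM.const κ).integrable, ← hκe]
    simp
  have hlf : l2 m (fun y => F y - f y) ≤ 2 * δ := by
    have h1 : (fun y => F y - f y) = fun y => (F y - f' y) + κ := by
      funext y
      rw [hfe]
      ring
    rw [h1]
    calc l2 m (fun y => (F y - f' y) + κ)
        ≤ l2 m (fun y => F y - f' y) + l2 m (fun _ => κ) :=
          l2_add_le (hFBM.sub hf'BM) (BM.const κ)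
      _ ≤ δ + δ := add_le_add hl (by rw [l2_const]; exact hκ)
      _ = 2 * δ := by ring
  have hsm : Small m R f := Tow.small hR hD h₀ hinv hS f hf hfb
  obtain ⟨F0, h1F0, hF0'⟩ := hsm (fun y => conj (f y)) hfBM.conj (δ ^ 2) (by positivity)
  refine ⟨F0, h1F0, max (D ^ 2) M₀ + 1, ?_⟩
  intro p hp hp2 Q hQ hcard
  obtain ⟨q, hq, hqm⟩ := f2_card Q _ hcard
  refine ⟨q, hq, fun ρ hρ => ?_⟩
  have hpp : p.Prime := hp.1
  have hqp : q.Prime := (hQ q hq).1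
  have hqne : q ≠ p := (hQ q hq).2
  have hcop : p.Coprime q := (Nat.coprime_primes hpp hqp).2 hqne.symm
  obtain ⟨σ, hσ⟩ := exists_relSq R hR p q (ergodic_iterate hR hroot p hpp.one_le) hcop ρ hρ
  have hbound : qf σ f ^ 2 ≤ δ ^ 2 := by
    refine qf_sq_le R hRm π hπ.measurable α hπR hD h₀ hinv hqp
      (lt_of_le_of_lt (le_max_left _ _) hqm) hσ
      (fun ν hν htor => hM₀ p q hpp hp2 hqp hqne (lt_of_le_of_lt (le_max_right _ _) hqm) ν hν htor)
      f hf hfb F0 hp.2 (δ ^ 2) ?_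
    intro ν hν hk
    have h3 := hF0' ν hν hk
    rw [hf0, zero_mul, sub_zero] at h3
    exact h3
  have hq1 : qf σ f ≤ δ :=
    (pow_le_pow_iff_left₀ (qf_nonneg _ _) hδ.le two_ne_zero).1 hbound
  have h5 : qf σ F ≤ qf σ f + qf σ (fun y => F y - f y) := by
    have h6 := hσ.add f (fun y => F y - f y) hfBM (hFBM.sub hfBM)
    have h7 : (fun y => f y + (F y - f y)) = F := by
      funext y
      ring
    rwa [h7] at h6
  calc ‖∫ z, F z.1 * conj (F z.2) ∂ρ‖ ≤ l2 m F * qf σ F := hσ.join F F hFBM hFBM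
    _ ≤ 1 * (δ + 2 * δ) :=
        mul_le_mul (l2_le_of_bound 1 zero_le_one (Eventually.of_forall hF1))
          (h5.trans (add_le_add hq1 ((hσ.le_l2 _ (hFBM.sub hfBM)).trans hlf)))
          (qf_nonneg _ _) zero_le_one
    _ ≤ ε₀ := by rw [hδe]; linarith

end Pool.Agent.Lib.H82T
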