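import Pool.Agent.Lib.H82T.Defs
import Pool.Agent.Lib.H22M.W3
import Pool.Agent.Lib.H22M.NL

/-!
# Project H82T, chunk DG: removing finitely many eigenfunctions makes the correlations small
-/

open MeasureTheory Filter Topology Finset
open scoped ENNReal ComplexConjugate

namespace Pool.Agent.Lib.H82T

open Pool.Agent.Lib.H22M

theorem dg_iter_add {H : Type*} [NormedAddCommGroup H] [InnerProductSpace ℂ H] (U : H →ₗᵢ[ℂ] H)
    (i : ℕ) (x y : H) : inner ℂ ((⇑U)^[i] x) ((⇑U)^[i] y) = inner ℂ x y := by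
  induction i with
  | zero => rfl
  | succ i ih =>
    rw [Function.iterate_succ_apply', Function.iterate_succ_apply', U.inner_map_map, ih]

theorem dg_norm_inner {H : Type*} [NormedAddCommGroup H] [InnerProductSpace ℂ H] (U : H →ₗᵢ[ℂ] H)
    (y : H) (i j : ℕ) : ‖inner ℂ ((⇑U)^[j] y) ((⇑U)^[i] y)‖ ≤
      (if j ≤ i then ‖inner ℂ ((⇑U)^[i - j] y) y‖ else 0) +
        (if i ≤ j then ‖inner ℂ ((⇑U)^[j - i] y) y‖ else 0) := by
  rcases le_total j i with h | h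
  · have e : (⇑U)^[i] y = (⇑U)^[j] ((⇑U)^[i - j] y) := by
      rw [← Function.iterate_add_apply, Nat.add_sub_cancel' h]
    have e2 : ‖inner ℂ ((⇑U)^[j] y) ((⇑U)^[i] y)‖ = ‖inner ℂ ((⇑U)^[i - j] y) y‖ := by
      rw [e, dg_iter_add, norm_inner_symm]
    rw [e2, if_pos h]
    have : 0 ≤ (if i ≤ j then ‖inner ℂ ((⇑U)^[j - i] y) y‖ else 0) := by split_ifs <;> positivity
    linarith
  · have e : (⇑U)^[j] y = (⇑U)^[i] ((⇑U)^[j - i] y) := by
      rw [← Function.iterate_add_apply, Nat.add_sub_cancel' h]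
    have e2 : ‖inner ℂ ((⇑U)^[j] y) ((⇑U)^[i] y)‖ = ‖inner ℂ ((⇑U)^[j - i] y) y‖ := by
      rw [e, dg_iter_add]
    rw [e2, if_pos h]
    have : 0 ≤ (if j ≤ i then ‖inner ℂ ((⇑U)^[i - j] y) y‖ else 0) := by split_ifs <;> positivity
    linarith

theorem dg_sum1 (g : ℕ → ℝ) (hg : ∀ n, 0 ≤ g n) (N i : ℕ) (hi : i < N) :
    ∑ j ∈ range N, (if j ≤ i then g (i - j) else 0) ≤ ∑ n ∈ range N, g n := by
  rw [← Finset.sum_filter]
  rw [← Finset.sum_image (f := g) (g := fun j => i - j) (s := (range N).filter fun j => j ≤ i)]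
  · refine Finset.sum_le_sum_of_subset_of_nonneg ?_ fun n _ _ => hg n
    intro n hn
    obtain ⟨j, hj, rfl⟩ := Finset.mem_image.1 hn
    rw [Finset.mem_range]
    omega
  · intro j hj j' hj' h
    have h1 := (Finset.mem_filter.1 hj).2
    have h2 := (Finset.mem_filter.1 hj').2
    simp only at h
    omega

theorem dg_sum2 (g : ℕ → ℝ) (hg : ∀ n, 0 ≤ g n) (N i : ℕ) :
    ∑ j ∈ range N, (if i ≤ j then g (j - i) else 0) ≤ ∑ n ∈ range N, g n := by
  rw [← Finset.sum_filter]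
  rw [← Finset.sum_image (f := g) (g := fun j => j - i) (s := (range N).filter fun j => i ≤ j)]
  · refine Finset.sum_le_sum_of_subset_of_nonneg ?_ fun n _ _ => hg n
    intro n hn
    obtain ⟨j, hj, rfl⟩ := Finset.mem_image.1 hn
    have h1 := Finset.mem_range.1 (Finset.mem_filter.1 hj).1
    rw [Finset.mem_range]
    omega
  · intro j hj j' hj' h
    have h1 := (Finset.mem_filter.1 hj).2
    have h2 := (Finset.mem_filter.1 hj').2
    simp only at h
    omega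

theorem dg_double {H : Type*} [NormedAddCommGroup H] [InnerProductSpace ℂ H] (U : H →ₗᵢ[ℂ] H)
    (y : H) (N : ℕ) (δ : ℝ) (hδ : 0 < δ)
    (h : ∑ n ∈ range N, ‖inner ℂ ((⇑U)^[n] y) y‖ ^ 2 ≤ δ ^ 2 / 4 * N) :
    ∑ n ∈ range N, ∑ j ∈ range N, ‖inner ℂ ((⇑U)^[j] y) ((⇑U)^[n] y)‖ ≤ δ * (N : ℝ) ^ 2 := by
  set a : ℕ → ℝ := fun n => ‖inner ℂ ((⇑U)^[n] y) y‖ with ha
  have ha0 : ∀ n, 0 ≤ a n := fun n => norm_nonneg _
  set A : ℝ := ∑ n ∈ range N, a n with hA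
  have hA0 : 0 ≤ A := Finset.sum_nonneg fun n _ => ha0 n
  have h1 : A ≤ δ / 2 * N := by
    have h2 : A ^ 2 ≤ (δ / 2 * N) ^ 2 := by
      have h3 : A ^ 2 ≤ ((range N).card : ℝ) * ∑ n ∈ range N, a n ^ 2 := sq_sum_le_card_mul_sum_sq
      rw [card_range] at h3
      calc A ^ 2 ≤ (N : ℝ) * ∑ n ∈ range N, a n ^ 2 := h3
        _ ≤ (N : ℝ) * (δ ^ 2 / 4 * N) := mul_le_mul_of_nonneg_left h (Nat.cast_nonneg _)
        _ = (δ / 2 * N) ^ 2 := by ring
    exact le_of_sq_le_sq h2 (by positivity)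
  have h4 : ∀ n ∈ range N, ∑ j ∈ range N, ‖inner ℂ ((⇑U)^[j] y) ((⇑U)^[n] y)‖ ≤ A + A := by
    intro n hn
    calc ∑ j ∈ range N, ‖inner ℂ ((⇑U)^[j] y) ((⇑U)^[n] y)‖
        ≤ ∑ j ∈ range N, ((if j ≤ n then a (n - j) else 0) + (if n ≤ j then a (j - n) else 0)) :=
          Finset.sum_le_sum fun j _ => dg_norm_inner U y n j
      _ = ∑ j ∈ range N, (if j ≤ n then a (n - j) else 0) +
            ∑ j ∈ range N, (if n ≤ j then a (j - n) else 0) := Finset.sum_add_distrib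
      _ ≤ A + A := add_le_add (dg_sum1 a ha0 N n (Finset.mem_range.1 hn)) (dg_sum2 a ha0 N n)
  calc ∑ n ∈ range N, ∑ j ∈ range N, ‖inner ℂ ((⇑U)^[j] y) ((⇑U)^[n] y)‖
      ≤ ∑ n ∈ range N, (A + A) := Finset.sum_le_sum h4
    _ = N * (A + A) := by rw [Finset.sum_const, card_range, nsmul_eq_mul]
    _ ≤ N * (δ / 2 * N + δ / 2 * N) :=
        mul_le_mul_of_nonneg_left (add_le_add h1 h1) (Nat.cast_nonneg _)
    _ = δ * (N : ℝ) ^ 2 := by ring

theorem dg_iter {Y : Type*} [MeasurableSpace Y] {m : Measure Y} [IsProbabilityMeasure m]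
    {R : Y → Y} (hR : MeasurePreserving R m m) (U : Lp ℂ 2 m →ₗᵢ[ℂ] Lp ℂ 2 m)
    (hU : ∀ x : Lp ℂ 2 m, (U x : Y → ℂ) =ᵐ[m] fun y => (x : Y → ℂ) (R y))
    (x : Lp ℂ 2 m) (f : Y → ℂ) (hx : (x : Y → ℂ) =ᵐ[m] f) (n : ℕ) :
    ((⇑U)^[n] x : Y → ℂ) =ᵐ[m] fun y => f (R^[n] y) := by
  induction n with
  | zero => exact hx
  | succ n ih =>
    rw [Function.iterate_succ_apply']
    have h1 := hU ((⇑U)^[n] x)
    have h2 := hR.quasiMeasurePreserving.ae_eq_comp ih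
    refine (h1.trans h2).trans (Filter.Eventually.of_forall fun y => ?_)
    show f (R^[n] (R y)) = f (R^[n + 1] y)
    rw [Function.iterate_succ_apply]

/-- Proof. Let `H = Lp ℂ 2 m`, `U : H →ₗᵢ[ℂ] H` the composition with `R`
(`Lp.compMeasurePreservingₗᵢ ℂ R hR.toMeasurePreserving`), `v` the class of `g`. Take
`v₁, k, c, w, N` from `wiener_decomp` (`H22M/W3.lean`) for `δ' = δ^2 / 4`. `v₁` is invariant, so almost
everywhere constant (`const_of_invariant`): `v₁ = κ`, and `⟪v₁, v - v₁⟫ = 0` gives `κ = 0` or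
`∫ g = κ`; in both cases `κ = ∫ g dm`? (If `κ ≠ 0`: `conj κ (∫ g - κ) = 0`. To avoid the case `κ = 0` apply
`wiener_decomp` to the class of `g - ∫ g dm`, of integral `0`: then `conj κ (0 - κ) = 0`, so `v₁ = 0`.)
Every `w i` is the class of a measurable function of almost everywhere constant modulus
(`norm_const_of_eigen`), so after a change on a null set of a function `e i` in `BM` with
`e i ∘ R = c i * e i` almost everywhere. Put `g' = g - ∫ g - ∑ e i`, whose class is `v - ∑ w i`. Then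
`∫ g'(R^[n] y) conj g'(R^[k] y) dm` is (up to conjugation) `⟪U^[n-k] y, y⟫` for `n ≥ k` (invariance of `m`), so
`∑_{n,k < N} ‖…‖ ≤ 2 N ∑_{n < N} ‖⟪U^[n] y, y⟫‖ ≤ 2 N (N ∑ ‖⟪U^[n] y, y⟫‖^2)^{1/2} ≤ 2 N (N δ' N)^{1/2}
= 2 √δ' N^2 = δ N^2` (compare `ca1_sum1`, `ca1_sum2` in `H22M/CA1.lean`). -/
theorem exists_uncorrelated {Y : Type*} [MeasurableSpace Y] {m : Measure Y}
    [IsProbabilityMeasure m] {R : Y → Y} (hR : Ergodic R m) (g : Y → ℂ) (hg : BM g) (δ : ℝ)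
    (hδ : 0 < δ) :
    ∃ (k : ℕ) (c : Fin k → ℂ) (e : Fin k → Y → ℂ), (∀ i, BM (e i) ∧ c i ≠ 1 ∧ ‖c i‖ = 1 ∧
        ∀ᵐ y ∂m, e i (R y) = c i * e i y) ∧
      ∃ N : ℕ, 1 ≤ N ∧
        ∑ n ∈ range N, ∑ j ∈ range N,
          ‖∫ y, (g (R^[n] y) - ∫ x, g x ∂m - ∑ i, e i (R^[n] y)) *
            conj (g (R^[j] y) - ∫ x, g x ∂m - ∑ i, e i (R^[j] y)) ∂m‖ ≤ δ * (N : ℝ) ^ 2 := by
  classical
  obtain ⟨hgm, C, hC⟩ := hg
  set κ : ℂ := ∫ x, g x ∂m with hκ
  have hMP := hR.toMeasurePreserving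
  set U : Lp ℂ 2 m →ₗᵢ[ℂ] Lp ℂ 2 m := Lp.compMeasurePreservingₗᵢ ℂ R hMP with hU
  -- the function of integral zero
  have hg0 : MemLp (fun y => g y - κ) 2 m := by
    refine MemLp.of_bound (hgm.sub_const κ).aestronglyMeasurable (C + ‖κ‖)
      (Eventually.of_forall fun y => ?_)
    exact (norm_sub_le _ _).trans (add_le_add (hC y) le_rfl)
  set v : Lp ℂ 2 m := hg0.toLp _ with hv
  have hvg : v =ᵐ[m] fun y => g y - κ := hg0.coeFn_toLp
  obtain ⟨v₁, k, c, w, hUv, hin, hw, N, hN1, hN⟩ := wiener_decomp U v (δ ^ 2 / 4) (by positivity)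
  have hUc : ∀ x : Lp ℂ 2 m, (U x : Y → ℂ) =ᵐ[m] fun y => (x : Y → ℂ) (R y) := fun x =>
    Lp.coeFn_compMeasurePreserving x hMP
  -- the invariant part vanishes
  have hv₁ : v₁ = 0 := by
    have h1 : ∀ᵐ y ∂m, (v₁ : Y → ℂ) (R y) = (v₁ : Y → ℂ) y := by
      have h2 := hUc v₁
      rw [hUv] at h2
      filter_upwards [h2] with y hy
      exact hy.symm
    obtain ⟨c₀, hc₀⟩ := const_of_invariant hR _ (Lp.stronglyMeasurable v₁).measurable h1
    have h3 : (0 : ℂ) = conj c₀ * (0 - c₀) := by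
      have h4 : inner ℂ v₁ (v - v₁) = ∫ y, (g y - κ - c₀) * conj c₀ ∂m := by
        rw [L2.inner_def]
        apply integral_congr_ae
        filter_upwards [hc₀, hvg, Lp.coeFn_sub v v₁] with y e1 e2 e3
        rw [e3, Pi.sub_apply, RCLike.inner_apply, e1, e2]
      rw [hin] at h4
      have hgi : Integrable g m := by
        refine Integrable.of_bound hgm.aestronglyMeasurable C (Eventually.of_forall hC)
      have h5 : ∫ y, (g y - κ - c₀) * conj c₀ ∂m = (κ - κ - c₀) * conj c₀ := by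
        rw [integral_mul_const]
        congr 1
        have e1 : ∀ y, g y - κ - c₀ = g y - (κ + c₀) := fun y => by ring
        simp_rw [e1]
        rw [integral_sub hgi (integrable_const _), integral_const, ← hκ]
        simp
      rw [h5] at h4
      linear_combination h4
    have h6 : c₀ = 0 := by
      rw [zero_sub, mul_neg, eq_comm, neg_eq_zero, mul_comm, Complex.mul_conj] at h3
      exact Complex.normSq_eq_zero.1 (by exact_mod_cast h3)
    rw [Lp.eq_zero_iff_ae_eq_zero]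
    filter_upwards [hc₀] with y hy
    rw [hy, h6]
    rfl
  -- the eigenfunctions
  have hwR : ∀ i, ∀ᵐ y ∂m, (w i : Y → ℂ) (R y) = c i * (w i : Y → ℂ) y := by
    intro i
    have h2 := hUc (w i)
    rw [(hw i).2.2.2] at h2
    filter_upwards [h2, Lp.coeFn_smul (c i) (w i)] with y e1 e2
    rw [← e1, e2]
    rfl
  have hβ : ∀ i, ∃ β : ℝ, 0 ≤ β ∧ ∀ᵐ y ∂m, ‖(w i : Y → ℂ) y‖ = β := fun i =>
    norm_const_of_eigen hR _ (Lp.stronglyMeasurable (w i)).measurable (c i) (hw i).2.1 (hwR i)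
  choose β hβ0 hβ using hβ
  obtain ⟨e, he⟩ : ∃ e : Fin k → Y → ℂ, ∀ i y, e i y =
    if ‖(w i : Y → ℂ) y‖ ≤ β i then (w i : Y → ℂ) y else 0 := ⟨_, fun _ _ => rfl⟩
  have hew : ∀ i, ∀ᵐ y ∂m, e i y = (w i : Y → ℂ) y := by
    intro i
    filter_upwards [hβ i] with y hy
    rw [he, if_pos hy.le]
  have hem : ∀ i, Measurable (e i) := by
    intro i
    have h1 : e i = fun y => if ‖(w i : Y → ℂ) y‖ ≤ β i then (w i : Y → ℂ) y else 0 := by
      funext y
      exact he i y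
    rw [h1]
    have h2 := (Lp.stronglyMeasurable (w i)).measurable
    exact Measurable.ite (measurableSet_le h2.norm measurable_const) h2 measurable_const
  have hebd : ∀ i y, ‖e i y‖ ≤ β i := by
    intro i y
    rw [he]
    split_ifs with h
    · exact h
    · rw [norm_zero]
      exact hβ0 i
  have heR : ∀ i, ∀ᵐ y ∂m, e i (R y) = c i * e i y := by
    intro i
    have h1 : ∀ᵐ y ∂m, e i (R y) = (w i : Y → ℂ) (R y) :=
      hMP.quasiMeasurePreserving.ae (hew i)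
    filter_upwards [h1, hew i, hwR i] with y e1 e2 e3
    rw [e1, e3, e2]
  refine ⟨k, c, e, fun i => ⟨⟨hem i, β i, hebd i⟩, (hw i).1, (hw i).2.1, heR i⟩, N, hN1, ?_⟩
  rw [hv₁, sub_zero] at hN
  set y₀ : Lp ℂ 2 m := v - ∑ i, w i with hy₀
  have hy₀g : y₀ =ᵐ[m] fun y => g y - κ - ∑ i, e i y := by
    have hs : ((∑ i, w i : Lp ℂ 2 m) : Y → ℂ) =ᵐ[m] fun y => ∑ i, (w i : Y → ℂ) y := by
      have := Lp.coeFn_finsetSum (p := 2) (μ := m) (Finset.univ : Finset (Fin k)) w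
      filter_upwards [this] with y hy
      rw [hy, Finset.sum_apply]
    have hall : ∀ᵐ y ∂m, ∀ i, e i y = (w i : Y → ℂ) y := ae_all_iff.2 hew
    filter_upwards [Lp.coeFn_sub v (∑ i, w i), hs, hvg, hall] with y e1 e2 e3 e4
    rw [hy₀, e1, Pi.sub_apply, e2, e3]
    congr 1
    exact Finset.sum_congr rfl fun i _ => (e4 i).symm
  have hint : ∀ n j : ℕ, ∫ y, (g (R^[n] y) - κ - ∑ i, e i (R^[n] y)) *
      conj (g (R^[j] y) - κ - ∑ i, e i (R^[j] y)) ∂m =
      inner ℂ ((⇑U)^[j] y₀) ((⇑U)^[n] y₀) := by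
    intro n j
    rw [L2.inner_def]
    apply integral_congr_ae
    filter_upwards [dg_iter hMP U hUc y₀ _ hy₀g n, dg_iter hMP U hUc y₀ _ hy₀g j] with y e1 e2
    rw [RCLike.inner_apply, e1, e2]
  have := dg_double U y₀ N δ hδ hN
  refine le_trans (le_of_eq ?_) this
  refine Finset.sum_congr rfl fun n _ => Finset.sum_congr rfl fun j _ => ?_
  rw [hint n j]

end Pool.Agent.Lib.H82T
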