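import Pool.Agent.Lib.H82T.S1

/-!
# Project H82T, chunk S1B: sums of small functions
-/

open MeasureTheory Filter Topology Finset
open scoped ENNReal ComplexConjugate

namespace Pool.Agent.Lib.H82T

open Pool.Agent.Lib.H22M

/-- Proof. For `g` and `ε` take the union of the finite sets for the `f i`, `i ∈ s`, and
`ε / ((s.card + 1) * (1 + ‖t i‖))` instead of `ε` (`Kills` for a union gives `Kills` for the parts). -/
theorem small_sum {Y ι : Type*} [MeasurableSpace Y] {m : Measure Y} [IsProbabilityMeasure m]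
    {R : Y → Y} (s : Finset ι) (t : ι → ℂ) (f : ι → Y → ℂ) (hf : ∀ i ∈ s, BM (f i))
    (h : ∀ i ∈ s, Small m R (f i)) : Small m R (fun y => ∑ i ∈ s, t i * f i y) := by
  intro g hg ε hε
  have h1 : ∀ i : ι, ∃ F : Finset ℂ, 1 ∉ F ∧ (i ∈ s → ∀ ν : Measure (Y × Y), IsSelf m R ν →
      Kills m R F ν → ‖∫ z, f i z.1 * g z.2 ∂ν - (∫ y, f i y ∂m) * ∫ y, g y ∂m‖ ≤
        ε / (((s.card : ℝ) + 1) * (1 + ‖t i‖))) := by
    intro i
    by_cases hi : i ∈ s
    · obtain ⟨F, hF, h2⟩ := h i hi g hg (ε / (((s.card : ℝ) + 1) * (1 + ‖t i‖))) (by positivity)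
      exact ⟨F, hF, fun _ => h2⟩
    · exact ⟨∅, by simp, fun h => absurd h hi⟩
  choose F hF hF2 using h1
  classical
  refine ⟨s.biUnion F, ?_, ?_⟩
  · simp [hF]
  · intro ν hν hk
    have := hν.prob
    have hI : ∫ z, (∑ i ∈ s, t i * f i z.1) * g z.2 ∂ν =
        ∑ i ∈ s, t i * ∫ z, f i z.1 * g z.2 ∂ν := by
      have e1 : (fun z : Y × Y => (∑ i ∈ s, t i * f i z.1) * g z.2) =
          fun z => ∑ i ∈ s, t i * (f i z.1 * g z.2) := by
        funext z
        rw [Finset.sum_mul]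
        exact Finset.sum_congr rfl fun i _ => mul_assoc _ _ _
      rw [e1, integral_finsetSum]
      · exact Finset.sum_congr rfl fun i _ => integral_const_mul _ _
      · intro i hi
        exact ((((hf i hi).comp measurable_fst).mul (hg.comp measurable_snd)).integrable).const_mul _
    have hJ : ∫ y, (∑ i ∈ s, t i * f i y) ∂m = ∑ i ∈ s, t i * ∫ y, f i y ∂m := by
      rw [integral_finsetSum]
      · exact Finset.sum_congr rfl fun i _ => integral_const_mul _ _
      · intro i hi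
        exact ((hf i hi).integrable).const_mul _
    rw [hI, hJ, Finset.sum_mul, ← Finset.sum_sub_distrib]
    refine (norm_sum_le _ _).trans ?_
    have h3 : ∀ i ∈ s, ‖t i * ∫ z, f i z.1 * g z.2 ∂ν - (t i * ∫ y, f i y ∂m) * ∫ y, g y ∂m‖ ≤
        ε / ((s.card : ℝ) + 1) := by
      intro i hi
      have h4 := hF2 i hi ν hν
        (fun c hc => hk c (Finset.mem_biUnion.mpr ⟨i, hi, hc⟩))
      have e2 : t i * ∫ z, f i z.1 * g z.2 ∂ν - (t i * ∫ y, f i y ∂m) * ∫ y, g y ∂m =
          t i * (∫ z, f i z.1 * g z.2 ∂ν - (∫ y, f i y ∂m) * ∫ y, g y ∂m) := by ring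
      rw [e2, norm_mul]
      calc ‖t i‖ * ‖∫ z, f i z.1 * g z.2 ∂ν - (∫ y, f i y ∂m) * ∫ y, g y ∂m‖
          ≤ (1 + ‖t i‖) * (ε / (((s.card : ℝ) + 1) * (1 + ‖t i‖))) :=
            mul_le_mul (by linarith [norm_nonneg (t i)]) h4 (norm_nonneg _) (by positivity)
        _ = ε / ((s.card : ℝ) + 1) := by
            have : (0 : ℝ) < 1 + ‖t i‖ := by positivity
            have : (0 : ℝ) < (s.card : ℝ) + 1 := by positivity
            field_simp
    refine (Finset.sum_le_sum h3).trans ?_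
    rw [Finset.sum_const, nsmul_eq_mul]
    have h5 : (0 : ℝ) < (s.card : ℝ) + 1 := by positivity
    rw [mul_div_assoc', div_le_iff₀ h5]
    nlinarith

end Pool.Agent.Lib.H82T
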