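import Pool.Agent.Lib.H82T.S2
import Pool.Agent.Lib.H22M.TG

/-!
# Project H82T, chunk S4: the functions of the base are small
-/

open MeasureTheory Filter Topology Finset
open scoped ENNReal ComplexConjugate

namespace Pool.Agent.Lib.H82T

open Pool.Agent.Lib.H22M

/-- Characters are bounded and measurable. -/
theorem s4_char {W : Type*} [CommGroup W] [TopologicalSpace W] [MeasurableSpace W]
    [BorelSpace W] (χ : PontryaginDual W) : BM fun w => ((χ w : Circle) : ℂ) :=
  ⟨(CompactAbelian.continuous_char χ).measurable, 1, fun _ => (Circle.norm_coe _).le⟩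

/-- The approximation in `L²` pulled back. -/
theorem s4_l2 {Y W : Type*} [MeasurableSpace Y] {m : Measure Y} [CommGroup W]
    [TopologicalSpace W] [MeasurableSpace W] [BorelSpace W] {p : Y → W} (hp : Measurable p)
    (F : W → ℂ) (hF : BM F) (S : Finset (PontryaginDual W)) (t : PontryaginDual W → ℂ) (δ : ℝ)
    (hδ : 0 < δ)
    (hS : ∫ w, ‖F w - ∑ χ ∈ S, t χ * ((χ w : Circle) : ℂ)‖ ^ 2 ∂(m.map p) ≤ δ ^ 2) :
    l2 m (fun y => F (p y) - ∑ χ ∈ S, t χ * ((χ (p y) : Circle) : ℂ)) ≤ δ := by
  have hT : BM fun w => F w - ∑ χ ∈ S, t χ * ((χ w : Circle) : ℂ) :=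
    hF.sub (BM.sum S fun χ _ => (BM.const (t χ)).mul (s4_char χ))
  rw [integral_map hp.aemeasurable (hT.1.norm.pow_const 2).aestronglyMeasurable] at hS
  rw [l2]
  exact (Real.sqrt_le_sqrt hS).trans (Real.sqrt_sq hδ.le).le

/-- Functions of the rotation. Proof. By `tg_approx` (`H22M/TG.lean`) for the probability measure `m.map π`
and `F` (in `BM`), for every `δ > 0` there is a trigonometric polynomial `P = ∑ t χ` with
`l2 m (F ∘ π - P ∘ π) ≤ δ`. `χ ∘ π` is in `BM` and an eigenfunction with eigenvalue `χ α`: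
`small_eigen`, `small_sum`, `small_of_approx`. -/
theorem small_rotation {Y Z : Type*} [MeasurableSpace Y] {m : Measure Y}
    [IsProbabilityMeasure m] [CommGroup Z] [TopologicalSpace Z] [IsTopologicalGroup Z]
    [CompactSpace Z] [T2Space Z] [SecondCountableTopology Z] [MeasurableSpace Z] [BorelSpace Z]
    {R : Y → Y} (hR : Ergodic R m) (π : Y → Z) (hπ : Measurable π) (α : Z)
    (hπR : ∀ y, π (R y) = α * π y) (F : Z → ℂ) (hF : BM F) : Small m R (fun y => F (π y)) := by
  refine small_of_approx _ (hF.comp hπ) fun δ hδ => ?_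
  have hpr : IsProbabilityMeasure (m.map π) := Measure.isProbabilityMeasure_map hπ.aemeasurable
  obtain ⟨S, t, hS⟩ := tg_approx (m.map π) F hF δ hδ
  have hχ : ∀ χ : PontryaginDual Z, BM fun y => ((χ (π y) : Circle) : ℂ) := fun χ =>
    (s4_char χ).comp hπ
  refine ⟨fun y => ∑ χ ∈ S, t χ * ((χ (π y) : Circle) : ℂ),
    BM.sum S fun χ _ => (BM.const (t χ)).mul (hχ χ), ?_, ?_⟩
  · refine small_sum S t (fun χ y => ((χ (π y) : Circle) : ℂ)) (fun χ _ => hχ χ) fun χ _ => ?_
    refine small_eigen hR _ (hχ χ) ((χ α : Circle) : ℂ) (Circle.norm_coe _)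
      (Eventually.of_forall fun y => ?_)
    simp only [hπR, map_mul, Circle.coe_mul]
  · exact s4_l2 hπ F hF S t δ hδ hS

/-- Proof. `f y = F (π y, u y)` with a measurable `F` on `W = Z × Circle`
(`Measurable.exists_eq_measurable_comp`), truncated to be bounded by the bound `C` of `f`. By `tg_approx` for
the probability measure `m.map (π, u)` on the compact group `W`, `small_sum` and `small_of_approx` it
suffices that `y ↦ χ (π y, u y)` is small for every character `χ` of `W`. Let
`φ_n y = ∏_{j < n} φ (α^j * π y)`: `u (R^[n] y) = φ_n y * u y`, `π (R^[n] y) = α^n * π y`, so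
`χ (π, u) (R^[n] y) = χ (1, u y) * G n y`, `G n y = χ (α^n * π y, φ_n y)`, a measurable function of
`π y` of modulus one. By `small_rotation` the products `G n * conj (G j)` are small, and
`small_of_module` with `ι = Unit` and the function `y ↦ χ (1, u y)` gives the assertion. -/
theorem small_base {Y Z : Type*} [MeasurableSpace Y] {m : Measure Y}
    [IsProbabilityMeasure m] [MeasurableSpace Circle] [BorelSpace Circle]
    [CommGroup Z] [TopologicalSpace Z] [IsTopologicalGroup Z]
    [CompactSpace Z] [T2Space Z] [SecondCountableTopology Z] [MeasurableSpace Z] [BorelSpace Z]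
    {R : Y → Y} (hR : Ergodic R m) (π : Y → Z) (hπ : Measurable π) (α : Z)
    (hπR : ∀ y, π (R y) = α * π y)
    (u : Y → Circle) (hu : Measurable u) (φ : Z → Circle) (hφ : Measurable φ)
    (huR : ∀ y, u (R y) = φ (π y) * u y) (f : Y → ℂ)
    (hf : Measurable[MeasurableSpace.comap (fun y => (π y, u y)) inferInstance] f)
    (hb : ∃ C : ℝ, ∀ y, ‖f y‖ ≤ C) : Small m R f := by
  classical
  obtain ⟨F₀, hF₀, hfF⟩ := hf.exists_eq_measurable_comp
  obtain ⟨C, hC⟩ := hb
  have hp : Measurable fun y => (π y, u y) := hπ.prodMk hu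
  have hset : MeasurableSet {w : Z × Circle | ‖F₀ w‖ ≤ C} :=
    measurableSet_le hF₀.norm measurable_const
  set F : Z × Circle → ℂ := fun w => if ‖F₀ w‖ ≤ C then F₀ w else 0 with hFdef
  have hF : BM F := by
    refine ⟨Measurable.ite hset hF₀ measurable_const, |C|, fun w => ?_⟩
    simp only [hFdef]
    split_ifs with h
    · exact h.trans (le_abs_self C)
    · simp
  have hff : f = fun y => F (π y, u y) := by
    funext y
    have h1 : f y = F₀ (π y, u y) := by rw [hfF]; rfl
    have h2 : ‖F₀ (π y, u y)‖ ≤ C := h1 ▸ hC y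
    simp only [hFdef]
    rw [if_pos h2, h1]
  rw [hff]
  have hsec : SecondCountableTopology Circle := inferInstanceAs (SecondCountableTopology (Submonoid.unitSphere ℂ))
  -- iterates
  set φn : ℕ → Z → Circle := fun n z => ∏ j ∈ range n, φ (α ^ j * z) with hφn
  have hπn : ∀ n y, π (R^[n] y) = α ^ n * π y := by
    intro n y
    induction n with
    | zero => simp
    | succ n ih => rw [Function.iterate_succ_apply', hπR, ih, pow_succ', mul_assoc]
  have hun : ∀ n y, u (R^[n] y) = φn n (π y) * u y := by
    intro n y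
    induction n with
    | zero => simp [hφn]
    | succ n ih =>
      have e1 : φn (n + 1) (π y) = φn n (π y) * φ (α ^ n * π y) := by
        simp only [hφn]
        exact Finset.prod_range_succ _ _
      rw [Function.iterate_succ_apply', huR, ih, hπn, e1, ← mul_assoc,
        mul_comm (φn n (π y))]
  have hφm : ∀ n, Measurable (φn n) := by
    intro n
    refine Finset.measurable_prod _ fun j _ => ?_
    exact hφ.comp (continuous_const.mul continuous_id).measurable
  refine small_of_approx _ (hF.comp hp) fun δ hδ => ?_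
  have hpr : IsProbabilityMeasure (m.map fun y => (π y, u y)) :=
    Measure.isProbabilityMeasure_map hp.aemeasurable
  obtain ⟨S, t, hS⟩ := tg_approx (m.map fun y => (π y, u y)) F hF δ hδ
  have hχ : ∀ χ : PontryaginDual (Z × Circle), BM fun y => ((χ (π y, u y) : Circle) : ℂ) :=
    fun χ => (s4_char χ).comp hp
  refine ⟨fun y => ∑ χ ∈ S, t χ * ((χ (π y, u y) : Circle) : ℂ),
    BM.sum S fun χ _ => (BM.const (t χ)).mul (hχ χ), ?_, ?_⟩
  · refine small_sum S t (fun χ y => ((χ (π y, u y) : Circle) : ℂ)) (fun χ _ => hχ χ)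
      fun χ _ => ?_
    have hχc := CompactAbelian.continuous_char χ
    have hg : ∀ n, BM fun z : Z => ((χ (α ^ n * z, φn n z) : Circle) : ℂ) := fun n =>
      (s4_char χ).comp ((continuous_const.mul continuous_id).measurable.prodMk (hφm n))
    refine small_of_module (ι := Unit) hR _ (hχ χ)
      (fun _ y => ((χ (1, u y) : Circle) : ℂ))
      (fun _ => hχc.measurable.comp (measurable_const.prodMk hu))
      (fun _ y => (Circle.norm_coe _).le)
      (fun n _ y => ((χ (α ^ n * π y, φn n (π y)) : Circle) : ℂ))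
      (fun n _ => ((hg n).comp hπ).1) 1 (fun n _ y => (Circle.norm_coe _).le) ?_ ?_
    · intro n y
      have e : ((π (R^[n] y), u (R^[n] y)) : Z × Circle) =
          (1, u y) * (α ^ n * π y, φn n (π y)) := by
        rw [hπn, hun, Prod.mk_mul_mk, one_mul, mul_comm (u y)]
      simp only [Finset.univ_unique, Finset.sum_singleton]
      rw [e, map_mul, Circle.coe_mul]
    · intro n j _
      exact small_rotation hR π hπ α hπR
        (fun z => ((χ (α ^ n * z, φn n z) : Circle) : ℂ) *
          conj ((χ (α ^ j * z, φn j z) : Circle) : ℂ)) ((hg n).mul (hg j).conj)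
  · exact s4_l2 hp F hF S t δ hδ hS

end Pool.Agent.Lib.H82T
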