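import Pool.Agent.Lib.H82T.Defs

/-!
# Project H82T, chunk AV: the average of the images of a measure
-/

open MeasureTheory Filter Topology Finset
open scoped ENNReal ComplexConjugate

namespace Pool.Agent.Lib.H82T

open Pool.Agent.Lib.H22M

/-- Proof. Every `σ.map (S^[n])` has total mass `1`, so the sum has mass `q`. -/
theorem avg_prob {Ω : Type*} [MeasurableSpace Ω] (σ : Measure Ω) [IsProbabilityMeasure σ]
    (S : Ω → Ω) (hS : Measurable S) (q : ℕ) (hq : 1 ≤ q) : IsProbabilityMeasure (avg σ S q) := by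
  refine ⟨?_⟩
  have h1 : ∀ n ∈ range q, (σ.map (S^[n])) Set.univ = 1 := by
    intro n _
    rw [Measure.map_apply (hS.iterate n) MeasurableSet.univ]
    simp
  unfold avg
  rw [Measure.smul_apply, Measure.finset_sum_apply, Finset.sum_congr rfl h1]
  simp only [Finset.sum_const, card_range, nsmul_eq_mul, mul_one, smul_eq_mul]
  exact ENNReal.inv_mul_cancel (by exact_mod_cast (by omega : q ≠ 0)) (ENNReal.natCast_ne_top q)

/-- Proof. `(avg σ S q).map S = q⁻¹ ∑_{n < q} σ.map (S^[n+1])` and `σ.map (S^[q]) = σ = σ.map (S^[0])`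
(`Measure.map_smul`, `Measure.map_finset_sum`-type lemma or `Measure.map_add` by induction or evaluation on
measurable sets; `Finset.sum_range_succ'`, `Finset.sum_range_succ`). -/
theorem avg_inv {Ω : Type*} [MeasurableSpace Ω] (σ : Measure Ω) (S : Ω → Ω) (hS : Measurable S)
    (q : ℕ) (hσ : MeasurePreserving (S^[q]) σ σ) :
    MeasurePreserving S (avg σ S q) (avg σ S q) := by
  refine ⟨hS, ?_⟩
  ext s hs
  rw [Measure.map_apply hS hs]
  unfold avg
  rw [Measure.smul_apply, Measure.smul_apply, Measure.finset_sum_apply, Measure.finset_sum_apply]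
  congr 1
  have h1 : ∀ n, (σ.map (S^[n])) (S ⁻¹' s) = (σ.map (S^[n + 1])) s := by
    intro n
    rw [Measure.map_apply (hS.iterate n) (hS hs), Measure.map_apply (hS.iterate (n + 1)) hs,
      Function.iterate_succ', Set.preimage_comp]
  have h2 : (σ.map (S^[q])) s = (σ.map (S^[0])) s := by
    rw [hσ.map_eq]
    simp
  rw [Finset.sum_congr rfl (fun n _ => h1 n)]
  rcases q with _ | q
  · simp
  · rw [Finset.sum_range_succ (fun n => (σ.map (S^[n + 1])) s) q,
      Finset.sum_range_succ' (fun n => (σ.map (S^[n])) s) q, h2]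

/-- Proof. `integral_smul_measure`, `integral_finset_sum_measure`, `integral_map`. -/
theorem integral_avg {Ω : Type*} [MeasurableSpace Ω] (σ : Measure Ω) [IsProbabilityMeasure σ]
    (S : Ω → Ω) (hS : Measurable S) (q : ℕ) (F : Ω → ℂ) (hF : BM F) :
    ∫ ω, F ω ∂(avg σ S q) = (q : ℂ)⁻¹ * ∑ n ∈ range q, ∫ ω, F (S^[n] ω) ∂σ := by
  have hint : ∀ n ∈ range q, Integrable F (σ.map (S^[n])) := by
    intro n _
    haveI : IsProbabilityMeasure (σ.map (S^[n])) :=
      Measure.isProbabilityMeasure_map (hS.iterate n).aemeasurable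
    exact hF.integrable
  unfold avg
  rw [integral_smul_measure, integral_finset_sum_measure hint]
  have h1 : ∀ n ∈ range q, ∫ ω, F ω ∂(σ.map (S^[n])) = ∫ ω, F (S^[n] ω) ∂σ := by
    intro n _
    rw [integral_map (hS.iterate n).aemeasurable hF.1.aestronglyMeasurable]
  rw [Finset.sum_congr rfl h1]
  simp [ENNReal.toReal_inv]

end Pool.Agent.Lib.H82T
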