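import Pool.Agent.Lib.H82T.AV

/-!
# Project H82T, chunk AV2: density with respect to the average
-/

open MeasureTheory Filter Topology Finset
open scoped ENNReal ComplexConjugate

namespace Pool.Agent.Lib.H82T

open Pool.Agent.Lib.H22M

/-- Proof. `σ s = (σ.map (S^[0])) s ≤ q * avg σ S q s` for measurable `s`, so `σ ≤ q • avg σ S q`, in
particular `σ ≪ avg σ S q`. Let `D₀ = σ.rnDeriv (avg σ S q)`: `D₀ ≤ q` almost everywhere (for measurable
`s`, `∫⁻_s D₀ = σ s ≤ ∫⁻_s q`: `ae_le_of_forall_setLIntegral_le_of_sigmaFinite`, or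
`Measure.rnDeriv_le_...`), and `D = (min D₀ q).toReal`. `∫ F dσ = ∫ D F d(avg σ S q)` by
`Measure.withDensity_rnDeriv_eq` and `integral_withDensity_eq_integral_toReal_smul`, or
`integral_rnDeriv_smul`. -/
theorem exists_density {Ω : Type*} [MeasurableSpace Ω] (σ : Measure Ω) [IsProbabilityMeasure σ]
    (S : Ω → Ω) (hS : Measurable S) (q : ℕ) (hq : 1 ≤ q) :
    ∃ D : Ω → ℝ, Measurable D ∧ (∀ ω, 0 ≤ D ω) ∧ (∀ ω, D ω ≤ q) ∧
      ∀ F : Ω → ℂ, BM F → ∫ ω, F ω ∂σ = ∫ ω, F ω * (D ω : ℂ) ∂(avg σ S q) := by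
  classical
  have hprob : IsProbabilityMeasure (avg σ S q) := avg_prob σ S hS q hq
  have hq0 : (q : ℝ≥0∞) ≠ 0 := by
    simpa using (by omega : q ≠ 0)
  have hle : σ ≤ (q : ℝ≥0∞) • avg σ S q := by
    refine Measure.le_iff.2 fun s hs => ?_
    have h1 : (q : ℝ≥0∞) • avg σ S q = ∑ n ∈ range q, σ.map (S^[n]) := by
      unfold avg
      rw [smul_smul, ENNReal.mul_inv_cancel hq0 (ENNReal.natCast_ne_top q), one_smul]
    rw [h1, Measure.finsetSum_apply]
    have h2 := Finset.single_le_sum (f := fun n => σ.map (S^[n]) s) (fun _ _ => zero_le)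
      (Finset.mem_range.2 (by omega : 0 < q))
    simpa using h2
  have hac : σ ≪ avg σ S q := Measure.absolutelyContinuous_of_le_smul hle
  have hD0 : σ.rnDeriv (avg σ S q) ≤ᵐ[avg σ S q] fun _ => (q : ℝ≥0∞) := by
    refine ae_le_of_forall_setLIntegral_le_of_sigmaFinite (Measure.measurable_rnDeriv _ _) ?_
    intro s hs _
    rw [Measure.setLIntegral_rnDeriv hac, setLIntegral_const]
    have := hle s
    simpa using this
  refine ⟨fun ω => (min (σ.rnDeriv (avg σ S q) ω) (q : ℝ≥0∞)).toReal, ?_, ?_, ?_, ?_⟩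
  · exact ((Measure.measurable_rnDeriv _ _).min measurable_const).ennreal_toReal
  · intro ω
    exact ENNReal.toReal_nonneg
  · intro ω
    have := ENNReal.toReal_mono (ENNReal.natCast_ne_top q)
      (min_le_right (σ.rnDeriv (avg σ S q) ω) (q : ℝ≥0∞))
    simpa using this
  · intro F hF
    rw [← integral_rnDeriv_smul hac]
    refine integral_congr_ae ?_
    filter_upwards [hD0] with ω hω
    have h3 : min (σ.rnDeriv (avg σ S q) ω) (q : ℝ≥0∞) = σ.rnDeriv (avg σ S q) ω := min_eq_left hω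
    simp only [h3, Complex.real_smul]
    ring

end Pool.Agent.Lib.H82T
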