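import Pool.Agent.Lib.H82T.CV
import Pool.Agent.Lib.H82T.AV2

/-!
# Project H82T, chunk NI: on a σ-algebra without root of unity eigenfunctions a measure invariant under
`S^q` coincides with its average
-/

open MeasureTheory Filter Topology Finset
open scoped ENNReal ComplexConjugate

namespace Pool.Agent.Lib.H82T

open Pool.Agent.Lib.H22M

/-- Finite Fourier inversion. Proof. Let `w n = g (S^[n] ω)`-values at a point: if
`a : ℕ → ℂ` satisfies `a q = a 0` (only `a 0, …, a q` matter) and for every `ζ` with `ζ^q = 1`, `ζ ≠ 1` the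
sum `∑_{n < q} ζ^n * a n` is `0`, then `a 0 = (1/q) ∑_{n < q} a n`. Proof: let
`ξ = exp(2πi/q)`; `∑_{k < q} ∑_{n < q} ξ^{kn} a n = q a 0` (orthogonality:
`IsPrimitiveRoot.geom_sum_eq_zero` for the inner sum over `k`, for `0 < n < q`), and the terms with
`0 < k < q` vanish by hypothesis, the term `k = 0` is `∑ a n`. -/
theorem fourier_point (q : ℕ) (hq : 1 ≤ q) (a : ℕ → ℂ)
    (h : ∀ ζ : ℂ, ζ ^ q = 1 → ζ ≠ 1 → ∑ n ∈ range q, ζ ^ n * a n = 0) :
    a 0 = (q : ℂ)⁻¹ * ∑ n ∈ range q, a n := by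
  have hq0 : q ≠ 0 := by omega
  have hqC : (q : ℂ) ≠ 0 := Nat.cast_ne_zero.2 hq0
  set ξ : ℂ := Complex.exp (2 * Real.pi * Complex.I / q) with hξd
  have hξ : IsPrimitiveRoot ξ q := Complex.isPrimitiveRoot_exp q hq0
  have hone : ∀ n, 0 < n → n < q → ξ ^ n ≠ 1 := fun n h1 h2 =>
    hξ.pow_ne_one_of_pos_of_lt h1.ne' h2
  have hpow : ∀ n, (ξ ^ n) ^ q = 1 := by
    intro n
    rw [← pow_mul, mul_comm, pow_mul, hξ.pow_eq_one, one_pow]
  have hS : ∑ k ∈ range q, ∑ n ∈ range q, (ξ ^ k) ^ n * a n = q * a 0 := by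
    rw [sum_comm, Finset.sum_eq_single 0]
    · simp
    · intro n hn hn0
      rw [← Finset.sum_mul]
      have h3 : ∑ k ∈ range q, (ξ ^ k) ^ n = 0 := by
        have h1 : ∀ k, (ξ ^ k) ^ n = (ξ ^ n) ^ k := by
          intro k
          rw [← pow_mul, ← pow_mul, mul_comm]
        simp only [h1]
        have h2 := mul_geom_sum (ξ ^ n) q
        rw [hpow, sub_self] at h2
        exact (mul_eq_zero.1 h2).resolve_left
          (sub_ne_zero.2 (hone n (Nat.pos_of_ne_zero hn0) (mem_range.1 hn)))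
      rw [h3, zero_mul]
    · intro h0
      exact absurd (mem_range.2 (by omega)) h0
  have hT : ∑ k ∈ range q, ∑ n ∈ range q, (ξ ^ k) ^ n * a n = ∑ n ∈ range q, a n := by
    rw [Finset.sum_eq_single 0]
    · simp
    · intro k hk hk0
      exact h _ (hpow k) (hone k (Nat.pos_of_ne_zero hk0) (mem_range.1 hk))
    · intro h0
      exact absurd (mem_range.2 (by omega)) h0
  rw [← hT, hS, ← mul_assoc, inv_mul_cancel₀ hqC, one_mul]

theorem ni_sub {Ω : Type*} {𝒜 : MeasurableSpace Ω} {f g : Ω → ℂ} (hf : Measurable[𝒜] f)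
    (hg : Measurable[𝒜] g) : Measurable[𝒜] (fun ω => f ω - g ω) := hf.sub hg

theorem ni_mul {Ω : Type*} {𝒜 : MeasurableSpace Ω} {f : Ω → ℂ} (c : ℂ)
    (hf : Measurable[𝒜] f) : Measurable[𝒜] (fun ω => c * f ω) := hf.const_mul c

theorem ni_sum {Ω : Type*} {𝒜 : MeasurableSpace Ω} {f : ℕ → Ω → ℂ} (q : ℕ)
    (hf : ∀ n, Measurable[𝒜] (f n)) : Measurable[𝒜] (fun ω => ∑ n ∈ range q, f n ω) :=
  Finset.measurable_fun_sum _ fun n _ => hf n

/-- Integrals of compositions with measure preserving maps. -/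
theorem ni_int_comp {Ω : Type*} [MeasurableSpace Ω] {μ : Measure Ω} {T : Ω → Ω}
    (hT : MeasurePreserving T μ μ) {G : Ω → ℂ} (hG : Measurable G) :
    ∫ ω, G (T ω) ∂μ = ∫ ω, G ω ∂μ := by
  have h := integral_map (μ := μ) hT.measurable.aemeasurable (f := G) hG.aestronglyMeasurable
  rw [hT.map_eq] at h
  exact h.symm

/-- A bounded `𝒜`-measurable function orthogonal to all such functions vanishes. -/
theorem ni_zero {Ω : Type*} (𝒜 : MeasurableSpace Ω) [mΩ : MeasurableSpace Ω]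
    (ν : Measure Ω) [IsProbabilityMeasure ν] (hle : 𝒜 ≤ mΩ) (h : Ω → ℂ) (hh : Measurable[𝒜] h)
    (C : ℝ) (hC : ∀ ω, ‖h ω‖ ≤ C)
    (h0 : ∀ F : Ω → ℂ, Measurable[𝒜] F → (∃ C : ℝ, ∀ ω, ‖F ω‖ ≤ C) →
      ∫ ω, F ω * h ω ∂ν = 0) : ∀ᵐ ω ∂ν, h ω = 0 := by
  have hm : Measurable h := hh.mono hle le_rfl
  have h1 := h0 (fun ω => conj (h ω))
    (@Measurable.comp _ _ _ 𝒜 _ _ _ _ Complex.continuous_conj.measurable hh)
    ⟨C, fun ω => by
      show ‖conj (h ω)‖ ≤ C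
      rw [RCLike.norm_conj]
      exact hC ω⟩
  have h2 : ∀ ω, conj (h ω) * h ω = ((‖h ω‖ ^ 2 : ℝ) : ℂ) := by
    intro ω
    rw [mul_comm, Complex.mul_conj, Complex.normSq_eq_norm_sq]
  simp only [h2] at h1
  rw [integral_complex_ofReal, Complex.ofReal_eq_zero] at h1
  have hint : Integrable (fun ω => ‖h ω‖ ^ 2) ν := by
    refine Integrable.of_bound (C := C ^ 2) (hm.norm.pow_const 2).aestronglyMeasurable ?_
    refine Eventually.of_forall fun ω => ?_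
    rw [Real.norm_eq_abs, abs_of_nonneg (by positivity)]
    exact pow_le_pow_left₀ (norm_nonneg _) (hC ω) 2
  have h3 := (integral_eq_zero_iff_of_nonneg (fun ω => by positivity) hint).1 h1
  filter_upwards [h3] with ω hω
  have h4 : ‖h ω‖ ^ 2 = 0 := hω
  exact norm_eq_zero.1 (pow_eq_zero_iff (two_ne_zero) |>.1 h4)

/-- Proof. Let `ν = avg σ S q`, a probability measure preserved by `S` (`avg_prob`, `avg_inv`), `D` from
`exists_density`, `g` a bounded `𝒜`-measurable version of `ν[D|𝒜]` (`exists_version` for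
`h = (D : ℂ)`, `C = q`).

(1) `D ∘ S^[q] = D` `ν`-a.e.: for `F` in `BM`, `∫ F (D ∘ S^[q]) dν = ∫ (F ∘ S^[-q]) D dν
= ∫ F ∘ S^[-q] dσ = ∫ F dσ = ∫ F D dν` (with `S.symm`), all `F` (take indicators,
`ae_eq_of_forall_setIntegral_eq...`, or directly that `D ∘ S^[q] - D` has all set integrals `0`).
(2) `(1/q) ∑_{n < q} D ∘ S^[n] = 1` `ν`-a.e.: for `F` in `BM`,
`∫ F (D ∘ S^[n]) dν = ∫ (F ∘ S.symm^[n]) D dν = ∫ F ∘ S.symm^[n] dσ` and
`S.symm^[n] = S.symm^[q] ∘ S^[q-n]`, so with the `S^[q]`-invariance of `σ` this is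
`∫ F ∘ S^[q-n] dσ` for `0 ≤ n < q`; summing over `n < q` gives `∑_{1 ≤ j ≤ q} ∫ F ∘ S^[j] dσ =
∑_{0 ≤ j < q} ∫ F ∘ S^[j] dσ = q ∫ F dν` (`integral_avg`).
(3) Taking conditional expectations (`condExp_comp_equiv` of `H22M/CE.lean`, iterated; or by testing
against bounded `𝒜`-measurable `F`, using that `F ∘ S.symm^[n]` is `𝒜`-measurable by `hinv`):
`g ∘ S^[q] = g` and `(1/q) ∑_{n < q} g ∘ S^[n] = 1` a.e.
(4) For `ζ^q = 1`, `ζ ≠ 1` let `g_ζ = ∑_{n < q} ζ^n (g ∘ S^[n])`, bounded and `𝒜`-measurable (`hinv`). By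
`g ∘ S^[q] = g`: `g_ζ ∘ S = ζ⁻¹ g_ζ` a.e., so `g_ζ = 0` a.e. by `NoRoot` (for `ζ⁻¹`). There are finitely
many `ζ` (the roots of unity, `Polynomial.nthRoots` or `rootsOfUnity`), so a.e. `ω` satisfies all these, and
`fourier_point` with `a n = g (S^[n] ω)` gives `g ω = (1/q) ∑_{n < q} g (S^[n] ω) = 1` a.e.
(5) `∫ F dσ = ∫ F D dν = ∫ F g dν = ∫ F dν`. -/
theorem integral_eq_avg {Ω : Type*} (𝒜 : MeasurableSpace Ω) [mΩ : MeasurableSpace Ω]
    (σ : Measure Ω) [IsProbabilityMeasure σ] (S : Ω ≃ᵐ Ω) (q : ℕ) (hq : 1 ≤ q)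
    (hσ : MeasurePreserving ((⇑S)^[q]) σ σ) (hle : 𝒜 ≤ mΩ) (hinv : 𝒜.comap S = 𝒜)
    (hN : NoRoot 𝒜 (avg σ S q) S q) (F : Ω → ℂ) (hF : Measurable[𝒜] F)
    (hb : ∃ C : ℝ, ∀ ω, ‖F ω‖ ≤ C) :
    ∫ ω, F ω ∂σ = ∫ ω, F ω ∂(avg σ S q) := by
  set ν := avg σ S q with hνd
  have hνp : IsProbabilityMeasure ν := avg_prob σ S S.measurable q hq
  have hS : MeasurePreserving S ν ν := avg_inv σ S S.measurable q hσ
  obtain ⟨D, hDm, hD0, hDq, hD⟩ := exists_density σ S S.measurable q hq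
  obtain ⟨g, hgm, hgb, -, hg⟩ := exists_version 𝒜 ν hle (fun ω => (D ω : ℂ))
    (Complex.measurable_ofReal.comp hDm) q (by positivity) (Eventually.of_forall fun ω => by
      rw [Complex.norm_real, Real.norm_eq_abs, abs_of_nonneg (hD0 ω)]
      exact hDq ω)
  have hgm' : Measurable g := hgm.mono hle le_rfl
  have hSm : Measurable[𝒜, 𝒜] S := measurable_iff_comap_le.2 hinv.le
  have hSm' : Measurable[𝒜, 𝒜] S.symm := by
    intro s hs
    rw [← hinv] at hs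
    obtain ⟨t, ht, rfl⟩ := hs
    have h1 : S.symm ⁻¹' (S ⁻¹' t) = t := by
      ext x
      simp
    rw [h1]
    exact ht
  have hSi : ∀ n : ℕ, Measurable[𝒜, 𝒜] ((⇑S)^[n]) := fun n => @Measurable.iterate Ω 𝒜 _ hSm n
  have hSi' : ∀ n : ℕ, Measurable[𝒜, 𝒜] ((⇑S.symm)^[n]) := fun n =>
    @Measurable.iterate Ω 𝒜 _ hSm' n
  have hli : ∀ (n : ℕ) (ω : Ω), (⇑S.symm)^[n] ((⇑S)^[n] ω) = ω := fun n =>
    Function.LeftInverse.iterate (fun y => S.symm_apply_apply y) n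
  have hstar : ∀ F : Ω → ℂ, Measurable[𝒜] F → (∃ C : ℝ, ∀ ω, ‖F ω‖ ≤ C) →
      ∫ ω, F ω ∂σ = ∫ ω, F ω * g ω ∂ν := by
    intro F hF hb
    rw [hD F ⟨hF.mono hle le_rfl, hb⟩]
    obtain ⟨C, hC⟩ := hb
    exact hg F hF ⟨C, Eventually.of_forall hC⟩
  have hK : ∀ n ≤ q, ∀ F : Ω → ℂ, Measurable[𝒜] F → (∃ C : ℝ, ∀ ω, ‖F ω‖ ≤ C) →
      ∫ ω, F ω * g ((⇑S)^[n] ω) ∂ν = ∫ ω, F ((⇑S)^[q - n] ω) ∂σ := by
    intro n hn F hF hb
    have hF' : Measurable[𝒜] (fun ω => F ((⇑S.symm)^[n] ω)) :=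
      @Measurable.comp _ _ _ 𝒜 𝒜 _ _ _ hF (hSi' n)
    have hb' : ∃ C : ℝ, ∀ ω, ‖F ((⇑S.symm)^[n] ω)‖ ≤ C := by
      obtain ⟨C, hC⟩ := hb
      exact ⟨C, fun ω => hC _⟩
    have h1 := ni_int_comp (hS.iterate n) (G := fun ω => F ((⇑S.symm)^[n] ω) * g ω)
      ((hF'.mono hle le_rfl).mul hgm')
    simp only [hli] at h1
    rw [h1, ← hstar _ hF' hb']
    have h2 := ni_int_comp hσ (G := fun ω => F ((⇑S.symm)^[n] ω)) (hF'.mono hle le_rfl)
    rw [← h2]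
    refine integral_congr_ae (Eventually.of_forall fun ω => ?_)
    show F ((⇑S.symm)^[n] ((⇑S)^[q] ω)) = F ((⇑S)^[q - n] ω)
    have h3 : (⇑S)^[q] ω = (⇑S)^[n] ((⇑S)^[q - n] ω) := by
      rw [← Function.iterate_add_apply, Nat.add_sub_cancel' hn]
    rw [h3, hli]
  have hgi : ∀ n : ℕ, Measurable[𝒜] (fun ω => g ((⇑S)^[n] ω)) := fun n =>
    @Measurable.comp _ _ _ 𝒜 𝒜 _ _ _ hgm (hSi n)
  have hgint : ∀ (n : ℕ) (F : Ω → ℂ), Measurable[𝒜] F → (∃ C : ℝ, ∀ ω, ‖F ω‖ ≤ C) →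
      Integrable (fun ω => F ω * g ((⇑S)^[n] ω)) ν := by
    intro n F hF hb
    obtain ⟨C, hC⟩ := hb
    refine Integrable.of_bound (C := C * q)
      ((hF.mono hle le_rfl).mul ((hgi n).mono hle le_rfl)).aestronglyMeasurable
      (Eventually.of_forall fun ω => ?_)
    rw [norm_mul]
    exact mul_le_mul (hC ω) (hgb _) (norm_nonneg _) ((norm_nonneg _).trans (hC ω))
  have hA : ∀ᵐ ω ∂ν, g ((⇑S)^[q] ω) - g ω = 0 := by
    refine ni_zero 𝒜 ν hle (fun ω => g ((⇑S)^[q] ω) - g ω)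
      (ni_sub (hgi q) hgm) (q + q)
      (fun ω => (norm_sub_le _ _).trans (add_le_add (hgb _) (hgb _))) ?_
    intro F hF hb
    have h1 := hK q le_rfl F hF hb
    rw [Nat.sub_self] at h1
    simp only [Function.iterate_zero, id_eq] at h1
    simp only [mul_sub]
    have h2 := hgint 0 F hF hb
    simp only [Function.iterate_zero, id_eq] at h2
    rw [integral_sub (hgint q F hF hb) h2, h1, hstar F hF hb, sub_self]
  have hB : ∀ᵐ ω ∂ν, ∑ n ∈ range q, g ((⇑S)^[n] ω) - q = 0 := by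
    have hsm : Measurable[𝒜] (fun ω => ∑ n ∈ range q, g ((⇑S)^[n] ω)) :=
      ni_sum q hgi
    refine ni_zero 𝒜 ν hle (fun ω => ∑ n ∈ range q, g ((⇑S)^[n] ω) - q)
      (ni_sub hsm (@measurable_const _ _ _ 𝒜 _)) (q * q + q)
      (fun ω => ?_) ?_
    · refine (norm_sub_le _ _).trans (add_le_add ?_ ?_)
      · refine (norm_sum_le _ _).trans ?_
        refine (Finset.sum_le_sum fun n _ => hgb _).trans ?_
        simp
      · simp
    · intro F hF hb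
      have hbm : BM F := ⟨hF.mono hle le_rfl, hb⟩
      have hFint : Integrable F ν := by
        obtain ⟨C, hC⟩ := hb
        exact Integrable.of_bound (C := C) hbm.1.aestronglyMeasurable (Eventually.of_forall hC)
      simp only [mul_sub, Finset.mul_sum]
      rw [integral_sub (integrable_finsetSum _ fun n _ => hgint n F hF hb)
        (hFint.mul_const _), integral_finsetSum _ fun n _ => hgint n F hF hb,
        integral_mul_const, sub_eq_zero, integral_avg σ S S.measurable q F hbm]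
      have h1 : ∑ n ∈ range q, ∫ ω, F ω * g ((⇑S)^[n] ω) ∂ν =
          ∑ n ∈ range q, ∫ ω, F ((⇑S)^[q - n] ω) ∂σ :=
        Finset.sum_congr rfl fun n hn => hK n (mem_range.1 hn).le F hF hb
      have h2 : ∑ n ∈ range q, ∫ ω, F ((⇑S)^[q - n] ω) ∂σ =
          ∑ n ∈ range q, ∫ ω, F ((⇑S)^[n + 1] ω) ∂σ := by
        rw [← Finset.sum_range_reflect (fun n => ∫ ω, F ((⇑S)^[n + 1] ω) ∂σ) q]
        refine Finset.sum_congr rfl fun n hn => ?_
        have h3 : q - 1 - n + 1 = q - n := by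
          have := mem_range.1 hn
          omega
        rw [h3]
      have h4 : ∑ n ∈ range q, ∫ ω, F ((⇑S)^[n + 1] ω) ∂σ =
          ∑ n ∈ range q, ∫ ω, F ((⇑S)^[n] ω) ∂σ := by
        have h5 := Finset.sum_range_succ (fun n => ∫ ω, F ((⇑S)^[n] ω) ∂σ) q
        have h6 := Finset.sum_range_succ' (fun n => ∫ ω, F ((⇑S)^[n] ω) ∂σ) q
        have h7 : ∫ ω, F ((⇑S)^[q] ω) ∂σ = ∫ ω, F ((⇑S)^[0] ω) ∂σ :=
          ni_int_comp hσ hbm.1
        rw [h5, h7] at h6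
        exact (add_right_cancel h6).symm
      rw [h1, h2, h4, mul_comm _ (q : ℂ), ← mul_assoc,
        mul_inv_cancel₀ (Nat.cast_ne_zero.2 (by omega)), one_mul]
  have hC : ∀ ζ : ℂ, ζ ^ q = 1 → ζ ≠ 1 →
      ∀ᵐ ω ∂ν, ∑ n ∈ range q, ζ ^ n * g ((⇑S)^[n] ω) = 0 := by
    intro ζ hζ hζ1
    have hζ0 : ζ ≠ 0 := by
      rintro rfl
      rw [zero_pow (by omega)] at hζ
      exact zero_ne_one hζ
    refine hN ζ⁻¹ (by rw [inv_pow, hζ, inv_one]) (fun h => hζ1 (inv_eq_one.1 h))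
      (fun ω => ∑ n ∈ range q, ζ ^ n * g ((⇑S)^[n] ω)) ?_ ⟨q * q, ?_⟩ ?_
    · exact ni_sum q (fun n => ni_mul (ζ ^ n) (hgi n))
    · refine Eventually.of_forall fun ω => ?_
      refine (norm_sum_le _ _).trans ?_
      have h1 : ‖ζ‖ = 1 := by
        have h2 : ‖ζ‖ ^ q = 1 := by rw [← norm_pow, hζ, norm_one]
        exact (pow_eq_one_iff_of_nonneg (norm_nonneg _) (by omega)).1 h2
      refine (Finset.sum_le_sum (g := fun _ => (q : ℝ)) fun n _ => ?_).trans ?_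
      · rw [norm_mul, norm_pow, h1, one_pow, one_mul]
        exact hgb _
      · simp
    · filter_upwards [hA] with ω hω
      have h5 := Finset.sum_range_succ (fun n => ζ ^ n * g ((⇑S)^[n] ω)) q
      have h6 := Finset.sum_range_succ' (fun n => ζ ^ n * g ((⇑S)^[n] ω)) q
      rw [h5, hζ, sub_eq_zero.1 hω] at h6
      simp only [pow_zero, Function.iterate_zero, id_eq, one_mul] at h6
      have h7 := add_right_cancel h6
      show ∑ n ∈ range q, ζ ^ n * g ((⇑S)^[n] (S ω)) =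
        ζ⁻¹ * ∑ n ∈ range q, ζ ^ n * g ((⇑S)^[n] ω)
      rw [h7, Finset.mul_sum]
      refine Finset.sum_congr rfl fun n _ => ?_
      rw [Function.iterate_succ_apply, pow_succ, ← mul_assoc, mul_comm (ζ ^ n) ζ, ← mul_assoc,
        inv_mul_cancel₀ hζ0, one_mul]
  have hfin : Set.Countable {ζ : ℂ | ζ ^ q = 1} := by
    refine Set.Finite.countable ((Polynomial.nthRootsFinset q (1 : ℂ)).finite_toSet.subset ?_)
    intro ζ hζ
    exact (Polynomial.mem_nthRootsFinset (by omega) _).2 hζ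
  have hC' : ∀ᵐ ω ∂ν, ∀ ζ ∈ {ζ : ℂ | ζ ^ q = 1}, ζ ≠ 1 →
      ∑ n ∈ range q, ζ ^ n * g ((⇑S)^[n] ω) = 0 := by
    rw [ae_ball_iff hfin]
    intro ζ hζ
    by_cases h1 : ζ = 1
    · exact Eventually.of_forall fun ω h2 => absurd h1 h2
    · filter_upwards [hC ζ hζ h1] with ω hω _
      exact hω
  have hone : ∀ᵐ ω ∂ν, g ω = 1 := by
    filter_upwards [hB, hC'] with ω h1 h2
    have h3 := fourier_point q hq (fun n => g ((⇑S)^[n] ω)) (fun ζ h4 h5 => h2 ζ h4 h5)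
    rw [sub_eq_zero.1 h1, inv_mul_cancel₀ (Nat.cast_ne_zero.2 (by omega))] at h3
    exact h3
  rw [hstar F hF hb]
  refine integral_congr_ae ?_
  filter_upwards [hone] with ω hω
  rw [hω, mul_one]

end Pool.Agent.Lib.H82T
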