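import Pool.Agent.Lib.H82T.S1B
import Pool.Agent.Lib.H82T.DG

/-!
# Project H82T, chunk S2: the module lemma
-/

open MeasureTheory Filter Topology Finset
open scoped ENNReal ComplexConjugate

namespace Pool.Agent.Lib.H82T

open Pool.Agent.Lib.H22M

theorem s2_iter {Y : Type*} [MeasurableSpace Y] {m : Measure Y} {R : Y → Y}
    {ν : Measure (Y × Y)} (h : IsSelf m R ν) {f g : Y → ℂ} (hf : Measurable f)
    (hg : Measurable g) (n : ℕ) :
    ∫ z, f z.1 * g z.2 ∂ν = ∫ z, f (R^[n] z.1) * g (R^[n] z.2) ∂ν := by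
  have h1 : MeasurePreserving ((Prod.map R R)^[n]) ν ν := h.inv.iterate n
  have h2 : Measurable fun z : Y × Y => f z.1 * g z.2 :=
    (hf.comp measurable_fst).mul (hg.comp measurable_snd)
  conv_lhs => rw [← h1.map_eq]
  rw [integral_map h1.measurable.aemeasurable h2.aestronglyMeasurable]
  refine integral_congr_ae (Eventually.of_forall fun z => ?_)
  simp only [Prod.map_iterate, Prod.map_fst, Prod.map_snd]

theorem s2_cs {Y : Type*} [MeasurableSpace Y] {ν : Measure (Y × Y)} [IsProbabilityMeasure ν]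
    {χ : Y → ℂ} (hχ : Measurable χ) (hχ1 : ∀ y, ‖χ y‖ ≤ 1) {S : Y × Y → ℂ} (hS : BM S) :
    ‖∫ z, χ z.1 * S z ∂ν‖ ≤ l2 ν S := by
  have hc : BM fun z : Y × Y => conj (χ z.1) :=
    BM.conj ⟨hχ.comp measurable_fst, 1, fun z => hχ1 z.1⟩
  have h1 := norm_integral_mul_conj_le (m := ν) hS hc
  have h2 : l2 ν (fun z : Y × Y => conj (χ z.1)) ≤ 1 := by
    refine l2_le_of_bound 1 zero_le_one (Eventually.of_forall fun z => ?_)
    rw [RCLike.norm_conj]
    exact hχ1 z.1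
  have h3 : ∫ z, χ z.1 * S z ∂ν = ∫ z, S z * conj (conj (χ z.1)) ∂ν := by
    refine integral_congr_ae (Eventually.of_forall fun z => ?_)
    simp only [Complex.conj_conj]
    ring
  rw [h3]
  calc _ ≤ l2 ν S * l2 ν (fun z : Y × Y => conj (χ z.1)) := h1
    _ ≤ l2 ν S * 1 := mul_le_mul_of_nonneg_left h2 (l2_nonneg _ _)
    _ = l2 ν S := mul_one _

theorem s2_sq {Ω : Type*} [MeasurableSpace Ω] {ν : Measure Ω} {S : Ω → ℂ} :
    l2 ν S ^ 2 = ‖∫ z, S z * conj (S z) ∂ν‖ := by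
  have h1 : ∫ z, S z * conj (S z) ∂ν = ((∫ z, ‖S z‖ ^ 2 ∂ν : ℝ) : ℂ) := by
    rw [← integral_complex_ofReal]
    refine integral_congr_ae (Eventually.of_forall fun z => ?_)
    simp only [Complex.mul_conj']
    push_cast
    rfl
  have h0 : 0 ≤ ∫ z, ‖S z‖ ^ 2 ∂ν := integral_nonneg fun z => by positivity
  rw [h1, Complex.norm_real, Real.norm_eq_abs, abs_of_nonneg h0, l2, Real.sq_sqrt h0]

/-- The square of the norm of a sum of tensors. -/
theorem s2_sum {Y : Type*} [MeasurableSpace Y] {ν : Measure (Y × Y)} [IsProbabilityMeasure ν]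
    (s : Finset ℕ) (a b : ℕ → Y → ℂ) (ha : ∀ n, BM (a n)) (hb : ∀ n, BM (b n)) (E : ℕ → ℕ → ℝ)
    (hE : ∀ n ∈ s, ∀ j ∈ s,
      ‖∫ z, (a n z.1 * conj (a j z.1)) * (b n z.2 * conj (b j z.2)) ∂ν‖ ≤ E n j) :
    l2 ν (fun z : Y × Y => ∑ n ∈ s, a n z.1 * b n z.2) ^ 2 ≤ ∑ n ∈ s, ∑ j ∈ s, E n j := by
  have hj : ∀ n ∈ s, ∀ j ∈ s, Integrable (fun z : Y × Y =>
      (a n z.1 * conj (a j z.1)) * (b n z.2 * conj (b j z.2))) ν := by
    intro n _ j _
    exact ((((ha n).mul (ha j).conj).comp measurable_fst).mul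
      (((hb n).mul (hb j).conj).comp measurable_snd)).integrable
  have h2 : ∀ z : Y × Y,
      (∑ n ∈ s, a n z.1 * b n z.2) * conj (∑ n ∈ s, a n z.1 * b n z.2) =
      ∑ n ∈ s, ∑ j ∈ s, (a n z.1 * conj (a j z.1)) * (b n z.2 * conj (b j z.2)) := by
    intro z
    rw [map_sum, Finset.sum_mul_sum]
    refine Finset.sum_congr rfl fun n _ => Finset.sum_congr rfl fun j _ => ?_
    rw [map_mul]
    ring
  have h1 : ∫ z : Y × Y, (∑ n ∈ s, a n z.1 * b n z.2) * conj (∑ n ∈ s, a n z.1 * b n z.2) ∂ν =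
      ∑ n ∈ s, ∑ j ∈ s,
        ∫ z, (a n z.1 * conj (a j z.1)) * (b n z.2 * conj (b j z.2)) ∂ν := by
    simp_rw [h2]
    rw [integral_finsetSum _ (fun n hn => integrable_finsetSum _ (hj n hn))]
    refine Finset.sum_congr rfl fun n hn => ?_
    rw [integral_finsetSum _ (hj n hn)]
  rw [s2_sq, h1]
  refine (norm_sum_le _ _).trans (Finset.sum_le_sum fun n hn => ?_)
  exact (norm_sum_le _ _).trans (Finset.sum_le_sum fun j hj' => hE n hn j hj')

/-- Proof. Let `g` be in `BM`, `ε > 0`, `d = Fintype.card ι`, `C ≥ 0` a bound for the `G n x`. Take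
`k, c, e, N` from `exists_uncorrelated` for `g` and a small `δ > 0` to be chosen, and
`g' y = g y - ∫ g - ∑ i, e i y` (in `BM`). For `n, j < N`, `x` in `ι` let `F_{n,j,x}` be the finite set of
`Small m R (G n x * conj (G j x))` for the function `(g' ∘ R^[n]) * conj (g' ∘ R^[j])` and a small `ε' > 0`. Let
`F` be the union of these sets and of `{c i}` (none contains `1`).

Let `IsSelf m R ν`, `Kills m R F ν`. Then `∫ f⊗g dν = ∫ f⊗g' dν + (∫ f)(∫ g) + ∑ i, ∫ f ⊗ e i dν` and the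
last terms are `0` by `Kills` (`IsSelf.bm_fst` for the constant). By invariance under `R × R`,
`∫ f⊗g' dν = (1/N) ∑_{n < N} ∫ f(R^[n] z.1) g'(R^[n] z.2) dν
= ∑_x ∫ χ x z.1 * A_x(z) dν`, `A_x(z) = (1/N) ∑_{n < N} G n x z.1 * g'(R^[n] z.2)`, so
`|∫ f⊗g' dν| ≤ ∑_x ∫ |A_x| dν ≤ ∑_x (∫ |A_x|^2 dν)^{1/2}` and
`∫ |A_x|^2 dν = N^{-2} ∑_{n,j < N} ∫ (G n x conj (G j x))(z.1) (g' ∘ R^[n] conj (g' ∘ R^[j]))(z.2) dν`, each
term within `ε'` of `(∫ G n x conj (G j x) dm) (∫ g' ∘ R^[n] conj (g' ∘ R^[j]) dm)`, of modulus at most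
`C^2 ‖∫ g' ∘ R^[n] conj (g' ∘ R^[j]) dm‖`. So `∫ |A_x|^2 dν ≤ ε' + C^2 δ`, and
`|∫ f⊗g' dν| ≤ d (ε' + C^2 δ)^{1/2} ≤ ε` for `δ = ε' / (C^2 + 1)` and
`2 ε' ≤ (ε / (d + 1))^2`. -/
theorem small_of_module {Y ι : Type*} [MeasurableSpace Y] {m : Measure Y}
    [IsProbabilityMeasure m] {R : Y → Y} (hR : Ergodic R m) [Fintype ι] (f : Y → ℂ) (hf : BM f)
    (χ : ι → Y → ℂ) (hχ : ∀ x, Measurable (χ x)) (hχ1 : ∀ x y, ‖χ x y‖ ≤ 1)
    (G : ℕ → ι → Y → ℂ) (hG : ∀ n x, Measurable (G n x)) (C : ℝ) (hC : ∀ n x y, ‖G n x y‖ ≤ C)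
    (hfG : ∀ n y, f (R^[n] y) = ∑ x, χ x y * G n x y)
    (h : ∀ n j x, Small m R (fun y => G n x y * conj (G j x y))) : Small m R f := by
  classical
  intro g hg ε hε
  have hRm : Measurable R := hR.toMeasurePreserving.measurable
  have hRn : ∀ n, Measurable (R^[n]) := fun n => hRm.iterate n
  set d : ℕ := Fintype.card ι with hd
  set ε' : ℝ := (ε / (d + 1)) ^ 2 / 2 with hε'
  have hε'0 : 0 < ε' := by positivity
  set δ : ℝ := ε' / (C ^ 2 + 1) with hδ
  have hδ0 : 0 < δ := by positivity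
  obtain ⟨k, c, e, he, N, hN, hcorr⟩ := exists_uncorrelated hR g hg δ hδ0
  set g' : Y → ℂ := fun y => g y - ∫ x, g x ∂m - ∑ i, e i y with hg'
  have hBMe : BM fun y => ∑ i, e i y := BM.sum Finset.univ fun i _ => (he i).1
  have hBMg' : BM g' := (hg.sub (BM.const _)).sub hBMe
  have hb : ∀ n, BM fun y => g' (R^[n] y) := fun n => hBMg'.comp (hRn n)
  have hGB : ∀ n x, BM (G n x) := fun n x => ⟨hG n x, C, hC n x⟩
  have hχB : ∀ x, BM (χ x) := fun x => ⟨hχ x, 1, hχ1 x⟩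
  choose F hF1 hF using fun (n j : ℕ) (x : ι) =>
    h n j x (fun y => g' (R^[n] y) * conj (g' (R^[j] y))) ((hb n).mul (hb j).conj) ε' hε'0
  set FF : Finset ℂ := ((Finset.range N ×ˢ Finset.range N ×ˢ (Finset.univ : Finset ι)).biUnion
    fun t => F t.1 t.2.1 t.2.2) ∪ Finset.image c Finset.univ with hFF
  refine ⟨FF, ?_, ?_⟩
  · rw [hFF, Finset.mem_union, not_or]
    constructor
    · rw [Finset.mem_biUnion]
      rintro ⟨t, _, ht⟩
      exact hF1 _ _ _ ht
    · rw [Finset.mem_image]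
      rintro ⟨i, _, hi⟩
      exact (he i).2.1 hi
  intro ν hν hK
  have := hν.prob
  have hKF : ∀ n ∈ Finset.range N, ∀ j ∈ Finset.range N, ∀ x, Kills m R (F n j x) ν := by
    intro n hn j hj x a ha
    refine hK a ?_
    rw [hFF, Finset.mem_union]
    left
    rw [Finset.mem_biUnion]
    exact ⟨(n, j, x), by simp only [Finset.mem_product, Finset.mem_univ, and_true]; exact ⟨hn, hj⟩,
      ha⟩
  have hKc : ∀ i, ∫ z, f z.1 * e i z.2 ∂ν = 0 := by
    intro i
    refine (hK (c i) ?_ (he i).2.2.1 (e i) (he i).1 (he i).2.2.2 f hf).2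
    rw [hFF, Finset.mem_union]
    right
    exact Finset.mem_image_of_mem _ (Finset.mem_univ i)
  -- step 1
  have hstep1 : ∫ z, f z.1 * g z.2 ∂ν - (∫ y, f y ∂m) * ∫ y, g y ∂m = ∫ z, f z.1 * g' z.2 ∂ν := by
    have i1 : Integrable (fun z : Y × Y => f z.1 * g z.2) ν :=
      ((hf.comp measurable_fst).mul (hg.comp measurable_snd)).integrable
    have i2 : Integrable (fun z : Y × Y => f z.1 * ∫ y, g y ∂m) ν :=
      ((hf.comp measurable_fst).mul (BM.const _)).integrable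
    have i3 : ∀ i ∈ (Finset.univ : Finset (Fin k)),
        Integrable (fun z : Y × Y => f z.1 * e i z.2) ν := fun i _ =>
      ((hf.comp measurable_fst).mul ((he i).1.comp measurable_snd)).integrable
    have e1 : ∀ z : Y × Y, f z.1 * g' z.2 =
        (f z.1 * g z.2 - f z.1 * ∫ y, g y ∂m) - ∑ i, f z.1 * e i z.2 := by
      intro z
      rw [hg', ← Finset.mul_sum]
      ring
    simp_rw [e1]
    have i12 : Integrable (fun z : Y × Y => f z.1 * g z.2 - f z.1 * ∫ y, g y ∂m) ν := i1.sub i2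
    have i4 : Integrable (fun z : Y × Y => ∑ i, f z.1 * e i z.2) ν := integrable_finsetSum _ i3
    rw [integral_sub i12 i4, integral_sub i1 i2, integral_finsetSum _ i3, Finset.sum_eq_zero (fun i _ => hKc i), sub_zero,
      integral_mul_const, hν.bm_fst hf]
  rw [hstep1]
  -- step 2
  set S : ι → Y × Y → ℂ := fun x z => ∑ n ∈ Finset.range N, G n x z.1 * g' (R^[n] z.2) with hS
  have hSB : ∀ x, BM (S x) := fun x => BM.sum _ fun n _ =>
    ((hGB n x).comp measurable_fst).mul ((hb n).comp measurable_snd)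
  have hstep2 : (N : ℂ) * ∫ z, f z.1 * g' z.2 ∂ν = ∑ x, ∫ z, χ x z.1 * S x z ∂ν := by
    have e1 : ∀ n : ℕ, ∫ z, f z.1 * g' z.2 ∂ν =
        ∑ x, ∫ z, χ x z.1 * (G n x z.1 * g' (R^[n] z.2)) ∂ν := by
      intro n
      rw [s2_iter hν hf.1 hBMg'.1 n, ← integral_finsetSum]
      · refine integral_congr_ae (Eventually.of_forall fun z => ?_)
        simp only
        rw [hfG n z.1, Finset.sum_mul]
        exact Finset.sum_congr rfl fun x _ => by ring
      · intro x _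
        exact (((hχB x).comp measurable_fst).mul (((hGB n x).comp measurable_fst).mul
          ((hb n).comp measurable_snd))).integrable
    have e2 : (N : ℂ) * ∫ z, f z.1 * g' z.2 ∂ν =
        ∑ n ∈ Finset.range N, ∫ z, f z.1 * g' z.2 ∂ν := by
      rw [Finset.sum_const, Finset.card_range, nsmul_eq_mul]
    rw [e2, Finset.sum_congr rfl fun n _ => e1 n, Finset.sum_comm]
    refine Finset.sum_congr rfl fun x _ => ?_
    rw [← integral_finsetSum]
    · refine integral_congr_ae (Eventually.of_forall fun z => ?_)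
      simp only [hS]
      rw [Finset.mul_sum]
    · intro n _
      exact (((hχB x).comp measurable_fst).mul (((hGB n x).comp measurable_fst).mul
        ((hb n).comp measurable_snd))).integrable
  -- step 3
  have hN0 : (0 : ℝ) < N := by exact_mod_cast hN
  have hstep3 : ∀ x, l2 ν (S x) ≤ N * (ε / (d + 1)) := by
    intro x
    have hC0 : 0 ≤ C := by
      have : Nonempty Y := nonempty_of_isProbabilityMeasure m
      exact (norm_nonneg _).trans (hC 0 x (Classical.arbitrary Y))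
    have hterm : ∀ n ∈ Finset.range N, ∀ j ∈ Finset.range N,
        ‖∫ z, (G n x z.1 * conj (G j x z.1)) *
          ((fun n y => g' (R^[n] y)) n z.2 * conj ((fun n y => g' (R^[n] y)) j z.2)) ∂ν‖ ≤
        ε' + C ^ 2 * ‖∫ y, g' (R^[n] y) * conj (g' (R^[j] y)) ∂m‖ := by
      intro n hn j hj
      have h1 := hF n j x ν hν (hKF n hn j hj x)
      have h2 : ‖∫ y, G n x y * conj (G j x y) ∂m‖ ≤ C ^ 2 := by
        refine (norm_integral_le_of_norm_le_const (C := C ^ 2)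
          (Eventually.of_forall fun y => ?_)).trans ?_
        · rw [norm_mul, RCLike.norm_conj, sq]
          exact mul_le_mul (hC n x y) (hC j x y) (norm_nonneg _) hC0
        · simp
      have h3 : ‖(∫ y, G n x y * conj (G j x y) ∂m) *
          ∫ y, g' (R^[n] y) * conj (g' (R^[j] y)) ∂m‖ ≤
          C ^ 2 * ‖∫ y, g' (R^[n] y) * conj (g' (R^[j] y)) ∂m‖ := by
        rw [norm_mul]
        exact mul_le_mul_of_nonneg_right h2 (norm_nonneg _)
      have h4 := norm_add_le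
        (∫ z, (G n x z.1 * conj (G j x z.1)) * (g' (R^[n] z.2) * conj (g' (R^[j] z.2))) ∂ν -
          (∫ y, G n x y * conj (G j x y) ∂m) * ∫ y, g' (R^[n] y) * conj (g' (R^[j] y)) ∂m)
        ((∫ y, G n x y * conj (G j x y) ∂m) * ∫ y, g' (R^[n] y) * conj (g' (R^[j] y)) ∂m)
      rw [sub_add_cancel] at h4
      exact h4.trans (add_le_add h1 h3)
    have h5 := s2_sum (ν := ν) (Finset.range N) (fun n => G n x) (fun n y => g' (R^[n] y))
      (fun n => hGB n x) hb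
      (fun n j => ε' + C ^ 2 * ‖∫ y, g' (R^[n] y) * conj (g' (R^[j] y)) ∂m‖) hterm
    have h6 : ∑ n ∈ Finset.range N, ∑ j ∈ Finset.range N,
        (ε' + C ^ 2 * ‖∫ y, g' (R^[n] y) * conj (g' (R^[j] y)) ∂m‖) ≤
        (N : ℝ) ^ 2 * (ε' + C ^ 2 * δ) := by
      have e1 : ∑ n ∈ Finset.range N, ∑ j ∈ Finset.range N,
          (ε' + C ^ 2 * ‖∫ y, g' (R^[n] y) * conj (g' (R^[j] y)) ∂m‖) =
          (N : ℝ) ^ 2 * ε' + C ^ 2 * ∑ n ∈ Finset.range N, ∑ j ∈ Finset.range N,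
            ‖∫ y, g' (R^[n] y) * conj (g' (R^[j] y)) ∂m‖ := by
        simp_rw [Finset.sum_add_distrib, Finset.mul_sum, Finset.sum_const, Finset.card_range,
          nsmul_eq_mul]
        ring
      rw [e1]
      have e2 : C ^ 2 * ∑ n ∈ Finset.range N, ∑ j ∈ Finset.range N,
            ‖∫ y, g' (R^[n] y) * conj (g' (R^[j] y)) ∂m‖ ≤ C ^ 2 * (δ * (N : ℝ) ^ 2) :=
        mul_le_mul_of_nonneg_left hcorr (sq_nonneg C)
      linarith
    have h7 : C ^ 2 * δ ≤ ε' := by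
      rw [hδ, ← mul_div_assoc, div_le_iff₀ (by positivity)]
      nlinarith [sq_nonneg C]
    have h8 : l2 ν (S x) ^ 2 ≤ (N * (ε / (d + 1))) ^ 2 := by
      refine (h5.trans h6).trans ?_
      have h9 : ε' + C ^ 2 * δ ≤ (ε / (d + 1)) ^ 2 := by
        have : ε' + ε' = (ε / (d + 1)) ^ 2 := by rw [hε']; ring
        linarith
      rw [mul_pow]
      exact mul_le_mul_of_nonneg_left h9 (by positivity)
    exact le_of_sq_le_sq h8 (by positivity)
  have hstep4 : (N : ℝ) * ‖∫ z, f z.1 * g' z.2 ∂ν‖ ≤ d * (N * (ε / (d + 1))) := by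
    have e1 : (N : ℝ) * ‖∫ z, f z.1 * g' z.2 ∂ν‖ = ‖(N : ℂ) * ∫ z, f z.1 * g' z.2 ∂ν‖ := by
      rw [norm_mul, Complex.norm_natCast]
    rw [e1, hstep2]
    refine (norm_sum_le _ _).trans ?_
    refine (Finset.sum_le_sum fun x _ => (s2_cs (hχ x) (hχ1 x) (hSB x)).trans (hstep3 x)).trans ?_
    rw [Finset.sum_const, nsmul_eq_mul, Finset.card_univ]
  have hstep5 : ‖∫ z, f z.1 * g' z.2 ∂ν‖ ≤ d * (ε / (d + 1)) := by
    have : (N : ℝ) * ‖∫ z, f z.1 * g' z.2 ∂ν‖ ≤ N * (d * (ε / (d + 1))) := by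
      calc _ ≤ _ := hstep4
        _ = _ := by ring
    exact le_of_mul_le_mul_left this hN0
  refine hstep5.trans ?_
  rw [← mul_div_assoc, div_le_iff₀ (by positivity)]
  nlinarith

end Pool.Agent.Lib.H82T
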