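import Pool.Agent.Lib.H82T.Defs
import Pool.Agent.Lib.H22M.NL

/-!
# Project H82T, chunk AP: approximation by functions of a family of σ-algebras
-/

open MeasureTheory Filter Topology Finset
open scoped ENNReal ComplexConjugate

namespace Pool.Agent.Lib.H82T

open Pool.Agent.Lib.H22M

/-- The approximation property passes to unions of two sets. -/
theorem ap_union {Y ι : Type*} (𝒜 : ι → MeasurableSpace Y)
    [mY : MeasurableSpace Y] (m : Measure Y) [IsProbabilityMeasure m]
    (hdir : Directed (· ≤ ·) 𝒜) (A A' : Set Y)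
    (h1 : ∀ ε : ℝ, 0 < ε → ∃ i, ∃ B : Set Y, MeasurableSet[𝒜 i] B ∧
      (m (symmDiff A B)).toReal < ε)
    (h2 : ∀ ε : ℝ, 0 < ε → ∃ i, ∃ B : Set Y, MeasurableSet[𝒜 i] B ∧
      (m (symmDiff A' B)).toReal < ε) :
    ∀ ε : ℝ, 0 < ε → ∃ i, ∃ B : Set Y, MeasurableSet[𝒜 i] B ∧
      (m (symmDiff (A ∪ A') B)).toReal < ε := by
  intro ε hε
  obtain ⟨i, B, hB, hB2⟩ := h1 (ε / 2) (by positivity)
  obtain ⟨j, B', hB', hB2'⟩ := h2 (ε / 2) (by positivity)
  obtain ⟨k, hik, hjk⟩ := hdir i j
  refine ⟨k, B ∪ B', @MeasurableSet.union Y (𝒜 k) B B' (hik _ hB) (hjk _ hB'), ?_⟩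
  have hsub : symmDiff (A ∪ A') (B ∪ B') ⊆ symmDiff A B ∪ symmDiff A' B' := by
    intro x hx
    simp only [Set.mem_symmDiff, Set.mem_union] at hx ⊢
    tauto
  have hle : m (symmDiff (A ∪ A') (B ∪ B')) ≤ m (symmDiff A B) + m (symmDiff A' B') :=
    (measure_mono hsub).trans (measure_union_le _ _)
  have hle2 : (m (symmDiff (A ∪ A') (B ∪ B'))).toReal
      ≤ (m (symmDiff A B)).toReal + (m (symmDiff A' B')).toReal := by
    rw [← ENNReal.toReal_add (measure_ne_top _ _) (measure_ne_top _ _)]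
    exact ENNReal.toReal_mono (ENNReal.add_ne_top.2 ⟨measure_ne_top _ _, measure_ne_top _ _⟩) hle
  linarith

/-- Proof. The sets `A` with the stated approximation property `P A` (for every `ε > 0` there are `i` and
`B` in `𝒜 i` with `m (A ∆ B) < ε`) contain all sets of all `𝒜 i` and form a σ-algebra: complements
(`(Aᶜ) ∆ (Bᶜ) = A ∆ B`), finite unions by directedness, countable unions since
`m (⋃_n A_n \ ⋃_{n ≤ N} A_n) → 0`. So they contain `⨆ i, 𝒜 i`
(`MeasurableSpace.measurableSpace_iSup_eq`, `induction_on_inter` for the π-system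
`{A | ∃ i, MeasurableSet[𝒜 i] A}` needs only complements and disjoint countable unions). -/
theorem exists_approx_set {Y ι : Type*} [Nonempty ι] (𝒜 : ι → MeasurableSpace Y)
    [mY : MeasurableSpace Y] (m : Measure Y) [IsProbabilityMeasure m]
    (hdir : Directed (· ≤ ·) 𝒜) (hle : ∀ i, 𝒜 i ≤ mY) (A : Set Y)
    (hA : MeasurableSet[⨆ i, 𝒜 i] A) (ε : ℝ) (hε : 0 < ε) :
    ∃ i, ∃ B : Set Y, MeasurableSet[𝒜 i] B ∧ (m (symmDiff A B)).toReal < ε := by
  have hmeas : ∀ s : Set Y, MeasurableSpace.GenerateMeasurable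
      {s : Set Y | ∃ i, MeasurableSet[𝒜 i] s} s → MeasurableSet[mY] s := by
    intro s hs
    exact (iSup_le hle) s (MeasurableSpace.measurableSet_iSup.2 hs)
  rw [MeasurableSpace.measurableSet_iSup] at hA
  suffices H : ∀ ε : ℝ, 0 < ε → ∃ i, ∃ B : Set Y, MeasurableSet[𝒜 i] B ∧
      (m (symmDiff A B)).toReal < ε from H ε hε
  clear hε ε
  induction hA with
  | basic u hu =>
    intro ε hε
    obtain ⟨i, hi⟩ := hu
    exact ⟨i, u, hi, by simpa using hε⟩
  | empty =>
    intro ε hε
    obtain ⟨i⟩ := (inferInstance : Nonempty ι)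
    exact ⟨i, ∅, @MeasurableSet.empty Y (𝒜 i), by simpa using hε⟩
  | compl t ht ih =>
    intro ε hε
    obtain ⟨i, B, hB, hB2⟩ := ih ε hε
    refine ⟨i, Bᶜ, @MeasurableSet.compl Y B (𝒜 i) hB, ?_⟩
    have h3 : symmDiff tᶜ Bᶜ = symmDiff t B := by
      ext x
      simp only [Set.mem_symmDiff, Set.mem_compl_iff]
      tauto
    rw [h3]
    exact hB2
  | iUnion f hf ih =>
    have hacc : ∀ N : ℕ, ∀ ε : ℝ, 0 < ε → ∃ i, ∃ B : Set Y, MeasurableSet[𝒜 i] B ∧
        (m (symmDiff (Set.accumulate f N) B)).toReal < ε := by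
      intro N
      induction N with
      | zero =>
        have h0 : Set.accumulate f 0 = f 0 := by
          ext x
          simp [Set.accumulate]
        rw [h0]
        exact ih 0
      | succ N ihN =>
        rw [Set.accumulate_succ]
        exact ap_union 𝒜 m hdir _ _ ihN (ih (N + 1))
    intro ε hε
    have hfm : ∀ n, MeasurableSet (f n) := fun n => hmeas _ (hf n)
    have haccm : ∀ N, MeasurableSet (Set.accumulate f N) := by
      intro N
      unfold Set.accumulate
      exact MeasurableSet.iUnion fun n => MeasurableSet.iUnion fun _ => hfm n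
    have hsubU : ∀ N, Set.accumulate f N ⊆ ⋃ n, f n := by
      intro N x hx
      simp only [Set.accumulate, Set.mem_iUnion] at hx ⊢
      obtain ⟨n, _, hn⟩ := hx
      exact ⟨n, hn⟩
    have ht := tendsto_measure_iUnion_accumulate (μ := m) (f := f)
    have ht2 : Tendsto (fun N => (m (Set.accumulate f N)).toReal) atTop
        (𝓝 (m (⋃ n, f n)).toReal) :=
      (ENNReal.tendsto_toReal (measure_ne_top _ _)).comp ht
    have hev : ∀ᶠ N in atTop, (m (⋃ n, f n)).toReal - ε / 2 < (m (Set.accumulate f N)).toReal :=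
      ht2.eventually (lt_mem_nhds (by linarith))
    obtain ⟨N, hN⟩ := hev.exists
    obtain ⟨i, B, hB, hB2⟩ := hacc N (ε / 2) (by positivity)
    refine ⟨i, B, hB, ?_⟩
    have hsub : symmDiff (⋃ n, f n) B ⊆ ((⋃ n, f n) \ Set.accumulate f N) ∪
        symmDiff (Set.accumulate f N) B := by
      intro x hx
      have h5 := @hsubU N x
      simp only [Set.mem_symmDiff, Set.mem_union, Set.mem_diff] at hx ⊢
      tauto
    have h6 : (m ((⋃ n, f n) \ Set.accumulate f N)).toReal
        = (m (⋃ n, f n)).toReal - (m (Set.accumulate f N)).toReal := by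
      rw [measure_diff (hsubU N) (haccm N).nullMeasurableSet (measure_ne_top _ _),
        ENNReal.toReal_sub_of_le (measure_mono (hsubU N)) (measure_ne_top _ _)]
    have h7 : (m (symmDiff (⋃ n, f n) B)).toReal
        ≤ (m ((⋃ n, f n) \ Set.accumulate f N)).toReal
          + (m (symmDiff (Set.accumulate f N) B)).toReal := by
      rw [← ENNReal.toReal_add (measure_ne_top _ _) (measure_ne_top _ _)]
      exact ENNReal.toReal_mono (ENNReal.add_ne_top.2 ⟨measure_ne_top _ _, measure_ne_top _ _⟩)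
        ((measure_mono hsub).trans (measure_union_le _ _))
    linarith

end Pool.Agent.Lib.H82T
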