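import Pool.Agent.Lib.H82T.AV
import Pool.Agent.Lib.H22M.FC

/-!
# Project H82T, chunk SC2: the average of the relative square lives over the p-torsion
-/

open MeasureTheory Filter Topology Finset
open scoped ENNReal ComplexConjugate

namespace Pool.Agent.Lib.H82T

open Pool.Agent.Lib.H22M

theorem sc2_bm_char {Y Z : Type*} [MeasurableSpace Y]
    [CommGroup Z] [TopologicalSpace Z] [IsTopologicalGroup Z]
    [CompactSpace Z] [T2Space Z] [SecondCountableTopology Z] [MeasurableSpace Z] [BorelSpace Z]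
    (χ : PontryaginDual Z) {π : Y → Z} (hπ : Measurable π) (p : ℕ) :
    BM (fun y => ((χ (π y ^ p) : Circle) : ℂ)) := by
  refine ⟨(CompactAbelian.continuous_char χ).measurable.comp (hπ.pow_const p), 1, fun y => ?_⟩
  exact (Circle.norm_coe _).le

/-- The Fourier coefficients of the image of `σ`. -/
theorem sc2_coef {Y Z : Type*} [MeasurableSpace Y] {m : Measure Y} [IsProbabilityMeasure m]
    [CommGroup Z] [TopologicalSpace Z] [IsTopologicalGroup Z]
    [CompactSpace Z] [T2Space Z] [SecondCountableTopology Z] [MeasurableSpace Z] [BorelSpace Z]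
    {R : Y → Y} {p q : ℕ} {ρ σ : Measure (Y × Y)}
    (hσ : RelSq m R p q ρ σ) (π : Y → Z) (hπ : Measurable π) (α : Z)
    (hπR : ∀ y, π (R y) = α * π y) (χ : PontryaginDual Z) :
    ∫ z, ((χ ((π z.2 / π z.1) ^ p) : Circle) : ℂ) ∂σ = 1 := by
  have hbm := sc2_bm_char χ hπ p
  have hbm1 := sc2_bm_char χ hπ 1
  have hnn : ∀ y, ((χ (π y ^ p) : Circle) : ℂ) * conj ((χ (π y ^ p) : Circle) : ℂ) = 1 := by
    intro y
    rw [Complex.mul_conj, Complex.normSq_eq_norm_sq, Circle.norm_coe]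
    norm_num
  have hcbm : BM (fun y => conj ((χ (π y ^ p) : Circle) : ℂ)) := by
    refine ⟨Complex.continuous_conj.measurable.comp hbm.1, 1, fun y => ?_⟩
    show ‖conj ((χ (π y ^ p) : Circle) : ℂ)‖ ≤ 1
    rw [Complex.norm_conj]
    exact (Circle.norm_coe _).le
  have heig : IsEigenvalue m R ((χ α : Circle) : ℂ) := by
    refine ⟨fun y => ((χ (π y ^ 1) : Circle) : ℂ), hbm1.1,
      Eventually.of_forall fun y => Circle.norm_coe _, Eventually.of_forall fun y => ?_⟩
    show ((χ (π (R y) ^ 1) : Circle) : ℂ) = ((χ α : Circle) : ℂ) * ((χ (π y ^ 1) : Circle) : ℂ)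
    rw [hπR, pow_one, pow_one, map_mul, Circle.coe_mul]
  have hER : ∀ᵐ y ∂m, ((χ (π (R y) ^ p) : Circle) : ℂ) =
      ((χ α : Circle) : ℂ) ^ p * ((χ (π y ^ p) : Circle) : ℂ) := by
    refine Eventually.of_forall fun y => ?_
    show ((χ (π (R y) ^ p) : Circle) : ℂ) =
      ((χ α : Circle) : ℂ) ^ p * ((χ (π y ^ p) : Circle) : ℂ)
    rw [hπR, mul_pow, map_mul, Circle.coe_mul, map_pow, Circle.coe_pow]
  have h1 := hσ.eig_pow (fun y => ((χ (π y ^ p) : Circle) : ℂ)) ((χ α : Circle) : ℂ) hbm heig hER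
    (fun y => conj ((χ (π y ^ p) : Circle) : ℂ)) hcbm
  have h2 : ∫ y, ((χ (π y ^ p) : Circle) : ℂ) * conj ((χ (π y ^ p) : Circle) : ℂ) ∂m = 1 := by
    simp_rw [hnn]
    simp
  have h3 : ∫ z : Y × Y, ((χ (π z.1 ^ p) : Circle) : ℂ) *
      conj ((χ (π z.2 ^ p) : Circle) : ℂ) ∂σ = 1 := h1.trans h2
  have h4 : ∫ z : Y × Y, conj (((χ (π z.1 ^ p) : Circle) : ℂ) *
      conj ((χ (π z.2 ^ p) : Circle) : ℂ)) ∂σ = 1 := by
    rw [integral_conj, h3]
    exact map_one _
  rw [← h4]
  refine integral_congr_ae (Eventually.of_forall fun z => ?_)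
  show ((χ ((π z.2 / π z.1) ^ p) : Circle) : ℂ) =
    conj (((χ (π z.1 ^ p) : Circle) : ℂ) * conj ((χ (π z.2 ^ p) : Circle) : ℂ))
  rw [map_mul, Complex.conj_conj, div_pow, div_eq_mul_inv, map_mul, map_inv, Circle.coe_mul,
    Circle.coe_inv_eq_conj, mul_comm]

/-- Almost every point for `σ`. -/
theorem sc2_ae {Y Z : Type*} [MeasurableSpace Y] {m : Measure Y} [IsProbabilityMeasure m]
    [CommGroup Z] [TopologicalSpace Z] [IsTopologicalGroup Z]
    [CompactSpace Z] [T2Space Z] [SecondCountableTopology Z] [MeasurableSpace Z] [BorelSpace Z]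
    {R : Y → Y} {p q : ℕ} {ρ σ : Measure (Y × Y)}
    (hσ : RelSq m R p q ρ σ) (π : Y → Z) (hπ : Measurable π) (α : Z)
    (hπR : ∀ y, π (R y) = α * π y) :
    MeasurableSet {z : Y × Y | ¬ (π z.2 / π z.1) ^ p = 1} ∧
      σ {z : Y × Y | ¬ (π z.2 / π z.1) ^ p = 1} = 0 := by
  have hprob : IsProbabilityMeasure σ := hσ.prob
  have hmeas : Measurable fun z : Y × Y => (π z.2 / π z.1) ^ p :=
    ((hπ.comp measurable_snd).div (hπ.comp measurable_fst)).pow_const p
  have hset : {z : Y × Y | ¬ (π z.2 / π z.1) ^ p = 1} =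
      (fun z : Y × Y => (π z.2 / π z.1) ^ p) ⁻¹' ({1}ᶜ : Set Z) := rfl
  have hm1 : MeasurableSet ({1}ᶜ : Set Z) := (measurableSet_singleton (1 : Z)).compl
  have hτ : σ.map (fun z : Y × Y => (π z.2 / π z.1) ^ p) = Measure.dirac (1 : Z) := by
    have hf : IsProbabilityMeasure (σ.map (fun z : Y × Y => (π z.2 / π z.1) ^ p)) :=
      Measure.isProbabilityMeasure_map hmeas.aemeasurable
    refine measure_ext_char _ _ fun χ => ?_
    rw [integral_map hmeas.aemeasurable
      (CompactAbelian.continuous_char χ).measurable.aestronglyMeasurable,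
      sc2_coef hσ π hπ α hπR χ, integral_dirac]
    rw [map_one]
    rfl
  refine ⟨hset ▸ hmeas hm1, ?_⟩
  rw [hset, ← Measure.map_apply hmeas hm1, hτ, Measure.dirac_apply' _ hm1]
  simp

/-- Proof. Let `τ` be the image of `σ` under `z ↦ (π z.2 / π z.1) ^ p`. For a character `χ` of `Z` let
`e y = (χ (π y) : ℂ)^p`, in `BM`; `e (R y) = (χ α)^p e y` and `χ ∘ π` is an eigenfunction of modulus one
with eigenvalue `χ α`, so `hσ.eig_pow` with `l = χ α` and `g = conj e` gives
`∫ e(z.1) conj e(z.2) dσ = ∫ ‖e‖^2 dm = 1`; conjugating, `∫ χ dτ = ∫ conj e(z.1) e(z.2) dσ = 1`. So `τ` and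
the Dirac measure at `1` have the same Fourier coefficients and are equal (`measure_ext_char`), i.e.
`(π z.2 / π z.1)^p = 1` for `σ`-almost every `z`. The function `z ↦ π z.2 / π z.1` is invariant under
`Prod.map R R` (`π ∘ R = α * π`, everywhere), so the same holds for the images of `σ` under the iterates,
hence for the average (`ae_smul_measure_iff`-type lemma, or evaluate the average on the measurable set
`{z | (π z.2 / π z.1)^p ≠ 1}`). -/
theorem avg_torsion {Y Z : Type*} [MeasurableSpace Y] {m : Measure Y} [IsProbabilityMeasure m]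
    [CommGroup Z] [TopologicalSpace Z] [IsTopologicalGroup Z]
    [CompactSpace Z] [T2Space Z] [SecondCountableTopology Z] [MeasurableSpace Z] [BorelSpace Z]
    {R : Y → Y} (hR : MeasurePreserving R m m) {p q : ℕ} (hq : 1 ≤ q) {ρ σ : Measure (Y × Y)}
    (hσ : RelSq m R p q ρ σ) (π : Y → Z) (hπ : Measurable π) (α : Z)
    (hπR : ∀ y, π (R y) = α * π y) :
    ∀ᵐ z ∂(avg σ (Prod.map R R) q), (π z.2 / π z.1) ^ p = 1 := by
  obtain ⟨hms, h0⟩ := sc2_ae hσ π hπ α hπR
  have hinv : ∀ n : ℕ, (Prod.map R R)^[n] ⁻¹' {z : Y × Y | ¬ (π z.2 / π z.1) ^ p = 1} =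
      {z : Y × Y | ¬ (π z.2 / π z.1) ^ p = 1} := by
    intro n
    induction n with
    | zero => rfl
    | succ n ih =>
      rw [Function.iterate_succ, Set.preimage_comp, ih]
      ext z
      show (¬ (π (R z.2) / π (R z.1)) ^ p = 1) ↔ ¬ (π z.2 / π z.1) ^ p = 1
      rw [hπR, hπR, mul_div_mul_left_eq_div]
  rw [ae_iff, avg, Measure.smul_apply, Measure.finsetSum_apply]
  have hz : ∑ n ∈ range q, (σ.map ((Prod.map R R)^[n]))
      {z : Y × Y | ¬ (π z.2 / π z.1) ^ p = 1} = 0 := by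
    refine Finset.sum_eq_zero fun n _ => ?_
    rw [Measure.map_apply ((hR.measurable.prodMap hR.measurable).iterate n) hms, hinv n, h0]
  rw [hz, smul_zero]

end Pool.Agent.Lib.H82T
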