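import Pool.Agent.Lib.H82T.D1

/-!
# Project H82T, chunk T1: the levels of a tower are invariant σ-algebras
-/

open MeasureTheory Filter Topology Finset
open scoped ENNReal ComplexConjugate

namespace Pool.Agent.Lib.H82T

open Pool.Agent.Lib.H22M

/-- Proof. Induction on `Tow`: `sup_le`, `Measurable.comap_le`, `sSup_le`. -/
theorem Tow.le {Y : Type*} {mY : MeasurableSpace Y} {R : Y → Y} {D : ℕ}
    {ℬ₀ ℬ : MeasurableSpace Y} (h : Tow mY R D ℬ₀ ℬ) (h₀ : ℬ₀ ≤ mY) : ℬ ≤ mY := by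
  induction h with
  | base => exact h₀
  | step ℬ h d hd θ hθ Φ hΦ hR ih => exact sup_le ih hθ.comap_le
  | sup 𝒮 hne hdir h ih => exact sSup_le ih

theorem t1_step {Y : Type*} {R : Y → Y} {ℬ : MeasurableSpace Y} (hinv : ℬ.comap R = ℬ)
    {d : ℕ} (θ : Y → Fin d) (Φ : Y → Equiv.Perm (Fin d))
    (hΦ : ∀ s, MeasurableSet[ℬ] {y | Φ y = s}) (hR : ∀ y, θ (R y) = Φ y (θ y)) :
    (ℬ ⊔ MeasurableSpace.comap θ ⊤).comap R = ℬ ⊔ MeasurableSpace.comap θ ⊤ := by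
  rw [MeasurableSpace.comap_sup, hinv, MeasurableSpace.comap_comp]
  have key : ∀ (𝒜 : MeasurableSpace Y) (τ : Y → Fin d), (∀ s, MeasurableSet[𝒜] {y | Φ y = s}) →
      ∀ (σ : Equiv.Perm (Fin d) → Fin d → Fin d) (τ' : Y → Fin d),
      (∀ y, τ' y = σ (Φ y) (τ y)) → (∀ a, MeasurableSet[𝒜] {y | τ y = a}) →
      MeasurableSpace.comap τ' ⊤ ≤ 𝒜 := by
    intro 𝒜 τ hs σ τ' hτ' hτ
    rintro _ ⟨t, -, rfl⟩
    have h1 : τ' ⁻¹' t = ⋃ p ∈ {p : Equiv.Perm (Fin d) × Fin d | σ p.1 p.2 ∈ t},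
        ({y | Φ y = p.1} ∩ {y | τ y = p.2}) := by
      ext y
      simp only [Set.mem_preimage, Set.mem_iUnion, Set.mem_inter_iff, Set.mem_ofPred_eq,
        exists_prop]
      constructor
      · intro h
        exact ⟨(Φ y, τ y), by rw [← hτ']; exact h, rfl, rfl⟩
      · rintro ⟨p, hp, h3, h4⟩
        rw [hτ', h3, h4]
        exact hp
    rw [h1]
    refine Set.Finite.measurableSet_biUnion (Set.toFinite _) fun p _ => ?_
    exact (hs p.1).inter (hτ p.2)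
  refine le_antisymm (sup_le le_sup_left ?_) (sup_le le_sup_left ?_)
  · refine key (ℬ ⊔ MeasurableSpace.comap θ ⊤) θ (fun s => ?_) (fun s a => s a) (θ ∘ R) hR
      (fun a => ?_)
    · exact (le_sup_left : ℬ ≤ ℬ ⊔ MeasurableSpace.comap θ ⊤) _ (hΦ s)
    · exact (le_sup_right : MeasurableSpace.comap θ ⊤ ≤ ℬ ⊔ MeasurableSpace.comap θ ⊤) _
        ⟨{a}, trivial, rfl⟩
  · refine key (ℬ ⊔ MeasurableSpace.comap (θ ∘ R) ⊤) (θ ∘ R) (fun s => ?_)
      (fun s a => s.symm a) θ (fun y => ?_) (fun a => ?_)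
    · exact (le_sup_left : ℬ ≤ ℬ ⊔ MeasurableSpace.comap (θ ∘ R) ⊤) _ (hΦ s)
    · show θ y = (Φ y).symm (θ (R y))
      rw [hR y, Equiv.symm_apply_apply]
    · exact (le_sup_right : MeasurableSpace.comap (θ ∘ R) ⊤ ≤
        ℬ ⊔ MeasurableSpace.comap (θ ∘ R) ⊤) _ ⟨{a}, trivial, rfl⟩

/-- Proof. Induction on `Tow`. Supremum: `MeasurableSpace.comap_iSup` (`sSup_eq_iSup'`). Step: let
`ℬ' = ℬ ⊔ comap θ ⊤`. `ℬ'.comap R = ℬ ⊔ comap (θ ∘ R) ⊤` and `θ ∘ R = Φ y (θ y)` is measurable for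
`ℬ'` (the set `{θ (R y) = a}` is the finite union over permutations `s` of
`{Φ y = s} ∩ {θ y = s⁻¹ a}`), so `≤`. Conversely `θ = (Φ y)⁻¹ (θ (R y))`: `{θ y = a}` is the finite union of
`{Φ y = s} ∩ {θ (R y) = s a}`, in `ℬ ⊔ comap (θ ∘ R) ⊤ = ℬ.comap R ⊔ comap (θ ∘ R) ⊤`. -/
theorem Tow.comap_eq {Y : Type*} {mY : MeasurableSpace Y} {R : Y → Y} {D : ℕ}
    {ℬ₀ ℬ : MeasurableSpace Y} (h : Tow mY R D ℬ₀ ℬ) (h₀ : ℬ₀.comap R = ℬ₀) :
    ℬ.comap R = ℬ := by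
  induction h with
  | base => exact h₀
  | step ℬ h d hd θ hθ Φ hΦ hR ih => exact t1_step ih θ Φ hΦ hR
  | sup 𝒮 hne hdir h ih =>
    rw [sSup_eq_iSup', MeasurableSpace.comap_iSup]
    exact iSup_congr fun ℬ => ih ℬ.1 ℬ.2

/-- The base σ-algebra is invariant. Proof. `(π, u) ∘ R = ρ ∘ (π, u)` with
`ρ (z, w) = (α z, φ z * w)`, measurable with measurable inverse `(z, w) ↦ (α⁻¹ z, (φ (α⁻¹ z))⁻¹ w)`. So
`comap (π, u)` of the product σ-algebra, pulled back by `R`, is `comap (π, u)` of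
`(prod).comap ρ = prod`. -/
theorem base_comap {Y Z G : Type*} [Group Z] [MeasurableSpace Z] [MeasurableMul Z] [Group G]
    [MeasurableSpace G] [MeasurableMul₂ G] [MeasurableInv G] (R : Y → Y) (π : Y → Z) (α : Z)
    (hπR : ∀ y, π (R y) = α * π y) (u : Y → G) (φ : Z → G) (hφ : Measurable φ)
    (huR : ∀ y, u (R y) = φ (π y) * u y) :
    (MeasurableSpace.comap (fun y => (π y, u y)) inferInstance).comap R =
      MeasurableSpace.comap (fun y => (π y, u y)) inferInstance := by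
  set ρ : Z × G → Z × G := fun p => (α * p.1, φ p.1 * p.2) with hρ
  set ρ' : Z × G → Z × G := fun p => (α⁻¹ * p.1, (φ (α⁻¹ * p.1))⁻¹ * p.2) with hρ'
  have hm : Measurable ρ := by
    refine Measurable.prodMk ?_ ?_
    · exact (measurable_const_mul α).comp measurable_fst
    · exact (hφ.comp measurable_fst).mul measurable_snd
  have hm' : Measurable ρ' := by
    refine Measurable.prodMk ?_ ?_
    · exact (measurable_const_mul α⁻¹).comp measurable_fst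
    · exact (hφ.comp ((measurable_const_mul α⁻¹).comp measurable_fst)).inv.mul measurable_snd
  have h1 : (fun y => (π y, u y)) ∘ R = ρ ∘ (fun y => (π y, u y)) := by
    funext y
    simp [hρ, hπR, huR]
  have h2 : ∀ p, ρ' (ρ p) = p := by
    intro p
    simp [hρ, hρ']
  rw [MeasurableSpace.comap_comp, h1]
  refine le_antisymm ?_ ?_
  · rw [← MeasurableSpace.comap_comp]
    exact MeasurableSpace.comap_mono hm.comap_le
  · rintro _ ⟨t, ht, rfl⟩
    refine ⟨ρ' ⁻¹' t, hm' ht, ?_⟩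
    ext y
    simp only [Set.mem_preimage, Function.comp]
    rw [h2]

end Pool.Agent.Lib.H82T
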