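import Pool.Agent.Lib.H82T.Defs

/-!
# Project H82T, chunk RP: functions measurable for a finite extension of a σ-algebra
-/

open MeasureTheory Filter Topology Finset
open scoped ENNReal ComplexConjugate

namespace Pool.Agent.Lib.H82T

/-- Proof. Let `x` be in `κ` and `s = {ω | ϑ ω = x}`, `j : s → Ω` the inclusion (`Subtype.val`). The
function `h ∘ j` is measurable for `(𝒜 ⊔ comap ϑ ⊤).comap j = 𝒜.comap j ⊔ (comap ϑ ⊤).comap j`
(`MeasurableSpace.comap_sup`? otherwise by hand with `Measurable` and `sup_le`), and `(comap ϑ ⊤).comap j`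
consists of `∅` and `univ`, since `ϑ ∘ j` is constant (`MeasurableSpace.comap_comp`,
`MeasurableSpace.comap_const`). So `h ∘ j` is measurable for `𝒜.comap j`, and
`Measurable.exists_eq_measurable_comp` (`Mathlib/MeasureTheory/Function/FactorsThrough.lean`) gives an
`𝒜`-measurable `H x` with `h ∘ j = H x ∘ j`, that is `h ω = H x ω` whenever `ϑ ω = x`. -/
theorem exists_rep {Ω κ : Type*} (𝒜 : MeasurableSpace Ω) (ϑ : Ω → κ) (h : Ω → ℂ)
    (hh : Measurable[𝒜 ⊔ MeasurableSpace.comap ϑ ⊤] h) :
    ∃ H : κ → Ω → ℂ, (∀ x, Measurable[𝒜] (H x)) ∧ ∀ ω, h ω = H (ϑ ω) ω := by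
  have key : ∀ x : κ, ∃ H : Ω → ℂ, Measurable[𝒜] H ∧ ∀ ω, ϑ ω = x → h ω = H ω := by
    intro x
    let j : {ω : Ω // ϑ ω = x} → Ω := Subtype.val
    have h1 : Measurable[𝒜.comap j] (h ∘ j) := by
      intro s hs
      have h2 := hh hs
      have h3 : ∀ t : Set Ω, MeasurableSet[𝒜 ⊔ MeasurableSpace.comap ϑ ⊤] t →
          MeasurableSet[𝒜.comap j] (j ⁻¹' t) := by
        have h4 : 𝒜 ⊔ MeasurableSpace.comap ϑ ⊤ ≤ MeasurableSpace.map j (𝒜.comap j) := by
          refine sup_le ?_ ?_
          · intro t ht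
            exact ⟨t, ht, rfl⟩
          · rintro t ⟨u, -, rfl⟩
            change MeasurableSet[𝒜.comap j] (j ⁻¹' (ϑ ⁻¹' u))
            by_cases hx : x ∈ u
            · have h5 : j ⁻¹' (ϑ ⁻¹' u) = Set.univ := by
                ext ω
                simp only [Set.mem_preimage, Set.mem_univ, iff_true]
                rw [show ϑ (j ω) = x from ω.2]
                exact hx
              rw [h5]
              exact @MeasurableSet.univ _ (𝒜.comap j)
            · have h5 : j ⁻¹' (ϑ ⁻¹' u) = ∅ := by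
                ext ω
                simp only [Set.mem_preimage, Set.mem_empty_iff_false, iff_false]
                rw [show ϑ (j ω) = x from ω.2]
                exact hx
              rw [h5]
              exact @MeasurableSet.empty _ (𝒜.comap j)
        exact fun t ht => h4 t ht
      exact h3 _ h2
    obtain ⟨H, hH, hHj⟩ := Measurable.exists_eq_measurable_comp (mY := 𝒜) (f := j) h1
    refine ⟨H, hH, fun ω hω => ?_⟩
    exact congrFun hHj ⟨ω, hω⟩
  choose H hH hH' using key
  exact ⟨H, hH, fun ω => hH' (ϑ ω) ω rfl⟩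

end Pool.Agent.Lib.H82T
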