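import Pool.Agent.Lib.H82T.CV
import Pool.Agent.Lib.H82T.RP

/-!
# Project H82T, chunk XF: finite extensions have no root of unity eigenfunctions
-/

open MeasureTheory Filter Topology Finset
open scoped ENNReal ComplexConjugate

namespace Pool.Agent.Lib.H82T

open Pool.Agent.Lib.H22M

/-- Proof. Let `ζ^q = 1`, `ζ ≠ 1` (so `‖ζ‖ = 1`, `q ≥ 1`), `h` measurable for
`𝒜' = 𝒜 ⊔ comap ϑ ⊤ ≤ mΩ`, `‖h‖ ≤ C` a.e., `h ∘ S = ζ h` a.e. Then `‖h ∘ S‖ = ‖h‖` a.e., so the set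
`E = {ω | h ω ≠ 0}` is `S`-invariant modulo `ν` (`S ⁻¹' E =ᵐ E`, `E` measurable), that is
`MeasurableSet[aeInv ν S] E`, hence `E` in `𝒜`; in the same way `ω ↦ ‖h ω‖` is measurable for
`aeInv ν S` (sets `{‖h‖ ∈ B}`). Let `u ω = h ω / ‖h ω‖` (`0` if `h ω = 0`): it is measurable for `𝒜'`,
`‖u‖ ≤ 1`, `‖u ω‖ = 1` on `E`, `u = 0` off `E` and `u ∘ S = ζ u` a.e. Suppose `ν E > 0` is to be excluded: we
show `ν E = 0`.

By `exists_rep`, `u ω = H (ϑ ω) ω` with `𝒜`-measurable `H x`. Let `H' x ω = H x ω` if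
`‖H x ω‖ = 1` and `H' x ω = 1` otherwise: `𝒜`-measurable, `‖H' x ω‖ = 1` for all `x, ω`, and
`u ω = H' (ϑ ω) ω` for `ω` in `E`. Let `d = Fintype.card κ` and
`∏_x (T - H' x ω) = ∑_{j ≤ d} c_j(ω) T^j`, where `c_j` is `𝒜`-measurable and bounded
(`Finset.prod_X_sub_C...` / `Multiset.prod_X_sub_C_coeff`; or, simpler, expand the product
`∏_x (T - H' x ω) = ∑_{A ⊆ κ} (∏_{x ∉ A} (- H' x ω)) T^{|A|}` with `Finset.prod_add` /
`Finset.prod_sub`-type lemmas, sum over `Finset.univ.powerset`). For `ω` in `E` the product at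
`T = u ω` is `0` (one factor vanishes). Multiply by the indicator `1_E` and integrate over a set `A'` in
`𝒜`: `0 = ∑_A ∫ 1_{A'} 1_E (∏_{x ∉ A} (- H' x)) u^{|A|} dν`. For `j = |A| ≥ 1` we have
`1 ≤ j ≤ d < q`, so `ζ^j ≠ 1` (`q` prime: the order of `ζ` is `q`), `(ζ^j)^q = 1`,
`u^j ∘ S = ζ^j u^j` a.e.; the version `g` of `ν[u^j|𝒜]` from `exists_eigen_version` is `0` a.e. by
`NoRoot 𝒜`, and its last property with `f = 1_{A'} 1_E ∏_{x ∉ A} (- H' x)` (`𝒜`-measurable, bounded; `E` is in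
`𝒜`) shows that this term is `0`. The term `A = ∅` remains: `∫ 1_{A'} 1_E ∏_x (- H' x) dν = 0`. Take
instead of `1_{A'}` the function `conj ∏_x (- H' x)` (every bounded `𝒜`-measurable function is allowed):
`∫ 1_E dν = 0` as `‖∏ H' x‖ = 1`. So `ν E = 0`, that is `h = 0` a.e. -/
theorem NoRoot.step {Ω κ : Type*} [Fintype κ] (𝒜 : MeasurableSpace Ω) [mΩ : MeasurableSpace Ω]
    (ν : Measure Ω) [IsProbabilityMeasure ν] (S : Ω ≃ᵐ Ω) (hS : MeasurePreserving S ν ν)
    (q : ℕ) (hq : q.Prime) (hle : 𝒜 ≤ mΩ) (hinv : 𝒜.comap S = 𝒜) (hae : aeInv ν S ≤ 𝒜)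
    (hN : NoRoot 𝒜 ν S q) (ϑ : Ω → κ) (hϑ : Measurable[mΩ, ⊤] ϑ) (hd : Fintype.card κ < q) :
    NoRoot (𝒜 ⊔ MeasurableSpace.comap ϑ ⊤) ν S q := by
  classical
  intro ζ hζq hζ1 h hh hCh hζ
  obtain ⟨C, hC⟩ := hCh
  have hζn : ‖ζ‖ = 1 := Complex.norm_eq_one_of_pow_eq_one hζq hq.ne_zero
  have hle' : 𝒜 ⊔ MeasurableSpace.comap ϑ ⊤ ≤ mΩ := sup_le hle hϑ.comap_le
  have hhm : Measurable h := hh.mono hle' le_rfl
  have hEae : MeasurableSet[aeInv ν S] {ω | h ω ≠ 0} := by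
    refine ⟨(measurableSet_eq_fun hhm measurable_const).compl, ?_⟩
    rw [Filter.eventuallyEq_set]
    filter_upwards [hζ] with ω hω
    have h0 : ζ ≠ 0 := by
      intro h0
      rw [h0, norm_zero] at hζn
      exact one_ne_zero hζn.symm
    simp only [Set.mem_preimage, Set.mem_setOf_eq]
    rw [hω]
    constructor
    · intro h1 h2
      exact h1 (by rw [h2, mul_zero])
    · intro h1
      exact mul_ne_zero h0 h1
  have hE : MeasurableSet[𝒜] {ω | h ω ≠ 0} := hae _ hEae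
  -- the normalised function
  have hum : Measurable[𝒜 ⊔ MeasurableSpace.comap ϑ ⊤] (fun ω => h ω / ((‖h ω‖ : ℝ) : ℂ)) :=
    hh.div (Complex.measurable_ofReal.comp (measurable_norm.comp hh))
  obtain ⟨u, hu⟩ : ∃ u : Ω → ℂ, u = fun ω => h ω / ((‖h ω‖ : ℝ) : ℂ) := ⟨_, rfl⟩
  rw [← hu] at hum
  have humm : Measurable u := hum.mono hle' le_rfl
  have hu1 : ∀ ω, ‖u ω‖ ≤ 1 := by
    intro ω
    rw [hu]
    simp only [norm_div, Complex.norm_real, norm_norm]
    exact div_self_le_one _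
  have huE : ∀ ω, h ω ≠ 0 → ‖u ω‖ = 1 := by
    intro ω hω
    rw [hu]
    simp only [norm_div, Complex.norm_real, norm_norm]
    exact div_self (norm_ne_zero_iff.mpr hω)
  have huS : ∀ᵐ ω ∂ν, u (S ω) = ζ * u ω := by
    filter_upwards [hζ] with ω hω
    rw [hu]
    simp only
    rw [hω, norm_mul, hζn, one_mul, mul_div_assoc]
  obtain ⟨H, hHm, hHu⟩ := exists_rep 𝒜 ϑ u hum
  obtain ⟨H', hH'⟩ : ∃ H' : κ → Ω → ℂ, H' = fun x ω => if ‖H x ω‖ = 1 then H x ω else 1 :=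
    ⟨_, rfl⟩
  have hH'm : ∀ x, Measurable[𝒜] (H' x) := by
    intro x
    have h1 : MeasurableSet[𝒜] {ω | ‖H x ω‖ = 1} :=
      (measurable_norm.comp (hHm x)) (measurableSet_singleton (1 : ℝ))
    rw [hH']
    exact Measurable.ite h1 (hHm x) measurable_const
  have hH'1 : ∀ x ω, ‖H' x ω‖ = 1 := by
    intro x ω
    rw [hH']
    by_cases h1 : ‖H x ω‖ = 1
    · simp only [if_pos h1]
      exact h1
    · simp only [if_neg h1]
      exact norm_one
  have hH'u : ∀ ω, h ω ≠ 0 → u ω = H' (ϑ ω) ω := by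
    intro ω hω
    have h1 := huE ω hω
    rw [hHu ω] at h1
    rw [hH']
    simp only [if_pos h1]
    exact hHu ω
  -- the products
  have hPm : ∀ t : Finset κ, Measurable[𝒜] (fun ω => ∏ x ∈ t, (-H' x ω)) := by
    intro t
    exact Finset.measurable_prod t fun x _ => (hH'm x).neg
  have hP1 : ∀ (t : Finset κ) ω, ‖∏ x ∈ t, (-H' x ω)‖ = 1 := by
    intro t ω
    rw [norm_prod]
    refine Finset.prod_eq_one fun x _ => ?_
    rw [norm_neg, hH'1]
  obtain ⟨w, hw⟩ : ∃ w : Ω → ℂ, w = fun ω => ({ω | h ω ≠ 0} : Set Ω).indicator (fun _ => (1 : ℂ)) ω *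
      conj (∏ x, (-H' x ω)) := ⟨_, rfl⟩
  have hwm : Measurable[𝒜] w := by
    rw [hw]
    exact (measurable_const.indicator hE).mul
      (Complex.continuous_conj.measurable.comp (hPm univ))
  have hw1 : ∀ ω, ‖w ω‖ ≤ 1 := by
    intro ω
    rw [hw]
    simp only
    rw [norm_mul, RCLike.norm_conj, hP1, mul_one]
    by_cases h1 : ω ∈ ({ω | h ω ≠ 0} : Set Ω)
    · rw [Set.indicator_of_mem h1, norm_one]
    · rw [Set.indicator_of_notMem h1, norm_zero]
      exact zero_le_one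
  -- the terms with a nonempty set
  have hterm : ∀ t : Finset κ, t.Nonempty →
      ∫ ω, (w ω * ∏ x ∈ univ \ t, (-H' x ω)) * u ω ^ #t ∂ν = 0 := by
    intro t ht
    have hj1 : 1 ≤ #t := Finset.card_pos.mpr ht
    have hj2 : #t < q := lt_of_le_of_lt (Finset.card_le_univ t) hd
    have hb : ∀ ω, ‖u ω ^ #t‖ ≤ 1 := by
      intro ω
      rw [norm_pow]
      exact pow_le_one₀ (norm_nonneg _) (hu1 ω)
    have hs : ∀ᵐ ω ∂ν, u (S ω) ^ #t = ζ ^ #t * u ω ^ #t := by
      filter_upwards [huS] with ω hω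
      rw [hω, mul_pow]
    obtain ⟨g, hgm, hg1, _, hgS, hgI⟩ := exists_eigen_version 𝒜 ν hle S hS hinv
      (fun ω => u ω ^ #t) (humm.pow_const _) 1 zero_le_one (Eventually.of_forall hb) (ζ ^ #t) hs
    have hz1 : (ζ ^ #t) ^ q = 1 := by
      rw [← pow_mul, mul_comm, pow_mul, hζq, one_pow]
    have hz2 : ζ ^ #t ≠ 1 := by
      intro h1
      have : Fact q.Prime := ⟨hq⟩
      have h2 : orderOf ζ = q := orderOf_eq_prime hζq hζ1
      have h3 := orderOf_dvd_of_pow_eq_one h1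
      rw [h2] at h3
      exact absurd (Nat.le_of_dvd hj1 h3) (not_le.mpr hj2)
    have hg0 : ∀ᵐ ω ∂ν, g ω = 0 :=
      hN (ζ ^ #t) hz1 hz2 g hgm ⟨1, Eventually.of_forall hg1⟩ hgS
    have h1 := hgI (fun ω => w ω * ∏ x ∈ univ \ t, (-H' x ω)) (hwm.mul (hPm _))
      ⟨1, Eventually.of_forall fun ω => by
        rw [norm_mul, hP1, mul_one]
        exact hw1 ω⟩
    rw [h1]
    have h3 : (fun ω => (w ω * ∏ x ∈ univ \ t, (-H' x ω)) * g ω) =ᵐ[ν] fun _ => (0 : ℂ) := by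
      filter_upwards [hg0] with ω hω
      rw [hω, mul_zero]
    rw [integral_congr_ae h3, integral_zero]
  -- the total vanishes
  have htot : ∀ ω, ∑ t ∈ (univ : Finset κ).powerset,
      (w ω * ∏ x ∈ univ \ t, (-H' x ω)) * u ω ^ #t = 0 := by
    intro ω
    by_cases hω : h ω ≠ 0
    · have h1 : ∏ x : κ, (u ω + -H' x ω) = 0 := by
        refine Finset.prod_eq_zero (Finset.mem_univ (ϑ ω)) ?_
        rw [hH'u ω hω, add_neg_cancel]
      rw [Finset.prod_add] at h1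
      have h2 : ∑ t ∈ (univ : Finset κ).powerset,
          (w ω * ∏ x ∈ univ \ t, (-H' x ω)) * u ω ^ #t = w ω *
          ∑ t ∈ (univ : Finset κ).powerset, (∏ _x ∈ t, u ω) * ∏ x ∈ univ \ t, (-H' x ω) := by
        rw [Finset.mul_sum]
        refine Finset.sum_congr rfl fun t _ => ?_
        rw [Finset.prod_const]
        ring
      rw [h2, h1, mul_zero]
    · have h1 : w ω = 0 := by
        rw [hw]
        simp only
        rw [Set.indicator_of_notMem (by simpa using hω), zero_mul]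
      refine Finset.sum_eq_zero fun t _ => ?_
      rw [h1, zero_mul, zero_mul]
  have hint : ∀ t : Finset κ,
      Integrable (fun ω => (w ω * ∏ x ∈ univ \ t, (-H' x ω)) * u ω ^ #t) ν := by
    intro t
    refine Integrable.of_bound (((hwm.mono hle le_rfl).mul ((hPm _).mono hle le_rfl)).mul
      (humm.pow_const _)).aestronglyMeasurable 1 (Eventually.of_forall fun ω => ?_)
    rw [norm_mul, norm_mul, hP1, mul_one, norm_pow]
    exact mul_le_one₀ (hw1 ω) (by positivity) (pow_le_one₀ (norm_nonneg _) (hu1 ω))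
  have hsum : ∑ t ∈ (univ : Finset κ).powerset,
      ∫ ω, (w ω * ∏ x ∈ univ \ t, (-H' x ω)) * u ω ^ #t ∂ν = 0 := by
    rw [← integral_finsetSum _ fun t _ => hint t]
    simp_rw [htot]
    exact integral_zero _ _
  rw [Finset.sum_eq_single (∅ : Finset κ)] at hsum
  · have h1 : ∀ ω, (w ω * ∏ x ∈ univ \ (∅ : Finset κ), (-H' x ω)) * u ω ^ #(∅ : Finset κ) =
        ({ω | h ω ≠ 0} : Set Ω).indicator (fun _ => (1 : ℂ)) ω := by
      intro ω
      rw [Finset.card_empty, pow_zero, mul_one, Finset.sdiff_empty, hw]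
      simp only
      rw [mul_assoc, Complex.conj_mul', hP1]
      simp
    simp_rw [h1] at hsum
    rw [integral_indicator (hle _ hE)] at hsum
    simp only [integral_const, MeasurableSet.univ, measureReal_restrict_apply, Set.univ_inter,
      Complex.real_smul, mul_one, Complex.ofReal_eq_zero] at hsum
    have h2 : ν {ω | h ω ≠ 0} = 0 := by
      rcases (measureReal_eq_zero_iff).mp hsum with h3
      exact h3
    rw [ae_iff]
    exact h2
  · intro t _ ht
    exact hterm t (Finset.nonempty_iff_ne_empty.mpr ht)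
  · intro h1
    exact absurd (Finset.empty_mem_powerset _) h1

end Pool.Agent.Lib.H82T
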