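import Pool.Agent.Lib.H82T.CV

/-!
# Project H82T, chunk XS: directed suprema have no root of unity eigenfunctions
-/

open MeasureTheory Filter Topology Finset
open scoped ENNReal ComplexConjugate

namespace Pool.Agent.Lib.H82T

open Pool.Agent.Lib.H22M

theorem xs_ind {Ω : Type*} [MeasurableSpace Ω] {A : Set Ω} (hA : MeasurableSet A) :
    Measurable (A.indicator (fun _ => (1 : ℂ))) := measurable_const.indicator hA

theorem xs_pi {Ω : Type*} [MeasurableSpace Ω] : IsPiSystem {t : Set Ω | MeasurableSet t} :=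
  fun _ hs _ ht _ => MeasurableSet.inter hs ht

theorem xs_basic {Ω : Type*} (𝒜 : MeasurableSpace Ω) [mΩ : MeasurableSpace Ω]
    (ν : Measure Ω) [IsProbabilityMeasure ν] (S : Ω ≃ᵐ Ω)
    (hS : MeasurePreserving S ν ν) (q : ℕ) (hle : 𝒜 ≤ mΩ)
    (hinv : 𝒜.comap S = 𝒜) (hN : NoRoot 𝒜 ν S q) (ζ : ℂ) (h1 : ζ ^ q = 1) (h2 : ζ ≠ 1)
    (h : Ω → ℂ) (hh : Measurable h) (C : ℝ) (hC0 : 0 ≤ C) (hC : ∀ᵐ ω ∂ν, ‖h ω‖ ≤ C)
    (hζ : ∀ᵐ ω ∂ν, h (S ω) = ζ * h ω) (A : Set Ω) (hA : MeasurableSet[𝒜] A) :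
    ∫ ω in A, h ω ∂ν = 0 := by
  obtain ⟨g, g1, g2, g3, g4, g5⟩ :=
    exists_eigen_version 𝒜 ν hle S hS hinv h hh C hC0 hC ζ hζ
  have g6 : ∀ᵐ ω ∂ν, g ω = 0 := hN ζ h1 h2 g g1 ⟨C, ae_of_all _ g2⟩ g4
  have g7 := g5 (A.indicator (fun _ => (1 : ℂ))) (@xs_ind Ω 𝒜 A hA)
    ⟨1, ae_of_all _ fun ω => by
      by_cases hω : ω ∈ A
      · rw [Set.indicator_of_mem hω, norm_one]
      · rw [Set.indicator_of_notMem hω, norm_zero]
        exact zero_le_one⟩
  have g8 : ∫ ω, A.indicator (fun _ => (1 : ℂ)) ω * g ω ∂ν = 0 := by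
    have e : (fun ω => A.indicator (fun _ => (1 : ℂ)) ω * g ω) =ᵐ[ν] fun _ => (0 : ℂ) := by
      filter_upwards [g6] with ω hω
      rw [hω, mul_zero]
    rw [integral_congr_ae e, integral_zero]
  rw [g8] at g7
  rw [← integral_indicator (hle A hA), ← g7]
  congr 1
  funext ω
  by_cases hω : ω ∈ A
  · rw [Set.indicator_of_mem hω, Set.indicator_of_mem hω, one_mul]
  · rw [Set.indicator_of_notMem hω, Set.indicator_of_notMem hω, zero_mul]

/-- Proof. Let `h` be measurable for `⨆ i, 𝒜 i`, `‖h‖ ≤ C` a.e. (`0 ≤ C`), `h ∘ S = ζ h` a.e. For every `i`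
let `g` be from `exists_eigen_version` for `𝒜 i`; `NoRoot (𝒜 i)` gives `g = 0` a.e., so
`∫ f h dν = 0` for every bounded `𝒜 i`-measurable `f`; with indicator functions `∫_A h dν = 0` for
`A` in `𝒜 i`. The sets lying in some `𝒜 i` form a π-system (directedness) generating `⨆ i, 𝒜 i`
(`MeasurableSpace.measurableSpace_iSup_eq`, or `isPiSystem_iUnion_of_directed_le`,
`generateFrom_iUnion_measurableSet`), and the measurable sets `A` of `⨆ i, 𝒜 i` with `∫_A h dν = 0` form a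
λ-system containing it (`MeasurableSpace.induction_on_inter`; complements: `∫ h = 0`, the case
`A = univ`; disjoint unions: `integral_iUnion` or `hasSum_integral_iUnion`). Hence `∫_A h dν = 0` for all
`A` in `⨆ i, 𝒜 i` and `h = 0` a.e. since `h` is measurable for `⨆ i, 𝒜 i`
(`ae_eq_zero_of_forall_setIntegral_eq_of_finStronglyMeasurable_trim`, or
`ae_eq_of_forall_setIntegral_eq_of_sigmaFinite'` with `hm : ⨆ i, 𝒜 i ≤ mΩ`, or
`ae_eq_condExp_of_forall_setIntegral_eq` twice). -/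
theorem NoRoot.iSup {Ω ι : Type*} [Nonempty ι] (𝒜 : ι → MeasurableSpace Ω)
    [mΩ : MeasurableSpace Ω] (ν : Measure Ω) [IsProbabilityMeasure ν] (S : Ω ≃ᵐ Ω)
    (hS : MeasurePreserving S ν ν) (q : ℕ) (hdir : Directed (· ≤ ·) 𝒜) (hle : ∀ i, 𝒜 i ≤ mΩ)
    (hinv : ∀ i, (𝒜 i).comap S = 𝒜 i) (hN : ∀ i, NoRoot (𝒜 i) ν S q) :
    NoRoot (⨆ i, 𝒜 i) ν S q := by
  rintro ζ h1 h2 h hh ⟨C, hC⟩ hζ
  have hm : (⨆ i, 𝒜 i) ≤ mΩ := iSup_le hle
  have hhm : Measurable h := hh.mono hm le_rfl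
  have hC0 : (0 : ℝ) ≤ max C 0 := le_max_right _ _
  have hC' : ∀ᵐ ω ∂ν, ‖h ω‖ ≤ max C 0 := by
    filter_upwards [hC] with ω hω
    exact hω.trans (le_max_left _ _)
  have hint : Integrable h ν := Integrable.of_bound hhm.aestronglyMeasurable _ hC'
  have hb : ∀ i, ∀ A, MeasurableSet[𝒜 i] A → ∫ ω in A, h ω ∂ν = 0 := fun i A hA =>
    xs_basic (𝒜 i) ν S hS q (hle i) (hinv i) (hN i) ζ h1 h2 h hhm _ hC0 hC' hζ A hA
  have htot : ∫ ω, h ω ∂ν = 0 := by
    obtain ⟨i⟩ := ‹Nonempty ι›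
    have := hb i Set.univ (@MeasurableSet.univ Ω (𝒜 i))
    rwa [setIntegral_univ] at this
  have hpi : IsPiSystem (⋃ i, {t : Set Ω | MeasurableSet[𝒜 i] t}) := by
    refine isPiSystem_iUnion_of_directed_le _ (fun i => @xs_pi Ω (𝒜 i)) ?_
    intro i j
    obtain ⟨k, hk1, hk2⟩ := hdir i j
    exact ⟨k, fun t ht => hk1 t ht, fun t ht => hk2 t ht⟩
  have key : ∀ A, MeasurableSet[⨆ i, 𝒜 i] A → ∫ ω in A, h ω ∂ν = 0 := by
    intro A hA
    refine MeasurableSpace.induction_on_inter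
      (C := fun A _ => ∫ ω in A, h ω ∂ν = 0)
      (MeasurableSpace.generateFrom_iUnion_measurableSet 𝒜).symm hpi ?_ ?_ ?_ ?_ A hA
    · simp
    · intro t ht
      obtain ⟨i, hi⟩ := Set.mem_iUnion.1 ht
      exact hb i t hi
    · intro t ht h3
      have h4 := integral_add_compl (hm t ht) hint
      rw [h3, htot, zero_add] at h4
      exact h4
    · intro f hf hfm h3
      rw [integral_iUnion (fun i => hm _ (hfm i)) hf hint.integrableOn]
      simp [h3]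
  have h5 : (fun _ => (0 : ℂ)) =ᵐ[ν] ν[h|⨆ i, 𝒜 i] := by
    refine ae_eq_condExp_of_forall_setIntegral_eq hm hint (fun s _ _ => integrableOn_zero)
      (fun s hs _ => ?_) aestronglyMeasurable_const
    rw [key s hs, integral_zero]
  rw [condExp_of_stronglyMeasurable hm (@cv_sm Ω (⨆ i, 𝒜 i) h hh) hint] at h5
  filter_upwards [h5] with ω hω
  exact hω.symm

end Pool.Agent.Lib.H82T
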