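import Pool.Agent.Lib.H82T.T1
import Pool.Agent.Lib.H82T.XS
import Pool.Agent.Lib.H82T.XF

/-!
# Project H82T, chunk T2: towers have no root of unity eigenfunctions
-/

open MeasureTheory Filter Topology Finset
open scoped ENNReal ComplexConjugate

namespace Pool.Agent.Lib.H82T

open Pool.Agent.Lib.H22M

theorem t2_step {Y : Type*} (ℬ : MeasurableSpace Y) [mY : MeasurableSpace Y] {R : Y ≃ᵐ Y}
    {D : ℕ} (hle : ℬ ≤ mY) (hinv : ℬ.comap R = ℬ)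
    (ν : Measure (Y × Y)) [IsProbabilityMeasure ν] (hν : MeasurePreserving (Prod.map R R) ν ν)
    (q : ℕ) (hq : q.Prime) (hD : D ^ 2 < q) (hN : NoRoot (DD ℬ ν R) ν (Prod.map R R) q)
    (d : ℕ) (hd : d ≤ D) (θ : Y → Fin d) (hθ : Measurable[mY, ⊤] θ) :
    NoRoot (DD (ℬ ⊔ MeasurableSpace.comap θ ⊤) ν R) ν (Prod.map R R) q := by
  have hS : MeasurePreserving (sqE R) ν ν := hν
  rw [DD_step]
  have h1 : Fintype.card (Fin d × Fin d) < q := by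
    rw [Fintype.card_prod, Fintype.card_fin]
    calc d * d ≤ D * D := Nat.mul_le_mul hd hd
      _ = D ^ 2 := (sq D).symm
      _ < q := hD
  have h3 : (MeasurableSpace.comap (fun z : Y × Y => (θ z.1, θ z.2)) ⊤ :
      MeasurableSpace (Y × Y)) ≤ (inferInstance : MeasurableSpace (Y × Y)) := by
    rintro _ ⟨t, -, rfl⟩
    have h4 : (fun z : Y × Y => (θ z.1, θ z.2)) ⁻¹' t =
        ⋃ c ∈ t, ({z : Y × Y | θ z.1 = c.1} ∩ {z : Y × Y | θ z.2 = c.2}) := by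
      ext z
      simp only [Set.mem_preimage, Set.mem_iUnion, Set.mem_inter_iff, Set.mem_ofPred_eq,
        exists_prop]
      constructor
      · intro h
        exact ⟨_, h, rfl, rfl⟩
      · rintro ⟨c, hc, h5, h6⟩
        rw [h5, h6]
        exact hc
    rw [h4]
    refine Set.Finite.measurableSet_biUnion (Set.toFinite t) fun c _ => ?_
    refine MeasurableSet.inter ?_ ?_
    · exact measurable_fst (hθ (show MeasurableSet[⊤] ({c.1} : Set (Fin d)) from trivial))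
    · exact measurable_snd (hθ (show MeasurableSet[⊤] ({c.2} : Set (Fin d)) from trivial))
  exact NoRoot.step (DD ℬ ν R) ν (sqE R) hS q hq (DD_le ℬ ν R hle)
    (DD_comap ℬ ν R hν hinv) le_sup_right hN
    (fun z : Y × Y => (θ z.1, θ z.2)) (fun t ht => h3 _ ⟨t, ht, rfl⟩) h1

theorem t2_sup {Y : Type*} (𝒮 : Set (MeasurableSpace Y)) [mY : MeasurableSpace Y] {R : Y ≃ᵐ Y}
    (hne : 𝒮.Nonempty) (hdir : DirectedOn (· ≤ ·) 𝒮)
    (hle : ∀ ℬ ∈ 𝒮, ℬ ≤ mY) (hinv : ∀ ℬ ∈ 𝒮, ℬ.comap R = ℬ)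
    (ν : Measure (Y × Y)) [IsProbabilityMeasure ν] (hν : MeasurePreserving (Prod.map R R) ν ν)
    (q : ℕ) (hN : ∀ ℬ ∈ 𝒮, NoRoot (DD ℬ ν R) ν (Prod.map R R) q) :
    NoRoot (DD (sSup 𝒮) ν R) ν (Prod.map R R) q := by
  have hS : MeasurePreserving (sqE R) ν ν := hν
  rw [DD_sSup 𝒮 hne]
  have hn : Nonempty 𝒮 := hne.to_subtype
  refine NoRoot.iSup (fun ℬ : 𝒮 => DD (ℬ : MeasurableSpace Y) ν R) ν (sqE R) hS q ?_ ?_ ?_ ?_
  · intro a b
    have h3 : ∃ c : 𝒮, (a : MeasurableSpace Y) ≤ c ∧ (b : MeasurableSpace Y) ≤ c := by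
      obtain ⟨c, hc, h1, h2⟩ := hdir a a.2 b b.2
      exact ⟨⟨c, hc⟩, h1, h2⟩
    exact ⟨h3.choose, DD_mono a _ ν R h3.choose_spec.1, DD_mono b _ ν R h3.choose_spec.2⟩
  · exact fun ℬ => DD_le ℬ ν R (hle ℬ ℬ.2)
  · exact fun ℬ => DD_comap ℬ ν R hν (hinv ℬ ℬ.2)
  · exact fun ℬ => hN ℬ ℬ.2

/-- Proof. Induction on `Tow` (with `Tow.le`, `Tow.comap_eq` for the levels). Step: `DD_step`, then
`NoRoot.step` for `Ω = Y × Y`, `S = sqE R` (whose underlying function is `Prod.map R R`),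
`ϑ z = (θ z.1, θ z.2)` with values in `Fin d × Fin d`, of cardinality `d^2 ≤ D^2 < q`; `aeInv ≤ DD` is
`le_sup_right`, invariance is `DD_comap`. Supremum: `DD_sSup` and `NoRoot.iSup` for the family indexed by
`𝒮`, directed by `DD_mono`. -/
theorem Tow.noRoot {Y : Type*} {ℬ₀ ℬ : MeasurableSpace Y} [mY : MeasurableSpace Y] {R : Y ≃ᵐ Y}
    {D : ℕ} (h : Tow mY R D ℬ₀ ℬ) (h₀ : ℬ₀ ≤ mY) (hinv : ℬ₀.comap R = ℬ₀)
    (ν : Measure (Y × Y)) [IsProbabilityMeasure ν] (hν : MeasurePreserving (Prod.map R R) ν ν)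
    (q : ℕ) (hq : q.Prime) (hD : D ^ 2 < q) (hN : NoRoot (DD ℬ₀ ν R) ν (Prod.map R R) q) :
    NoRoot (DD ℬ ν R) ν (Prod.map R R) q := by
  induction h with
  | base => exact hN
  | step ℬ hT d hd θ hθ Φ hΦ hR ih =>
    exact @t2_step Y ℬ mY R D (hT.le h₀) (hT.comap_eq hinv) ν _ hν q hq hD ih d hd θ hθ
  | sup 𝒮 hne hdir hT ih =>
    exact t2_sup 𝒮 hne hdir (fun ℬ hℬ => (hT ℬ hℬ).le h₀) (fun ℬ hℬ => (hT ℬ hℬ).comap_eq hinv)
      ν hν q ih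

end Pool.Agent.Lib.H82T
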