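import Pool.Agent.Lib.H82T.Defs
import Pool.Agent.Lib.H22M.NL

/-!
# Project H82T, chunk AP2: approximation of functions
-/

open MeasureTheory Filter Topology Finset
open scoped ENNReal ComplexConjugate

namespace Pool.Agent.Lib.H82T

open Pool.Agent.Lib.H22M

theorem ap2_term {Y : Type*} (A B : Set Y) (c : ℂ) (y : Y) :
    ‖A.indicator (fun _ => c) y - B.indicator (fun _ => c) y‖ ≤
      ‖c‖ * (symmDiff A B).indicator (fun _ => (1 : ℝ)) y := by
  by_cases hA : y ∈ A <;> by_cases hB : y ∈ B <;>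
    simp [Set.indicator, Set.mem_symmDiff, hA, hB]

theorem ap2_net {Y : Type*} (f : Y → ℂ) {C : ℝ} (hC : ∀ y, ‖f y‖ ≤ C) {r : ℝ} (hr : 0 < r) :
    ∃ (K : ℕ) (c : Fin K → ℂ), ∀ y, ∃ k, f y ∈ Metric.ball (c k) r := by
  have htb : TotallyBounded (Metric.closedBall (0 : ℂ) C) := (isCompact_closedBall _ _).totallyBounded
  obtain ⟨t, ht, htc⟩ := Metric.totallyBounded_iff.mp htb r hr
  refine ⟨ht.toFinset.card, fun k => (ht.toFinset.equivFin.symm k : ℂ), fun y => ?_⟩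
  have h0 : f y ∈ Metric.closedBall (0 : ℂ) C := by
    rw [Metric.mem_closedBall, dist_zero_right]
    exact hC y
  have h1 := htc h0
  simp only [Set.mem_iUnion] at h1
  obtain ⟨z, hz, hzy⟩ := h1
  refine ⟨ht.toFinset.equivFin ⟨z, ht.mem_toFinset.mpr hz⟩, ?_⟩
  simpa using hzy

/-- The pieces of the partition. -/
def ap2S {K : ℕ} (c : Fin K → ℂ) (r : ℝ) (k : Fin K) : Set ℂ :=
  Metric.ball (c k) r \ ⋃ l, ⋃ (_ : l < k), Metric.ball (c l) r

theorem ap2S_meas {K : ℕ} (c : Fin K → ℂ) (r : ℝ) (k : Fin K) : MeasurableSet (ap2S c r k) :=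
  Metric.isOpen_ball.measurableSet.diff
    (MeasurableSet.iUnion fun _ => MeasurableSet.iUnion fun _ => Metric.isOpen_ball.measurableSet)

theorem ap2_first {K : ℕ} (c : Fin K → ℂ) (r : ℝ) (z : ℂ) (h : ∃ k, z ∈ Metric.ball (c k) r) :
    ∃ k, z ∈ ap2S c r k ∧ ∀ l, l ≠ k → z ∉ ap2S c r l := by
  obtain ⟨k, hk, hmin⟩ := WellFounded.has_min (wellFounded_lt (α := Fin K))
    {k | z ∈ Metric.ball (c k) r} h
  refine ⟨k, ⟨hk, ?_⟩, fun l hl hz => ?_⟩
  · intro h1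
    simp only [Set.mem_iUnion] at h1
    obtain ⟨l, hl, h2⟩ := h1
    exact hmin l h2 hl
  · rcases lt_or_gt_of_ne hl with h1 | h1
    · exact hmin l hz.1 h1
    · refine hz.2 ?_
      simp only [Set.mem_iUnion]
      exact ⟨k, h1, hk⟩

/-- Proof. First a simple function: `f` is bounded by `C`; round real and imaginary part to multiples of a
small `η`: `f₁ = ∑_{k < K} c_k 1_{A_k}` with `ℬ`-measurable disjoint `A_k`, `‖f - f₁‖ ≤ δ/2` everywhere
(or use `SimpleFunc.approxOn`-type lemmas, or `MemLp.exists_simpleFunc_eLpNorm_sub_le`-like results for `ℬ`). Let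
`B_k` be tower sets with `m (A_k ∆ B_k) < ε'`, for a common index `j` (by `hdir`-like hypothesis `h`, which
handles finitely many sets at once), and `f' = ∑_k c_k 1_{B_k}`: `l2 m (f₁ - f') ≤
∑_k ‖c_k‖ (m (A_k ∆ B_k))^{1/2} ≤ δ/2` for `ε'` small. `f'` is bounded by `∑ ‖c_k‖`. -/
theorem exists_approx_fun {Y J : Type*} (𝒞 : J → MeasurableSpace Y) (ℬ : MeasurableSpace Y)
    [mY : MeasurableSpace Y] (m : Measure Y) [IsProbabilityMeasure m] (hle : ∀ j, 𝒞 j ≤ mY)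
    (hℬ : ℬ ≤ mY)
    (h : ∀ (K : ℕ) (A : Fin K → Set Y), (∀ k, MeasurableSet[ℬ] (A k)) → ∀ ε : ℝ, 0 < ε →
      ∃ j, ∃ B : Fin K → Set Y, (∀ k, MeasurableSet[𝒞 j] (B k)) ∧
        ∀ k, (m (symmDiff (A k) (B k))).toReal < ε)
    (f : Y → ℂ) (hf : Measurable[ℬ] f) (hb : ∃ C : ℝ, ∀ y, ‖f y‖ ≤ C) (δ : ℝ) (hδ : 0 < δ) :
    ∃ j, ∃ f' : Y → ℂ, Measurable[𝒞 j] f' ∧ (∃ C : ℝ, ∀ y, ‖f' y‖ ≤ C) ∧
      l2 m (fun y => f y - f' y) ≤ δ := by
  obtain ⟨C, hC⟩ := hb
  obtain ⟨K, c, hc⟩ := ap2_net f hC (half_pos hδ)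
  obtain ⟨A, hA⟩ : ∃ A : Fin K → Set Y, A = fun k => f ⁻¹' ap2S c (δ / 2) k := ⟨_, rfl⟩
  have hAm : ∀ k, MeasurableSet[ℬ] (A k) := by
    intro k
    rw [hA]
    exact hf (ap2S_meas c _ k)
  obtain ⟨T, hT⟩ : ∃ T : ℝ, T = ∑ k, ‖c k‖ := ⟨_, rfl⟩
  have hT0 : 0 ≤ T := by
    rw [hT]
    exact Finset.sum_nonneg fun k _ => norm_nonneg _
  have hε : 0 < (δ / 2) ^ 2 / (T ^ 2 + 1) := by positivity
  obtain ⟨j, B, hB, hAB⟩ := h K A hAm _ hε
  have hAY : ∀ k, MeasurableSet (A k) := fun k => hℬ _ (hAm k)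
  have hBY : ∀ k, MeasurableSet (B k) := fun k => hle j _ (hB k)
  obtain ⟨f₁, hf₁⟩ : ∃ f₁ : Y → ℂ, f₁ = fun y => ∑ k, (A k).indicator (fun _ => c k) y := ⟨_, rfl⟩
  obtain ⟨f', hf'⟩ : ∃ f' : Y → ℂ, f' = fun y => ∑ k, (B k).indicator (fun _ => c k) y := ⟨_, rfl⟩
  have hb' : ∀ (D : Fin K → Set Y) (y : Y), ‖∑ k, (D k).indicator (fun _ => c k) y‖ ≤ T := by
    intro D y
    rw [hT]
    refine (norm_sum_le _ _).trans (Finset.sum_le_sum fun k _ => ?_)
    exact norm_indicator_le_norm_self (fun _ => c k) y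
  have hm₁ : Measurable f₁ := by
    rw [hf₁]
    exact Finset.measurable_fun_sum _ fun k _ => measurable_const.indicator (hAY k)
  have hm' : Measurable[𝒞 j] f' := by
    rw [hf']
    exact @Finset.measurable_fun_sum _ _ _ _ _ _ (𝒞 j) _ _ fun k _ =>
      (@measurable_const _ _ _ (𝒞 j) (c k)).indicator (hB k)
  have hfY : Measurable f := hf.mono hℬ le_rfl
  have hmY' : Measurable f' := hm'.mono (hle j) le_rfl
  have hclose : ∀ y, ‖f y - f₁ y‖ ≤ δ / 2 := by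
    intro y
    obtain ⟨k, hk, hl⟩ := ap2_first c (δ / 2) (f y) (hc y)
    have h1 : f₁ y = c k := by
      rw [hf₁]
      show ∑ l, (A l).indicator (fun _ => c l) y = c k
      rw [Finset.sum_eq_single k]
      · exact Set.indicator_of_mem (by rw [hA]; exact hk) _
      · intro l _ hlk
        exact Set.indicator_of_notMem (by rw [hA]; exact hl l hlk) _
      · intro h2
        exact absurd (Finset.mem_univ k) h2
    rw [h1, ← dist_eq_norm]
    exact (Metric.mem_ball.mp hk.1).le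
  refine ⟨j, f', hm', ⟨T, fun y => by rw [hf']; exact hb' B y⟩, ?_⟩
  have e1 : l2 m (fun y => f y - f₁ y) ≤ δ / 2 :=
    l2_le_of_bound _ (half_pos hδ).le (Filter.Eventually.of_forall hclose)
  have e2 : l2 m (fun y => f₁ y - f' y) ≤ δ / 2 := by
    unfold l2
    rw [Real.sqrt_le_left (half_pos hδ).le]
    have h1 : ∀ y, ‖f₁ y - f' y‖ ≤
        ∑ k, ‖c k‖ * (symmDiff (A k) (B k)).indicator (fun _ => (1 : ℝ)) y := by
      intro y
      rw [hf₁, hf']
      show ‖(∑ k, (A k).indicator (fun _ => c k) y) - ∑ k, (B k).indicator (fun _ => c k) y‖ ≤ _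
      rw [← Finset.sum_sub_distrib]
      exact (norm_sum_le _ _).trans (Finset.sum_le_sum fun k _ => ap2_term _ _ _ _)
    have h2 : ∀ y, ∑ k, ‖c k‖ * (symmDiff (A k) (B k)).indicator (fun _ => (1 : ℝ)) y ≤ T := by
      intro y
      rw [hT]
      refine Finset.sum_le_sum fun k _ => ?_
      refine mul_le_of_le_one_right (norm_nonneg _) ?_
      exact Set.indicator_le_self' (fun _ _ => zero_le_one) y
    have h3 : ∀ y, ‖f₁ y - f' y‖ ^ 2 ≤
        T * ∑ k, ‖c k‖ * (symmDiff (A k) (B k)).indicator (fun _ => (1 : ℝ)) y := by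
      intro y
      rw [sq]
      exact mul_le_mul ((h1 y).trans (h2 y)) (h1 y) (norm_nonneg _) hT0
    have hsm : ∀ k, MeasurableSet (symmDiff (A k) (B k)) := fun k => (hAY k).symmDiff (hBY k)
    have hi : ∀ k, Integrable ((symmDiff (A k) (B k)).indicator (fun _ => (1 : ℝ))) m := fun k =>
      (integrable_const (1 : ℝ)).indicator (hsm k)
    have h4 : ∫ y, ‖f₁ y - f' y‖ ^ 2 ∂m ≤
        ∫ y, T * ∑ k, ‖c k‖ * (symmDiff (A k) (B k)).indicator (fun _ => (1 : ℝ)) y ∂m := by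
      refine integral_mono_of_nonneg (Filter.Eventually.of_forall fun y => by positivity) ?_
        (Filter.Eventually.of_forall h3)
      exact (integrable_finsetSum _ fun k _ => (hi k).const_mul _).const_mul _
    have h5 : ∫ y, T * ∑ k, ‖c k‖ * (symmDiff (A k) (B k)).indicator (fun _ => (1 : ℝ)) y ∂m =
        T * ∑ k, ‖c k‖ * (m (symmDiff (A k) (B k))).toReal := by
      rw [integral_const_mul, integral_finsetSum _ fun k _ => (hi k).const_mul _]
      congr 1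
      refine Finset.sum_congr rfl fun k _ => ?_
      have h8 : ∫ y, (symmDiff (A k) (B k)).indicator (fun _ => (1 : ℝ)) y ∂m =
          (m (symmDiff (A k) (B k))).toReal := integral_indicator_one (hsm k)
      rw [integral_const_mul, h8]
    have h6 : ∑ k, ‖c k‖ * (m (symmDiff (A k) (B k))).toReal ≤ T * ((δ / 2) ^ 2 / (T ^ 2 + 1)) := by
      have h7 : T * ((δ / 2) ^ 2 / (T ^ 2 + 1)) = ∑ k, ‖c k‖ * ((δ / 2) ^ 2 / (T ^ 2 + 1)) := by
        rw [← Finset.sum_mul, ← hT]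
      rw [h7]
      exact Finset.sum_le_sum fun k _ => mul_le_mul_of_nonneg_left (hAB k).le (norm_nonneg _)
    calc ∫ y, ‖f₁ y - f' y‖ ^ 2 ∂m ≤ T * ∑ k, ‖c k‖ * (m (symmDiff (A k) (B k))).toReal := h4.trans_eq h5
      _ ≤ T * (T * ((δ / 2) ^ 2 / (T ^ 2 + 1))) := mul_le_mul_of_nonneg_left h6 hT0
      _ = (δ / 2) ^ 2 * (T ^ 2 / (T ^ 2 + 1)) := by ring
      _ ≤ (δ / 2) ^ 2 * 1 := by
          refine mul_le_mul_of_nonneg_left ?_ (sq_nonneg _)
          rw [div_le_one (by positivity)]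
          linarith
      _ = (δ / 2) ^ 2 := mul_one _
  have b1 : BM (fun y => f y - f₁ y) := by
    refine ⟨hfY.sub hm₁, C + T, fun y => (norm_sub_le _ _).trans (add_le_add (hC y) ?_)⟩
    rw [hf₁]
    exact hb' A y
  have b2 : BM (fun y => f₁ y - f' y) := by
    refine ⟨hm₁.sub hmY', T + T, fun y => (norm_sub_le _ _).trans (add_le_add ?_ ?_)⟩
    · rw [hf₁]
      exact hb' A y
    · rw [hf']
      exact hb' B y
  have e3 := l2_add_le (m := m) b1 b2
  have e4 : (fun y => f y - f₁ y + (f₁ y - f' y)) = fun y => f y - f' y := by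
    funext y
    ring
  rw [e4] at e3
  linarith

end Pool.Agent.Lib.H82T
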