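import Pool.Agent.Lib.H82T.S2
import Pool.Agent.Lib.H82T.RP

/-!
# Project H82T, chunk S3: finite extensions
-/

open MeasureTheory Filter Topology Finset
open scoped ENNReal ComplexConjugate

namespace Pool.Agent.Lib.H82T

open Pool.Agent.Lib.H22M

theorem s3_psi {Y : Type*} [MeasurableSpace Y] {R : Y → Y} (hR : Measurable R) {d : ℕ}
    {Φ : Y → Equiv.Perm (Fin d)} (hΦ : ∀ s, MeasurableSet {y | Φ y = s})
    {Ψ : ℕ → Y → Equiv.Perm (Fin d)} (h0 : ∀ y, Ψ 0 y = 1)
    (hs : ∀ n y, Ψ (n + 1) y = Φ (R^[n] y) * Ψ n y) (n : ℕ) :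
    ∀ s, MeasurableSet {y | Ψ n y = s} := by
  induction n with
  | zero =>
    intro s
    have e : {y : Y | Ψ 0 y = s} = {_y : Y | (1 : Equiv.Perm (Fin d)) = s} := by
      ext y
      simp only [Set.mem_setOf_eq, h0]
    rw [e]
    exact MeasurableSet.const _
  | succ n ih =>
    intro s
    have e : {y : Y | Ψ (n + 1) y = s}
        = ⋃ b : Equiv.Perm (Fin d), (R^[n] ⁻¹' {y | Φ y = s * b⁻¹}) ∩ {y | Ψ n y = b} := by
      ext y
      simp only [Set.mem_setOf_eq, Set.mem_iUnion, Set.mem_inter_iff, Set.mem_preimage, hs]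
      constructor
      · intro h
        exact ⟨Ψ n y, by rw [← h, mul_inv_cancel_right], rfl⟩
      · rintro ⟨b, h1, h2⟩
        rw [h1, h2, inv_mul_cancel_right]
    rw [e]
    exact MeasurableSet.iUnion fun b => ((hR.iterate n) (hΦ _)).inter (ih b)

theorem s3_G {Y : Type*} [MeasurableSpace Y] {T : Y → Y} (hT : Measurable T) {d : ℕ}
    {P : Y → Equiv.Perm (Fin d)} (hP : ∀ s, MeasurableSet {y | P y = s})
    {H : Fin d → Y → ℂ} (hH : ∀ x, Measurable (H x)) (x : Fin d) :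
    Measurable fun y => H (P y x) (T y) := by
  classical
  have e : (fun y => H (P y x) (T y))
      = fun y => ∑ b : Equiv.Perm (Fin d), if P y = b then H (b x) (T y) else 0 := by
    funext y
    rw [Finset.sum_ite_eq Finset.univ (P y) (fun b => H (b x) (T y))]
    simp
  rw [e]
  refine Finset.measurable_sum _ fun b _ => ?_
  exact Measurable.ite (hP b) ((hH (b x)).comp hT) measurable_const

theorem s3_cut {Y : Type*} [MeasurableSpace Y] {H : Y → ℂ} (hH : Measurable H) (C : ℝ) :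
    Measurable fun y => if ‖H y‖ ≤ C then H y else 0 := by
  exact Measurable.ite (measurableSet_le hH.norm measurable_const) hH measurable_const

theorem s3_mul {Y : Type*} [MeasurableSpace Y] {H K : Y → ℂ} (hH : Measurable H) (hK : Measurable K) :
    Measurable fun y => H y * conj (K y) := by
  exact hH.mul (Complex.continuous_conj.measurable.comp hK)

/-- Proof. Let `‖f‖ ≤ C` (`C ≥ 0`). By `exists_rep` there are `ℬ`-measurable `H x`, `x` in `Fin d`, with
`f y = H (θ y) y`; replace `H x y` by `0` where `‖H x y‖ > C` (this does not change `H (θ y) y`), so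
`‖H x‖ ≤ C`. Let `Ψ n : Y → Equiv.Perm (Fin d)` be defined by `Ψ 0 = 1`,
`Ψ (n+1) y = Φ (R^[n] y) * Ψ n y`: then `θ (R^[n] y) = Ψ n y (θ y)`, and `{Ψ n = s}` is in `ℬ` (as `R` is
measurable from `ℬ` to `ℬ`, by `hinv`; finitely many pairs of permutations). So
`f (R^[n] y) = H (θ (R^[n] y)) (R^[n] y) = ∑_x 1[θ y = x] G n x y` with
`G n x y = H (Ψ n y x) (R^[n] y)`, `ℬ`-measurable, bounded by `C`. The products
`G n x * conj (G j x)` are `ℬ`-measurable and bounded, so small by hypothesis. Apply `small_of_module` with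
`ι = Fin d` and `χ x` the indicator function of `{θ = x}`. -/
theorem small_step {Y : Type*} (ℬ : MeasurableSpace Y) [mY : MeasurableSpace Y] {m : Measure Y}
    [IsProbabilityMeasure m] {R : Y → Y} (hR : Ergodic R m) (hle : ℬ ≤ mY)
    (hinv : ℬ.comap R = ℬ)
    (hS : ∀ f : Y → ℂ, Measurable[ℬ] f → (∃ C : ℝ, ∀ y, ‖f y‖ ≤ C) → Small m R f)
    (d : ℕ) (θ : Y → Fin d) (hθ : Measurable[mY, ⊤] θ) (Φ : Y → Equiv.Perm (Fin d))
    (hΦ : ∀ s, MeasurableSet[ℬ] {y | Φ y = s}) (hθR : ∀ y, θ (R y) = Φ y (θ y))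
    (f : Y → ℂ) (hf : Measurable[ℬ ⊔ MeasurableSpace.comap θ ⊤] f)
    (hb : ∃ C : ℝ, ∀ y, ‖f y‖ ≤ C) : Small m R f := by
  classical
  obtain ⟨H0, hH0, hfH⟩ := exists_rep ℬ θ f hf
  obtain ⟨C, hC⟩ := hb
  have hRB : Measurable[ℬ, ℬ] R := measurable_iff_comap_le.mpr hinv.le
  let H : Fin d → Y → ℂ := fun x y => if ‖H0 x y‖ ≤ |C| then H0 x y else 0
  have hHm : ∀ x, Measurable[ℬ] (H x) := fun x => @s3_cut Y ℬ (H0 x) (hH0 x) |C|
  have hHb : ∀ x y, ‖H x y‖ ≤ |C| := by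
    intro x y
    show ‖(if ‖H0 x y‖ ≤ |C| then H0 x y else 0 : ℂ)‖ ≤ |C|
    split_ifs with h
    · exact h
    · rw [norm_zero]
      exact abs_nonneg C
  have hfH' : ∀ y, f y = H (θ y) y := by
    intro y
    show f y = (if ‖H0 (θ y) y‖ ≤ |C| then H0 (θ y) y else 0 : ℂ)
    rw [← hfH y, if_pos ((hC y).trans (le_abs_self C))]
  let Ψ : ℕ → Y → Equiv.Perm (Fin d) := fun n =>
    Nat.rec (fun _ => 1) (fun n P y => Φ (R^[n] y) * P y) n
  have hΨ0 : ∀ y, Ψ 0 y = 1 := fun y => rfl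
  have hΨs : ∀ n y, Ψ (n + 1) y = Φ (R^[n] y) * Ψ n y := fun n y => rfl
  have hΨm : ∀ n s, MeasurableSet[ℬ] {y | Ψ n y = s} := fun n =>
    @s3_psi Y ℬ R hRB d Φ hΦ Ψ hΨ0 hΨs n
  have hθn : ∀ n y, θ (R^[n] y) = Ψ n y (θ y) := by
    intro n
    induction n with
    | zero =>
      intro y
      rfl
    | succ n ih =>
      intro y
      rw [Function.iterate_succ_apply', hθR, ih, hΨs]
      rfl
  let G : ℕ → Fin d → Y → ℂ := fun n x y => H (Ψ n y x) (R^[n] y)
  have hRn : ∀ n, Measurable[ℬ, ℬ] (R^[n]) := fun n => @Measurable.iterate Y ℬ R hRB n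
  have hGm : ∀ n x, Measurable[ℬ] (G n x) := fun n x =>
    @s3_G Y ℬ (R^[n]) (hRn n) d (Ψ n) (hΨm n) H hHm x
  have hGb : ∀ n x y, ‖G n x y‖ ≤ |C| := fun n x y => hHb _ _
  have hfm : Measurable f := hf.mono (sup_le hle (measurable_iff_comap_le.mp hθ)) le_rfl
  refine small_of_module hR f ⟨hfm, C, hC⟩ (fun x y => if θ y = x then 1 else 0) ?_ ?_ G ?_ |C| hGb ?_ ?_
  · intro x
    have h1 : MeasurableSet {y | θ y = x} := hθ (t := {x}) trivial
    exact Measurable.ite h1 measurable_const measurable_const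
  · intro x y
    show ‖(if θ y = x then 1 else 0 : ℂ)‖ ≤ 1
    split_ifs <;> simp
  · intro n x
    exact (hGm n x).mono hle le_rfl
  · intro n y
    have h1 : f (R^[n] y) = G n (θ y) y := by
      rw [hfH', hθn]
    rw [h1]
    simp only [ite_mul, one_mul, zero_mul]
    rw [Finset.sum_ite_eq Finset.univ (θ y) (fun x => G n x y)]
    simp
  · intro n j x
    refine hS _ (@s3_mul Y ℬ (G n x) (G j x) (hGm n x) (hGm j x)) ⟨|C| * |C|, fun y => ?_⟩
    rw [norm_mul, Complex.norm_conj]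
    exact mul_le_mul (hGb n x y) (hGb j x y) (norm_nonneg _) (abs_nonneg C)

end Pool.Agent.Lib.H82T
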