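import Pool.Agent.Lib.H82T.T1
import Pool.Agent.Lib.H82T.S3
import Pool.Agent.Lib.H82T.AP
import Pool.Agent.Lib.H82T.AP2

/-!
# Project H82T, chunk T3: the functions of a tower are small
-/

open MeasureTheory Filter Topology Finset
open scoped ENNReal ComplexConjugate

namespace Pool.Agent.Lib.H82T

open Pool.Agent.Lib.H22M

/-- Finitely many sets at once. Proof. `exists_approx_set` for the family of the members of `𝒮` gives
`ℬ k` in `𝒮` and `B k`; a common upper bound in `𝒮` (directedness, induction on `K`; `𝒮` is nonempty)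
contains all `B k`. -/
theorem exists_approx_sets {Y : Type*} (𝒮 : Set (MeasurableSpace Y)) (hne : 𝒮.Nonempty)
    (hdir : DirectedOn (· ≤ ·) 𝒮) [mY : MeasurableSpace Y] (m : Measure Y)
    [IsProbabilityMeasure m] (hle : ∀ ℬ ∈ 𝒮, ℬ ≤ mY) (K : ℕ) (A : Fin K → Set Y)
    (hA : ∀ k, MeasurableSet[sSup 𝒮] (A k)) (ε : ℝ) (hε : 0 < ε) :
    ∃ j : 𝒮, ∃ B : Fin K → Set Y, (∀ k, MeasurableSet[(j : MeasurableSpace Y)] (B k)) ∧
      ∀ k, (m (symmDiff (A k) (B k))).toReal < ε := by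
  have hn : Nonempty 𝒮 := hne.to_subtype
  have hd : Directed (· ≤ ·) (fun i : 𝒮 => (i : MeasurableSpace Y)) :=
    directedOn_iff_directed.1 hdir
  have h1 : ∀ k, ∃ i : 𝒮, ∃ B : Set Y, MeasurableSet[(i : MeasurableSpace Y)] B ∧
      (m (symmDiff (A k) B)).toReal < ε := by
    intro k
    have h2 : MeasurableSet[⨆ i : 𝒮, (i : MeasurableSpace Y)] (A k) := by
      rw [← sSup_eq_iSup']
      exact hA k
    exact exists_approx_set (fun i : 𝒮 => (i : MeasurableSpace Y)) m hd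
      (fun i => hle i i.2) (A k) h2 ε hε
  choose i B hB hm using h1
  obtain ⟨j, hj⟩ := hd.finite_le i
  exact ⟨j, B, fun k => hj k _ (hB k), hm⟩

/-- Proof. Induction on `Tow` (with `Tow.le`, `Tow.comap_eq`). Step: `small_step`. Supremum: for `f`
measurable for `sSup 𝒮`, bounded, and `δ > 0`, `exists_approx_fun` (`J = 𝒮`, `ℬ = sSup 𝒮`, hypothesis `h` is
`exists_approx_sets`) gives `f'`, small by the induction hypothesis, with `l2 m (f - f') ≤ δ`: apply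
`small_of_approx`. -/
theorem Tow.small {Y : Type*} {ℬ₀ ℬ : MeasurableSpace Y} [mY : MeasurableSpace Y]
    {m : Measure Y} [IsProbabilityMeasure m] {R : Y → Y} (hR : Ergodic R m) {D : ℕ}
    (h : Tow mY R D ℬ₀ ℬ) (h₀ : ℬ₀ ≤ mY) (hinv : ℬ₀.comap R = ℬ₀)
    (hS : ∀ f : Y → ℂ, Measurable[ℬ₀] f → (∃ C : ℝ, ∀ y, ‖f y‖ ≤ C) → Small m R f)
    (f : Y → ℂ) (hf : Measurable[ℬ] f) (hb : ∃ C : ℝ, ∀ y, ‖f y‖ ≤ C) : Small m R f := by
  induction h generalizing f with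
  | base => exact hS f hf hb
  | step ℬ h d hd θ hθ Φ hΦ hθR ih =>
    exact @small_step Y ℬ mY m _ R hR (h.le h₀) (h.comap_eq hinv)
      (fun f' hf' hb' => ih f' hf' hb') d θ hθ Φ hΦ hθR f hf hb
  | sup 𝒮 hne hdir h ih =>
    have hle : ∀ ℬ ∈ 𝒮, ℬ ≤ mY := fun ℬ hℬ => (h ℬ hℬ).le h₀
    have hsup : sSup 𝒮 ≤ mY := sSup_le hle
    obtain ⟨C, hC⟩ := hb
    refine small_of_approx f (bm_mono hsup hf hC) fun δ hδ => ?_
    obtain ⟨j, f', hf', ⟨C', hC'⟩, hl⟩ := exists_approx_fun (J := 𝒮)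
      (fun j => (j : MeasurableSpace Y)) (sSup 𝒮) m (fun j => hle j j.2) hsup
      (fun K A hA ε hε => exists_approx_sets 𝒮 hne hdir m hle K A hA ε hε) f hf ⟨C, hC⟩ δ hδ
    exact ⟨f', bm_mono (hle j j.2) hf' hC', ih j j.2 f' hf' ⟨C', hC'⟩, hl⟩

end Pool.Agent.Lib.H82T
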