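import Pool.Agent.Lib.H82T.CR

/-!
# Project H82T, chunk CR2: the characters of a product
-/

open MeasureTheory Filter Topology Finset
open scoped ENNReal ComplexConjugate

namespace Pool.Agent.Lib.H82T

/-- Proof. `χ x = χ ((z,1),(1,1)) * χ ((1,u),(1,1)) * χ ((1,1),(z',1)) * χ ((1,1),(1,u'))` and
`circle_char` (the four restrictions are characters: compose `χ` with the continuous homomorphisms
`ContinuousMonoidHom.inl`, `inr`, as in `measure_ext_char_prod` of `H22M/FC.lean`). -/
theorem quad_char {Z : Type*} [CommGroup Z] [TopologicalSpace Z] [IsTopologicalGroup Z]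
    (χ : PontryaginDual ((Z × Circle) × (Z × Circle))) :
    ∃ (χ₁ χ₂ : PontryaginDual Z) (a b : ℤ), ∀ (z z' : Z) (u u' : Circle),
      χ ((z, u), (z', u')) = χ₁ z * u ^ a * (χ₂ z' * u' ^ b) := by
  let L : PontryaginDual (Z × Circle) :=
    ContinuousMonoidHom.comp χ (ContinuousMonoidHom.inl (Z × Circle) (Z × Circle))
  let R : PontryaginDual (Z × Circle) :=
    ContinuousMonoidHom.comp χ (ContinuousMonoidHom.inr (Z × Circle) (Z × Circle))
  let L1 : PontryaginDual Z := ContinuousMonoidHom.comp L (ContinuousMonoidHom.inl Z Circle)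
  let L2 : PontryaginDual Circle := ContinuousMonoidHom.comp L (ContinuousMonoidHom.inr Z Circle)
  let R1 : PontryaginDual Z := ContinuousMonoidHom.comp R (ContinuousMonoidHom.inl Z Circle)
  let R2 : PontryaginDual Circle := ContinuousMonoidHom.comp R (ContinuousMonoidHom.inr Z Circle)
  obtain ⟨a, ha⟩ := circle_char L2
  obtain ⟨b, hb⟩ := circle_char R2
  refine ⟨L1, R1, a, b, fun z z' u u' => ?_⟩
  have h1 : (((z, u), (z', u')) : (Z × Circle) × (Z × Circle)) =
      ((z, 1), (1, 1)) * ((1, u), (1, 1)) * (((1, 1), (z', 1)) * ((1, 1), (1, u'))) := by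
    ext <;> simp
  rw [← ha u, ← hb u', h1, map_mul, map_mul, map_mul]
  rfl

end Pool.Agent.Lib.H82T
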