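import Pool.Agent.Lib.H82T.Defs
import Pool.Agent.Lib.H22M.TG

/-!
# Project H82T, chunk FM: nonzero Fourier coefficients
-/

open MeasureTheory Filter Topology Finset
open scoped ENNReal ComplexConjugate

namespace Pool.Agent.Lib.H82T

open Pool.Agent.Lib.H22M

/-- Proof. Suppose `∫_A h χ(w) dν = 0` for all `χ` and all `A` in `ℐ`; show `h = 0` a.e. (this contradicts
`hne`). Fix `A` in `ℐ` (so `A` is measurable) and a Borel set `B` of `W`, `δ > 0`. By `tg_approx`
(`H22M/TG.lean`) for the probability measure `ν.map w` and the indicator function of `B` there is a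
trigonometric polynomial `P` with `∫ |1_B - P|^2 d(ν.map w) ≤ δ^2`, so
`|∫_A h 1_B(w) dν| = |∫_A h (1_B(w) - P(w)) dν| ≤ C δ` (Cauchy–Schwarz, `‖h‖ ≤ C` a.e.). So
`∫_{A ∩ w⁻¹ B} h dν = 0`. The sets `A ∩ w ⁻¹' B` form a π-system generating
`comap w ⊔ ℐ` (`MeasurableSpace.sup`-generation: `generateFrom` of the intersections;
`isPiSystem` by hand), and `∫_E h dν = 0` extends to all `E` in `comap w ⊔ ℐ` by
`MeasurableSpace.induction_on_inter` (complements: the case `E = univ`; disjoint unions:
`integral_iUnion`, `h` is integrable). As `h` is measurable for this σ-algebra, `h = 0` a.e.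
(`ae_eq_zero_of_forall_setIntegral_eq_of_finStronglyMeasurable_trim`, or uniqueness of the conditional
expectation `ae_eq_condExp_of_forall_setIntegral_eq` applied to `0` and to `h`). -/
theorem exists_char_ne_zero {Ω W : Type*} [CommGroup W] [TopologicalSpace W]
    [IsTopologicalGroup W] [CompactSpace W] [T2Space W] [SecondCountableTopology W]
    [MeasurableSpace W] [BorelSpace W] (ℐ : MeasurableSpace Ω) [mΩ : MeasurableSpace Ω]
    (ν : Measure Ω) [IsProbabilityMeasure ν] (hℐ : ℐ ≤ mΩ) (w : Ω → W) (hw : Measurable w)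
    (h : Ω → ℂ) (hh : Measurable[MeasurableSpace.comap w inferInstance ⊔ ℐ] h)
    (hb : ∃ C : ℝ, ∀ᵐ ω ∂ν, ‖h ω‖ ≤ C) (hne : ¬ ∀ᵐ ω ∂ν, h ω = 0) :
    ∃ (χ : PontryaginDual W) (A : Set Ω), MeasurableSet[ℐ] A ∧
      ∫ ω in A, h ω * ((χ (w ω) : Circle) : ℂ) ∂ν ≠ 0 := by
  classical
  by_contra hcon
  push Not at hcon
  apply hne
  obtain ⟨C₀, hC₀⟩ := hb
  obtain ⟨C, hC0, hC⟩ : ∃ C : ℝ, 0 ≤ C ∧ ∀ᵐ ω ∂ν, ‖h ω‖ ≤ C :=
    ⟨|C₀|, abs_nonneg _, hC₀.mono fun ω hω => hω.trans (le_abs_self _)⟩
  have hcw : MeasurableSpace.comap w inferInstance ≤ mΩ := hw.comap_le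
  have hm : MeasurableSpace.comap w inferInstance ⊔ ℐ ≤ mΩ := sup_le hcw hℐ
  have hhm : Measurable h := hh.mono hm le_rfl
  have hhi : Integrable h ν := Integrable.of_bound hhm.aestronglyMeasurable C hC
  have hcm : ∀ χ : PontryaginDual W, Measurable fun z : W => ((χ z : Circle) : ℂ) :=
    fun χ => (CompactAbelian.continuous_char χ).measurable
  -- step 1
  have step1 : ∀ A : Set Ω, MeasurableSet[ℐ] A → ∀ B : Set W, MeasurableSet B →
      ∫ ω in A ∩ w ⁻¹' B, h ω ∂ν = 0 := by
    intro A hA B hB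
    have hAm : MeasurableSet A := hℐ _ hA
    have key : ∀ k : ℝ, 0 < k → ‖∫ ω in A ∩ w ⁻¹' B, h ω ∂ν‖ ≤ C * k := by
      intro k hk
      have hprob : IsProbabilityMeasure (ν.map w) :=
        Measure.isProbabilityMeasure_map hw.aemeasurable
      have hbm : BM (B.indicator fun _ => (1 : ℂ)) := by
        refine ⟨measurable_const.indicator hB, 1, fun z => ?_⟩
        by_cases hz : z ∈ B
        · simp [hz]
        · simp [hz]
      obtain ⟨F, t, hF⟩ := tg_approx (ν.map w) (B.indicator fun _ => (1 : ℂ)) hbm k hk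
      set T : W → ℂ := fun z => ∑ χ ∈ F, t χ * ((χ z : Circle) : ℂ) with hT
      have hTm : Measurable T := Finset.measurable_sum _ fun χ _ => (hcm χ).const_mul _
      set D : W → ℂ := fun z => B.indicator (fun _ => (1 : ℂ)) z - T z with hD
      have hDm : Measurable D := hbm.1.sub hTm
      obtain ⟨CT, hCT⟩ : ∃ CT : ℝ, ∀ z, ‖T z‖ ≤ CT := by
        refine ⟨∑ χ ∈ F, ‖t χ‖, fun z => (norm_sum_le _ _).trans (le_of_eq ?_)⟩
        refine Finset.sum_congr rfl fun χ _ => ?_
        rw [norm_mul, Circle.norm_coe, mul_one]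
      have hDb : ∀ z, ‖D z‖ ≤ 1 + CT := by
        intro z
        refine (norm_sub_le _ _).trans (add_le_add ?_ (hCT z))
        by_cases hz : z ∈ B
        · simp [hz]
        · simp [hz]
      have hDwm : Measurable fun ω => D (w ω) := hDm.comp hw
      have hF' : ∫ ω, ‖D (w ω)‖ ^ 2 ∂ν ≤ k ^ 2 := by
        have h1 : ∫ ω, ‖D (w ω)‖ ^ 2 ∂ν = ∫ z, ‖D z‖ ^ 2 ∂(ν.map w) := by
          rw [integral_map hw.aemeasurable]
          exact (hDm.norm.pow_const 2).aestronglyMeasurable
        rw [h1]
        exact hF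
      have hDi : Integrable (fun ω => ‖D (w ω)‖) ν :=
        Integrable.of_bound hDwm.norm.aestronglyMeasurable (1 + CT)
          (Eventually.of_forall fun ω => by rw [norm_norm]; exact hDb _)
      have hDi2 : Integrable (fun ω => ‖D (w ω)‖ ^ 2) ν :=
        Integrable.of_bound (hDwm.norm.pow_const 2).aestronglyMeasurable ((1 + CT) ^ 2)
          (Eventually.of_forall fun ω => by
            rw [Real.norm_of_nonneg (by positivity)]
            exact pow_le_pow_left₀ (norm_nonneg _) (hDb _) 2)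
      have hD1 : ∫ ω, ‖D (w ω)‖ ∂ν ≤ k := by
        have h1 : ∫ ω, ‖D (w ω)‖ ∂ν ≤ ∫ ω, (‖D (w ω)‖ ^ 2 / (2 * k) + k / 2) ∂ν := by
          refine integral_mono hDi ((hDi2.div_const _).add (integrable_const _)) fun ω => ?_
          show ‖D (w ω)‖ ≤ ‖D (w ω)‖ ^ 2 / (2 * k) + k / 2
          rw [div_add_div _ _ (by positivity) (by norm_num), le_div_iff₀ (by positivity)]
          nlinarith [sq_nonneg (‖D (w ω)‖ - k)]
        rw [integral_add (hDi2.div_const _) (integrable_const _), integral_div] at h1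
        have h2 : ∫ _ : Ω, k / 2 ∂ν = k / 2 := by simp
        rw [h2] at h1
        have h3 : (∫ ω, ‖D (w ω)‖ ^ 2 ∂ν) / (2 * k) ≤ k / 2 := by
          rw [div_le_div_iff₀ (by positivity) (by norm_num)]
          nlinarith
        linarith
      -- the trigonometric polynomial integrates to zero
      have hPint : ∫ ω in A, h ω * T (w ω) ∂ν = 0 := by
        have e1 : ∀ ω, h ω * T (w ω) = ∑ χ ∈ F, t χ * (h ω * ((χ (w ω) : Circle) : ℂ)) := by
          intro ω
          rw [hT, Finset.mul_sum]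
          refine Finset.sum_congr rfl fun χ _ => ?_
          ring
        simp_rw [e1]
        rw [integral_finsetSum]
        · refine Finset.sum_eq_zero fun χ _ => ?_
          rw [integral_const_mul, hcon χ A hA, mul_zero]
        · intro χ _
          refine Integrable.const_mul ?_ _
          refine Integrable.of_bound ((hhm.mul ((hcm χ).comp hw)).aestronglyMeasurable) C ?_
          refine (ae_restrict_of_ae hC).mono fun ω hω => ?_
          rw [norm_mul, Circle.norm_coe, mul_one]
          exact hω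
      have hind : ∫ ω in A ∩ w ⁻¹' B, h ω ∂ν =
          ∫ ω in A, h ω * B.indicator (fun _ => (1 : ℂ)) (w ω) ∂ν := by
        rw [← setIntegral_indicator (hw hB)]
        refine integral_congr_ae (Eventually.of_forall fun ω => ?_)
        by_cases hω : w ω ∈ B
        · have : ω ∈ w ⁻¹' B := hω
          simp [Set.indicator, hω]
        · simp [Set.indicator, hω]
      have hi1 : Integrable (fun ω => h ω * B.indicator (fun _ => (1 : ℂ)) (w ω)) (ν.restrict A) := by
        refine Integrable.of_bound ((hhm.mul (hbm.1.comp hw)).aestronglyMeasurable) C ?_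
        refine (ae_restrict_of_ae hC).mono fun ω hω => ?_
        rw [norm_mul]
        by_cases hz : w ω ∈ B
        · simpa [hz] using hω
        · simpa [hz] using hC0
      have hi2 : Integrable (fun ω => h ω * T (w ω)) (ν.restrict A) := by
        refine Integrable.of_bound ((hhm.mul (hTm.comp hw)).aestronglyMeasurable) (C * CT) ?_
        refine (ae_restrict_of_ae hC).mono fun ω hω => ?_
        rw [norm_mul]
        exact mul_le_mul hω (hCT _) (norm_nonneg _) hC0
      have hsub : ∫ ω in A ∩ w ⁻¹' B, h ω ∂ν = ∫ ω in A, h ω * D (w ω) ∂ν := by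
        have e2 : ∀ ω, h ω * D (w ω) =
            h ω * B.indicator (fun _ => (1 : ℂ)) (w ω) - h ω * T (w ω) := by
          intro ω
          simp only [hD]
          ring
        simp_rw [e2]
        rw [integral_sub hi1 hi2, hPint, sub_zero, hind]
      rw [hsub]
      calc ‖∫ ω in A, h ω * D (w ω) ∂ν‖ ≤ ∫ ω in A, ‖h ω * D (w ω)‖ ∂ν :=
            norm_integral_le_integral_norm _
        _ ≤ ∫ ω in A, C * ‖D (w ω)‖ ∂ν := by
            refine integral_mono_of_nonneg (Eventually.of_forall fun ω => norm_nonneg _)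
              ((hDi.const_mul C).restrict) ?_
            refine (ae_restrict_of_ae hC).mono fun ω hω => ?_
            show ‖h ω * D (w ω)‖ ≤ C * ‖D (w ω)‖
            rw [norm_mul]
            exact mul_le_mul_of_nonneg_right hω (norm_nonneg _)
        _ ≤ ∫ ω, C * ‖D (w ω)‖ ∂ν := by
            refine setIntegral_le_integral (hDi.const_mul C) (Eventually.of_forall fun ω => ?_)
            show 0 ≤ C * ‖D (w ω)‖
            exact mul_nonneg hC0 (norm_nonneg _)
        _ = C * ∫ ω, ‖D (w ω)‖ ∂ν := integral_const_mul _ _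
        _ ≤ C * k := mul_le_mul_of_nonneg_left hD1 hC0
    by_contra hne0
    have hpos : 0 < ‖∫ ω in A ∩ w ⁻¹' B, h ω ∂ν‖ := norm_pos_iff.mpr hne0
    set I : ℝ := ‖∫ ω in A ∩ w ⁻¹' B, h ω ∂ν‖ with hI
    have h1 := key (I / (2 * (C + 1))) (by positivity)
    have h2 : C * (I / (2 * (C + 1))) ≤ I / 2 := by
      rw [mul_div_assoc', div_le_div_iff₀ (by positivity) (by norm_num)]
      nlinarith
    linarith
  -- step 2
  set 𝒢 : Set (Set Ω) := {E | ∃ (A : Set Ω) (B : Set W), MeasurableSet[ℐ] A ∧ MeasurableSet B ∧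
    E = A ∩ w ⁻¹' B} with h𝒢
  have hgen : MeasurableSpace.comap w inferInstance ⊔ ℐ = MeasurableSpace.generateFrom 𝒢 := by
    apply le_antisymm
    · refine sup_le ?_ ?_
      · rintro E ⟨B, hB, rfl⟩
        exact MeasurableSpace.measurableSet_generateFrom
          ⟨Set.univ, B, @MeasurableSet.univ _ ℐ, hB, (Set.univ_inter _).symm⟩
      · intro E hE
        exact MeasurableSpace.measurableSet_generateFrom
          ⟨E, Set.univ, hE, MeasurableSet.univ, by simp⟩
    · refine MeasurableSpace.generateFrom_le ?_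
      rintro E ⟨A, B, hA, hB, rfl⟩
      have h1 : MeasurableSet[MeasurableSpace.comap w inferInstance ⊔ ℐ] A :=
        (le_sup_right : ℐ ≤ MeasurableSpace.comap w inferInstance ⊔ ℐ) A hA
      have h2 : MeasurableSet[MeasurableSpace.comap w inferInstance ⊔ ℐ] (w ⁻¹' B) :=
        (le_sup_left : MeasurableSpace.comap w inferInstance ≤
          MeasurableSpace.comap w inferInstance ⊔ ℐ) _ ⟨B, hB, rfl⟩
      exact @MeasurableSet.inter _ (MeasurableSpace.comap w inferInstance ⊔ ℐ) _ _ h1 h2
  have hpi : IsPiSystem 𝒢 := by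
    rintro _ ⟨A, B, hA, hB, rfl⟩ _ ⟨A', B', hA', hB', rfl⟩ _
    refine ⟨A ∩ A', B ∩ B', @MeasurableSet.inter _ ℐ _ _ hA hA', hB.inter hB', ?_⟩
    ext ω
    simp only [Set.mem_inter_iff, Set.mem_preimage]
    tauto
  have huniv : ∫ ω, h ω ∂ν = 0 := by
    have := step1 Set.univ (@MeasurableSet.univ _ ℐ) Set.univ MeasurableSet.univ
    simpa using this
  have step2 : ∀ E : Set Ω, MeasurableSet[MeasurableSpace.comap w inferInstance ⊔ ℐ] E →
      ∫ ω in E, h ω ∂ν = 0 := by
    intro E hE
    refine MeasurableSpace.induction_on_inter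
      (m := MeasurableSpace.comap w inferInstance ⊔ ℐ)
      (C := fun E _ => ∫ ω in E, h ω ∂ν = 0) hgen hpi ?_ ?_ ?_ ?_ E hE
    · simp
    · rintro _ ⟨A, B, hA, hB, rfl⟩
      exact step1 A hA B hB
    · intro s hs h0
      have h1 := integral_add_compl (hm _ hs) hhi
      rw [h0, huniv, zero_add] at h1
      exact h1
    · intro f hd hf h0
      rw [integral_iUnion (fun i => hm _ (hf i)) hd hhi.integrableOn]
      simp [h0]
  -- step 3
  have hfin : h =ᵐ[ν] ν[(0 : Ω → ℂ) | MeasurableSpace.comap w inferInstance ⊔ ℐ] := by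
    refine ae_eq_condExp_of_forall_setIntegral_eq hm (integrable_zero _ _ _)
      (fun s _ _ => hhi.integrableOn) (fun s hs _ => ?_)
      (hh.stronglyMeasurable.aestronglyMeasurable)
    rw [step2 s hs]
    simp
  rw [condExp_zero] at hfin
  exact hfin

end Pool.Agent.Lib.H82T
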