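import Pool.Agent.Lib.H82T.CV
import Pool.Agent.Lib.H82T.CR2
import Pool.Agent.Lib.H82T.FM

/-!
# Project H82T, chunk B1: from an eigenfunction of the base to a function of the rotation
-/

open MeasureTheory Filter Topology Finset ProbabilityTheory
open scoped ENNReal ComplexConjugate

namespace Pool.Agent.Lib.H82T

open Pool.Agent.Lib.H22M

/-- Conditioning on an invariant set. Proof. `A` is measurable, `S ⁻¹' A =ᵐ A`; for measurable `s`,
`ν (A ∩ S ⁻¹' s) = ν (S ⁻¹' A ∩ S ⁻¹' s) = ν (A ∩ s)` (`cond_apply`). -/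
theorem cond_preserving {Ω : Type*} [MeasurableSpace Ω] (ν : Measure Ω) [IsProbabilityMeasure ν]
    (S : Ω → Ω) (hS : MeasurePreserving S ν ν) (A : Set Ω) (hA : MeasurableSet[aeInv ν S] A) :
    MeasurePreserving S (cond ν A) (cond ν A) := by
  refine ⟨hS.measurable, Measure.ext fun s hs => ?_⟩
  rw [Measure.map_apply hS.measurable hs, cond_apply hA.1, cond_apply hA.1]
  congr 1
  rw [← hS.measure_preimage (hA.1.inter hs).nullMeasurableSet, Set.preimage_inter]
  exact (measure_congr (hA.2.inter (ae_eq_refl _))).symm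

theorem dd_comap_eq {Y V : Type*} [MeasurableSpace Y] [MeasurableSpace V] (v : Y → V)
    (ν : Measure (Y × Y)) (R : Y → Y) :
    DD (MeasurableSpace.comap v inferInstance) ν R =
      MeasurableSpace.comap (fun z : Y × Y => (v z.1, v z.2)) inferInstance ⊔
        aeInv ν (Prod.map R R) := by
  unfold DD CC
  rw [MeasurableSpace.comap_comp, MeasurableSpace.comap_comp]
  congr 1
  exact (MeasurableSpace.comap_prodMk (v ∘ Prod.fst) (v ∘ Prod.snd)).symm

/-- A function measurable for `𝒵`, bounded, and orthogonal to its own conjugate vanishes. -/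
theorem ae_zero_of_int {Ω : Type*} (𝒵 : MeasurableSpace Ω) [mΩ : MeasurableSpace Ω]
    (ν : Measure Ω) [IsProbabilityMeasure ν] (h𝒵 : 𝒵 ≤ mΩ) (d : Ω → ℂ) (hd : Measurable[𝒵] d)
    (C : ℝ) (hC : ∀ ω, ‖d ω‖ ≤ C)
    (h : ∀ f : Ω → ℂ, Measurable[𝒵] f → (∃ C' : ℝ, ∀ ω, ‖f ω‖ ≤ C') → ∫ ω, f ω * d ω ∂ν = 0) :
    ∀ᵐ ω ∂ν, d ω = 0 := by
  have h1 := h (fun ω => conj (d ω)) (Complex.continuous_conj.measurable.comp hd)
    ⟨C, fun ω => by simpa using hC ω⟩
  have h2 : ∀ ω, conj (d ω) * d ω = ((‖d ω‖ ^ 2 : ℝ) : ℂ) := fun ω => by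
    rw [mul_comm, Complex.mul_conj, Complex.normSq_eq_norm_sq]
  simp only [h2] at h1
  rw [integral_complex_ofReal] at h1
  have h3 : ∫ ω, ‖d ω‖ ^ 2 ∂ν = 0 := by exact_mod_cast h1
  have hdm : Measurable d := hd.mono h𝒵 le_rfl
  have hint : Integrable (fun ω => ‖d ω‖ ^ 2) ν := by
    refine Integrable.of_bound (hdm.norm.pow_const 2).aestronglyMeasurable (C ^ 2)
      (Eventually.of_forall fun ω => ?_)
    rw [Real.norm_of_nonneg (by positivity)]
    have := hC ω
    gcongr
  rw [integral_eq_zero_iff_of_nonneg (fun ω => by positivity) hint] at h3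
  filter_upwards [h3] with ω hω
  simpa using hω

/-- Proof. Write `w z = ((π z.1, u z.1), (π z.2, u z.2))`, with values in the compact metrizable abelian
group `(Z × Circle) × (Z × Circle)`. The σ-algebra in `hh` is `comap w ⊔ aeInv`
(`DD`, `CC`, `MeasurableSpace.comap_comp`, `comap_prodMk`-type lemma; the Borel σ-algebra of the product is
the product σ-algebra). By `exists_char_ne_zero` there are a character `χ` and an invariant `A` with
`∫_A h χ(w) dν ≠ 0`; in particular `ν A ≠ 0`. By `quad_char`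
`χ(w) = χ₁(π) u^a χ₂(π') u'^b`. Let `ν' = cond ν A`, preserved by `Prod.map R R` (`cond_preserving`),
`ν' ≪ ν`, `𝒵 = comap (fun z => (π z.1, π z.2))` (invariant under the equivalence `sqE R`: `comap` of the
map `(x, x') ↦ (α x, α x')`, a bijection measurable in both directions), and
`k z = h z * u(z.1)^a * u(z.2)^b`. By `exists_version` for `𝒵`, `ν'` and `k` there is a bounded
`𝒵`-measurable version `g₀` of `ν'[k|𝒵]`; `g₀ = g ∘ (π, π')` with `g` measurable
(`Measurable.exists_eq_measurable_comp`), truncated to be bounded.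
`k ∘ (R × R) = ζ φ(π)^a φ(π')^b k` a.e., so with `condExp_comp_equiv` (`H22M/CE.lean`) and the pull-out
property (`φ(π)^a φ(π')^b` is `𝒵`-measurable and bounded)
`g₀ ∘ (R × R) = ζ φ(π)^a φ(π')^b g₀` `ν'`-a.e. Finally `g₀` is not a.e. `0` since
`∫ g₀ χ₁(π) χ₂(π') dν' = ∫ k χ₁(π) χ₂(π') dν' = (ν A)⁻¹ ∫_A h χ(w) dν ≠ 0`. -/
theorem exists_base_function {Y Z : Type*} [MeasurableSpace Y] [MeasurableSpace Circle]
    [BorelSpace Circle] [CommGroup Z] [TopologicalSpace Z] [IsTopologicalGroup Z]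
    [CompactSpace Z] [T2Space Z] [SecondCountableTopology Z] [MeasurableSpace Z] [BorelSpace Z]
    (R : Y ≃ᵐ Y) (π : Y → Z) (hπ : Measurable π) (α : Z) (hπR : ∀ y, π (R y) = α * π y)
    (u : Y → Circle) (hu : Measurable u) (φ : Z → Circle) (hφ : Measurable φ)
    (huR : ∀ y, u (R y) = φ (π y) * u y) (ν : Measure (Y × Y)) [IsProbabilityMeasure ν]
    (hν : MeasurePreserving (Prod.map R R) ν ν) (ζ : ℂ) (hζ : ‖ζ‖ = 1) (h : Y × Y → ℂ)
    (hh : Measurable[DD (MeasurableSpace.comap (fun y => (π y, u y)) inferInstance) ν R] h)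
    (hb : ∃ C : ℝ, ∀ᵐ z ∂ν, ‖h z‖ ≤ C) (hR : ∀ᵐ z ∂ν, h (Prod.map R R z) = ζ * h z)
    (hne : ¬ ∀ᵐ z ∂ν, h z = 0) :
    ∃ (A : Set (Y × Y)) (a b : ℤ) (g : Z × Z → ℂ), MeasurableSet[aeInv ν (Prod.map R R)] A ∧
      ν A ≠ 0 ∧ Measurable g ∧ (∃ C : ℝ, ∀ x, ‖g x‖ ≤ C) ∧
      (∀ᵐ z ∂(cond ν A), g (α * π z.1, α * π z.2) =
        ζ * (φ (π z.1) : ℂ) ^ a * (φ (π z.2) : ℂ) ^ b * g (π z.1, π z.2)) ∧
      ¬ ∀ᵐ z ∂(cond ν A), g (π z.1, π z.2) = 0 := by
  classical
  set v : Y → Z × Circle := fun y => (π y, u y) with hv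
  have hvm : Measurable v := hπ.prodMk hu
  have hw : Measurable (fun z : Y × Y => (v z.1, v z.2)) :=
    (hvm.comp measurable_fst).prodMk (hvm.comp measurable_snd)
  have hh' : Measurable[MeasurableSpace.comap (fun z : Y × Y => (v z.1, v z.2)) inferInstance ⊔
        aeInv ν (Prod.map R R)] h := by
    rw [← dd_comap_eq]
    exact hh
  obtain ⟨χ, A, hA, hint⟩ := exists_char_ne_zero (aeInv ν (Prod.map R R)) ν (aeInv_le _ _)
    (fun z : Y × Y => (v z.1, v z.2)) hw h hh' hb hne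
  obtain ⟨χ₁, χ₂, a, b, hχ⟩ := quad_char χ
  have hνA : ν A ≠ 0 := by
    intro h0
    exact hint (Measure.restrict_eq_zero.2 h0 ▸ by simp)
  have hhm : Measurable h := hh'.mono (sup_le hw.comap_le (aeInv_le _ _)) le_rfl
  have hprob : IsProbabilityMeasure (cond ν A) := cond_isProbabilityMeasure hνA
  have hcond : MeasurePreserving (Prod.map R R) (cond ν A) (cond ν A) :=
    cond_preserving ν _ hν A hA
  have hcac : cond ν A ≪ ν := cond_absolutelyContinuous
  obtain ⟨C₀, hC₀⟩ := hb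
  obtain ⟨C, hCC, hC0⟩ : ∃ C : ℝ, C₀ ≤ C ∧ 0 ≤ C := ⟨max C₀ 0, le_max_left _ _, le_max_right _ _⟩
  have hcz : ∀ n : ℤ, Measurable fun c : Circle => (c : ℂ) ^ n := by
    intro n
    have h1 : Continuous fun c : Circle => ((c ^ n : Circle) : ℂ) :=
      continuous_subtype_val.comp (continuous_zpow n)
    have h2 : (fun c : Circle => (c : ℂ) ^ n) = fun c : Circle => ((c ^ n : Circle) : ℂ) := by
      funext c
      simp
    rw [h2]
    exact h1.measurable
  have hcn : ∀ (n : ℤ) (c : Circle), ‖(c : ℂ) ^ n‖ = 1 := by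
    intro n c
    rw [norm_zpow, Circle.norm_coe, one_zpow]
  set k : Y × Y → ℂ := fun z => h z * (u z.1 : ℂ) ^ a * (u z.2 : ℂ) ^ b with hk
  have hkm : Measurable k :=
    (hhm.mul ((hcz a).comp (hu.comp measurable_fst))).mul ((hcz b).comp (hu.comp measurable_snd))
  have hkC : ∀ᵐ z ∂(cond ν A), ‖k z‖ ≤ C := by
    filter_upwards [hcac.ae_le hC₀] with z hz
    simp only [hk, norm_mul, hcn, mul_one]
    exact le_trans hz hCC
  have hkR : ∀ᵐ z ∂(cond ν A), k (Prod.map R R z) =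
      ζ * (φ (π z.1) : ℂ) ^ a * (φ (π z.2) : ℂ) ^ b * k z := by
    filter_upwards [hcac.ae_le hR] with z hz
    have e1 : (u (Prod.map R R z).1 : ℂ) = (φ (π z.1) : ℂ) * (u z.1 : ℂ) := by
      rw [Prod.map_fst, huR, Circle.coe_mul]
    have e2 : (u (Prod.map R R z).2 : ℂ) = (φ (π z.2) : ℂ) * (u z.2 : ℂ) := by
      rw [Prod.map_snd, huR, Circle.coe_mul]
    simp only [hk]
    rw [hz, e1, e2, mul_zpow, mul_zpow]
    ring
  set pr : Y × Y → Z × Z := fun z => (π z.1, π z.2) with hpr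
  have hprm : Measurable pr := (hπ.comp measurable_fst).prodMk (hπ.comp measurable_snd)
  have h𝒵 : MeasurableSpace.comap pr inferInstance ≤ (inferInstance : MeasurableSpace (Y × Y)) :=
    hprm.comap_le
  have hmz : ∀ F : Z × Z → ℂ, Measurable F →
      Measurable[MeasurableSpace.comap pr inferInstance] fun z => F (pr z) := fun F hF =>
    hF.comp (comap_measurable pr)
  obtain ⟨g₀, hg0m, hg0b, -, hg0int⟩ := exists_version (MeasurableSpace.comap pr inferInstance)
    (cond ν A) h𝒵 k hkm C hC0 hkC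
  obtain ⟨g₁, hg1m, hg1⟩ := Measurable.exists_eq_measurable_comp (f := pr) hg0m
  set g : Z × Z → ℂ := fun x => if ‖g₁ x‖ ≤ C then g₁ x else 0 with hg
  have hgm : Measurable g :=
    Measurable.ite (measurableSet_le hg1m.norm measurable_const) hg1m measurable_const
  have hgb : ∀ x, ‖g x‖ ≤ C := by
    intro x
    simp only [hg]
    split_ifs with h1
    · exact h1
    · simpa using hC0
  have hgpr : ∀ z, g (pr z) = g₀ z := by
    intro z
    have h1 : g₁ (pr z) = g₀ z := by rw [hg1]; rfl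
    simp only [hg, h1, hg0b z, if_true]
  have hφz : ∀ n : ℤ, Measurable fun x : Z => (φ x : ℂ) ^ n := fun n => (hcz n).comp hφ
  -- the eigenfunction relation
  have hrel : ∀ᵐ z ∂(cond ν A), g (α * π z.1, α * π z.2) -
      ζ * (φ (π z.1) : ℂ) ^ a * (φ (π z.2) : ℂ) ^ b * g (π z.1, π z.2) = 0 := by
    have hDm : Measurable fun x : Z × Z => g (α * x.1, α * x.2) -
        ζ * (φ x.1 : ℂ) ^ a * (φ x.2 : ℂ) ^ b * g x := by
      refine (hgm.comp ?_).sub ((((measurable_const).mul ((hφz a).comp measurable_fst)).mul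
        ((hφz b).comp measurable_snd)).mul hgm)
      exact (measurable_fst.const_mul α).prodMk (measurable_snd.const_mul α)
    have hmb : ∀ x : Z × Z, ‖ζ * (φ x.1 : ℂ) ^ a * (φ x.2 : ℂ) ^ b‖ = 1 := by
      intro x
      rw [norm_mul, norm_mul, hζ, hcn, hcn]
      norm_num
    refine ae_zero_of_int (MeasurableSpace.comap pr inferInstance) (cond ν A) h𝒵 _
      (hmz _ hDm) (2 * C) ?_ ?_
    · intro z
      refine (norm_sub_le _ _).trans ?_
      have h0 : ‖ζ * (φ (π z.1) : ℂ) ^ a * (φ (π z.2) : ℂ) ^ b‖ = 1 := hmb (pr z)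
      rw [norm_mul, h0]
      have h1 : ‖g (α * π z.1, α * π z.2)‖ ≤ C := hgb _
      have h2 : ‖g (π z.1, π z.2)‖ ≤ C := hgb _
      linarith
    · rintro f hfm ⟨C', hC'⟩
      obtain ⟨F, hFm, hF⟩ := Measurable.exists_eq_measurable_comp (f := pr) hfm
      have hFz : ∀ z, f z = F (pr z) := fun z => by rw [hF]; rfl
      -- the translate of f
      have hf'm : Measurable[MeasurableSpace.comap pr inferInstance]
          fun z => F (α⁻¹ * (pr z).1, α⁻¹ * (pr z).2) :=
        hmz (fun x => F (α⁻¹ * x.1, α⁻¹ * x.2)) (hFm.comp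
          ((measurable_fst.const_mul α⁻¹).prodMk (measurable_snd.const_mul α⁻¹)))
      have hprR : ∀ z, pr (Prod.map R R z) = (α * (pr z).1, α * (pr z).2) := by
        intro z
        simp only [hpr, Prod.map_fst, Prod.map_snd, hπR]
      have hf'S : ∀ z, F (α⁻¹ * (pr (sqE R z)).1, α⁻¹ * (pr (sqE R z)).2) = f z := by
        intro z
        have e : pr (sqE R z) = (α * (pr z).1, α * (pr z).2) := hprR z
        rw [e, hFz]
        simp
      have hf'b : ∀ᵐ z ∂(cond ν A), ‖F (α⁻¹ * (pr z).1, α⁻¹ * (pr z).2)‖ ≤ C' := by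
        refine Eventually.of_forall fun z => ?_
        have e := hf'S ((sqE R).symm z)
        rw [MeasurableEquiv.apply_symm_apply] at e
        rw [e]
        exact hC' _
      have hSν : MeasurePreserving (sqE R) (cond ν A) (cond ν A) := hcond
      have i1 : ∫ z, f z * g (α * (pr z).1, α * (pr z).2) ∂(cond ν A) =
          ∫ z, F (α⁻¹ * (pr z).1, α⁻¹ * (pr z).2) * g₀ z ∂(cond ν A) := by
        rw [← hSν.integral_comp' (fun z => F (α⁻¹ * (pr z).1, α⁻¹ * (pr z).2) * g₀ z)]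
        refine integral_congr_ae (Eventually.of_forall fun z => ?_)
        simp only
        rw [hf'S z, ← hgpr (sqE R z)]
        have e : pr (sqE R z) = (α * (pr z).1, α * (pr z).2) := hprR z
        rw [e]
      have i2 : ∫ z, F (α⁻¹ * (pr z).1, α⁻¹ * (pr z).2) * k z ∂(cond ν A) =
          ∫ z, F (α⁻¹ * (pr z).1, α⁻¹ * (pr z).2) * g₀ z ∂(cond ν A) :=
        hg0int _ hf'm ⟨C', hf'b⟩
      have i3 : ∫ z, F (α⁻¹ * (pr z).1, α⁻¹ * (pr z).2) * k z ∂(cond ν A) =
          ∫ z, (f z * (ζ * (φ (π z.1) : ℂ) ^ a * (φ (π z.2) : ℂ) ^ b)) * k z ∂(cond ν A) := by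
        rw [← hSν.integral_comp' (fun z => F (α⁻¹ * (pr z).1, α⁻¹ * (pr z).2) * k z)]
        refine integral_congr_ae ?_
        filter_upwards [hkR] with z hz
        rw [hf'S z]
        have e : k (sqE R z) = k (Prod.map R R z) := rfl
        rw [e, hz]
        ring
      have hf2m : Measurable[MeasurableSpace.comap pr inferInstance]
          fun z => f z * (ζ * (φ (π z.1) : ℂ) ^ a * (φ (π z.2) : ℂ) ^ b) := by
        refine Measurable.mul hfm ?_
        exact hmz (fun x => ζ * (φ x.1 : ℂ) ^ a * (φ x.2 : ℂ) ^ b)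
          (((measurable_const).mul ((hφz a).comp measurable_fst)).mul
          ((hφz b).comp measurable_snd))
      have i4 : ∫ z, (f z * (ζ * (φ (π z.1) : ℂ) ^ a * (φ (π z.2) : ℂ) ^ b)) * k z ∂(cond ν A) =
          ∫ z, (f z * (ζ * (φ (π z.1) : ℂ) ^ a * (φ (π z.2) : ℂ) ^ b)) * g₀ z ∂(cond ν A) := by
        refine hg0int _ hf2m ⟨C', Eventually.of_forall fun z => ?_⟩
        rw [norm_mul, hmb (pr z), mul_one]
        exact hC' z
      have hfm' : Measurable f := hfm.mono h𝒵 le_rfl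
      have hg0m' : Measurable g₀ := hg0m.mono h𝒵 le_rfl
      have hC'0 : 0 ≤ C' := by
        obtain ⟨z₀⟩ : Nonempty (Y × Y) := nonempty_of_isProbabilityMeasure ν
        exact (norm_nonneg _).trans (hC' z₀)
      have j1 : Integrable (fun z => f z * g (α * (pr z).1, α * (pr z).2)) (cond ν A) := by
        refine Integrable.of_bound (hfm'.mul (hgm.comp ?_)).aestronglyMeasurable (C' * C)
          (Eventually.of_forall fun z => ?_)
        · exact ((measurable_fst.comp hprm).const_mul α).prodMk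
            ((measurable_snd.comp hprm).const_mul α)
        · rw [norm_mul]
          exact mul_le_mul (hC' z) (hgb _) (norm_nonneg _) hC'0
      have j2 : Integrable (fun z => (f z * (ζ * (φ (π z.1) : ℂ) ^ a * (φ (π z.2) : ℂ) ^ b)) *
          g₀ z) (cond ν A) := by
        refine Integrable.of_bound ((hf2m.mono h𝒵 le_rfl).mul hg0m').aestronglyMeasurable (C' * C)
          (Eventually.of_forall fun z => ?_)
        rw [norm_mul, norm_mul, hmb (pr z), mul_one]
        exact mul_le_mul (hC' z) (hg0b _) (norm_nonneg _) hC'0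
      have i5 : ∫ z, f z * (g (α * (pr z).1, α * (pr z).2) -
          ζ * (φ (pr z).1 : ℂ) ^ a * (φ (pr z).2 : ℂ) ^ b * g (pr z)) ∂(cond ν A) =
          ∫ z, f z * g (α * (pr z).1, α * (pr z).2) ∂(cond ν A) -
          ∫ z, (f z * (ζ * (φ (π z.1) : ℂ) ^ a * (φ (π z.2) : ℂ) ^ b)) * g₀ z ∂(cond ν A) := by
        rw [← integral_sub j1 j2]
        refine integral_congr_ae (Eventually.of_forall fun z => ?_)
        simp only
        rw [hgpr z]
        ring
      rw [i5, i1, ← i2, i3, i4, sub_self]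
  refine ⟨A, a, b, g, hA, hνA, hgm, ⟨C, hgb⟩, ?_, ?_⟩
  · filter_upwards [hrel] with z hz
    exact sub_eq_zero.1 hz
  · intro h0
    have hχm : ∀ ψ : PontryaginDual Z, Measurable fun x : Z => ((ψ x : Circle) : ℂ) := by
      intro ψ
      have h1 : Continuous fun x : Z => ((ψ x : Circle) : ℂ) :=
        continuous_subtype_val.comp (map_continuous ψ)
      exact h1.measurable
    have k1 : ∫ z, (((χ₁ (π z.1) : Circle) : ℂ) * ((χ₂ (π z.2) : Circle) : ℂ)) * k z ∂(cond ν A) =
        ∫ z, (((χ₁ (π z.1) : Circle) : ℂ) * ((χ₂ (π z.2) : Circle) : ℂ)) * g₀ z ∂(cond ν A) := by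
      refine hg0int _ (hmz (fun x => ((χ₁ x.1 : Circle) : ℂ) * ((χ₂ x.2 : Circle) : ℂ))
        (((hχm χ₁).comp measurable_fst).mul ((hχm χ₂).comp measurable_snd)))
        ⟨1, Eventually.of_forall fun z => ?_⟩
      rw [norm_mul, Circle.norm_coe, Circle.norm_coe, one_mul]
    have k2 : ∫ z, (((χ₁ (π z.1) : Circle) : ℂ) * ((χ₂ (π z.2) : Circle) : ℂ)) * g₀ z
        ∂(cond ν A) = 0 := by
      refine integral_eq_zero_of_ae ?_
      filter_upwards [h0] with z hz
      have e : g₀ z = 0 := by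
        rw [← hgpr z]
        exact hz
      simp [e]
    have k3 : ∫ z, (((χ₁ (π z.1) : Circle) : ℂ) * ((χ₂ (π z.2) : Circle) : ℂ)) * k z
        ∂(cond ν A) = (ν A)⁻¹.toReal • ∫ z in A, h z * ((χ (v z.1, v z.2) : Circle) : ℂ) ∂ν := by
      rw [ProbabilityTheory.cond, integral_smul_measure]
      congr 1
      refine integral_congr_ae (Eventually.of_forall fun z => ?_)
      simp only [hv, hk]
      rw [hχ]
      push_cast
      ring
    have k4 : (ν A)⁻¹.toReal ≠ 0 := by
      rw [ENNReal.toReal_ne_zero]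
      exact ⟨ENNReal.inv_ne_zero.2 (measure_ne_top _ _), ENNReal.inv_ne_top.2 hνA⟩
    rw [k1, k2] at k3
    exact hint ((smul_eq_zero.1 k3.symm).resolve_left k4)

end Pool.Agent.Lib.H82T
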