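import Pool.Agent.Lib.H82T.Defs
import Pool.Agent.Lib.H22M.FC

/-!
# Project H82T, chunk FM2: independence of an invariant function and a rotation
-/

open MeasureTheory Filter Topology Finset
open scoped ENNReal ComplexConjugate

namespace Pool.Agent.Lib.H82T

open Pool.Agent.Lib.H22M

/-- Proof. `measure_ext_char_prod` (`H22M/FC.lean`): for characters `χ, χ'`, let
`I = ∫ χ(x) χ'(c) dν`. By invariance `I = ∫ χ(x ∘ S) χ'(c ∘ S) dν = χ(α) I`, so `I = 0` if `χ ≠ 1`, and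
`∫ χ dlam ∫ χ' d(ν.map c) = 0` too (`Pool.Agent.Lib.CompactAbelian.integral_char_eq_zero`). If `χ = 1` both
sides are `∫ χ'(c) dν`. -/
theorem law_prod {Ω Z : Type*} [MeasurableSpace Ω] (ν : Measure Ω) [IsProbabilityMeasure ν]
    (S : Ω → Ω) (hS : MeasurePreserving S ν ν)
    [CommGroup Z] [TopologicalSpace Z] [IsTopologicalGroup Z] [CompactSpace Z] [T2Space Z]
    [SecondCountableTopology Z] [MeasurableSpace Z] [BorelSpace Z]
    (lam : Measure Z) [lam.IsHaarMeasure] [IsProbabilityMeasure lam] (α : Z)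
    (hα : ∀ χ : PontryaginDual Z, χ ≠ 1 → ((χ α : Circle) : ℂ) ≠ 1) (x c : Ω → Z)
    (hx : Measurable x) (hc : Measurable c) (hxS : ∀ ω, x (S ω) = α * x ω)
    (hcS : ∀ ω, c (S ω) = c ω) :
    ν.map (fun ω => (x ω, c ω)) = lam.prod (ν.map c) := by
  have hxc : Measurable (fun ω => (x ω, c ω)) := hx.prodMk hc
  have hp1 : IsProbabilityMeasure (ν.map c) := Measure.isProbabilityMeasure_map hc.aemeasurable
  have hp2 : IsProbabilityMeasure (ν.map (fun ω => (x ω, c ω))) :=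
    Measure.isProbabilityMeasure_map hxc.aemeasurable
  have hcont : ∀ ψ : PontryaginDual Z, Continuous (fun z : Z => ((ψ z : Circle) : ℂ)) :=
    fun ψ => CompactAbelian.continuous_char ψ
  have hmes : ∀ ψ : PontryaginDual Z, Measurable (fun z : Z => ((ψ z : Circle) : ℂ)) :=
    fun ψ => (hcont ψ).measurable
  refine measure_ext_char_prod _ _ ?_
  intro χ χ'
  have hL : ∫ w, ((χ w.1 : Circle) : ℂ) * ((χ' w.2 : Circle) : ℂ) ∂(ν.map (fun ω => (x ω, c ω))) =
      ∫ ω, ((χ (x ω) : Circle) : ℂ) * ((χ' (c ω) : Circle) : ℂ) ∂ν := by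
    rw [integral_map hxc.aemeasurable]
    exact (((hmes χ).comp measurable_fst).mul
      ((hmes χ').comp measurable_snd)).aestronglyMeasurable
  have hR : ∫ w, ((χ w.1 : Circle) : ℂ) * ((χ' w.2 : Circle) : ℂ) ∂(lam.prod (ν.map c)) =
      (∫ z, ((χ z : Circle) : ℂ) ∂lam) * ∫ z, ((χ' z : Circle) : ℂ) ∂(ν.map c) :=
    integral_prod_mul (fun z : Z => ((χ z : Circle) : ℂ)) (fun z : Z => ((χ' z : Circle) : ℂ))
  rw [hL, hR]
  by_cases h1 : χ = 1
  · subst h1
    have h4 : ∀ z : Z, (((1 : PontryaginDual Z) z : Circle) : ℂ) = 1 := fun z => rfl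
    simp_rw [h4]
    rw [integral_map hc.aemeasurable (hmes χ').aestronglyMeasurable]
    simp
  · rw [CompactAbelian.integral_char_eq_zero lam χ h1, zero_mul]
    have hfm : Measurable (fun ω => ((χ (x ω) : Circle) : ℂ) * ((χ' (c ω) : Circle) : ℂ)) :=
      ((hmes χ).comp hx).mul ((hmes χ').comp hc)
    have hI : ∫ ω, ((χ (x ω) : Circle) : ℂ) * ((χ' (c ω) : Circle) : ℂ) ∂ν =
        ∫ ω, ((χ (x (S ω)) : Circle) : ℂ) * ((χ' (c (S ω)) : Circle) : ℂ) ∂ν := by
      conv_lhs => rw [← hS.map_eq]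
      rw [integral_map hS.measurable.aemeasurable]
      exact hfm.aestronglyMeasurable
    have hI2 : ∫ ω, ((χ (x (S ω)) : Circle) : ℂ) * ((χ' (c (S ω)) : Circle) : ℂ) ∂ν =
        ((χ α : Circle) : ℂ) * ∫ ω, ((χ (x ω) : Circle) : ℂ) * ((χ' (c ω) : Circle) : ℂ) ∂ν := by
      rw [← integral_const_mul]
      congr 1
      ext ω
      rw [hxS, hcS, map_mul, Circle.coe_mul, mul_assoc]
    rw [hI2] at hI
    have h2 : (1 - ((χ α : Circle) : ℂ)) *
        ∫ ω, ((χ (x ω) : Circle) : ℂ) * ((χ' (c ω) : Circle) : ℂ) ∂ν = 0 := by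
      rw [sub_mul, one_mul, ← hI, sub_self]
    rcases mul_eq_zero.mp h2 with h | h
    · exact absurd (sub_eq_zero.mp h).symm (hα χ h1)
    · exact h

end Pool.Agent.Lib.H82T
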