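import Pool.Agent.Lib.H82T.NR0

/-!
# Project H82T, chunk NR: the relation on the rotation group
-/

open MeasureTheory Filter Topology Finset
open scoped ENNReal ComplexConjugate

namespace Pool.Agent.Lib.H82T

open Pool.Agent.Lib.H22M

namespace NR

/-- The telescoping product. -/
theorem tele {G : Type*} [CommGroup G] (x : ℕ → G) (k k' : ℤ) (n : ℕ) :
    ∏ i ∈ range n, (x i ^ k * x (i + 1) ^ (-k')) ^ (k ^ (n - 1 - i) * k' ^ i) =
      x 0 ^ (k ^ n) * x n ^ (-(k' ^ n)) := by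
  induction n with
  | zero => simp
  | succ n ih =>
    have h1 : ∏ i ∈ range n, (x i ^ k * x (i + 1) ^ (-k')) ^ (k ^ (n + 1 - 1 - i) * k' ^ i) =
        (∏ i ∈ range n, (x i ^ k * x (i + 1) ^ (-k')) ^ (k ^ (n - 1 - i) * k' ^ i)) ^ k := by
      rw [← Finset.prod_zpow]
      refine prod_congr rfl fun i hi => ?_
      rw [← zpow_mul]
      have h2 : n + 1 - 1 - i = (n - 1 - i) + 1 := by
        have := mem_range.mp hi
        omega
      have h3 : k ^ (n + 1 - 1 - i) * k' ^ i = k ^ (n - 1 - i) * k' ^ i * k := by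
        rw [h2, pow_succ]
        ring
      rw [h3]
    rw [prod_range_succ, h1, ih]
    have h4 : k ^ (n + 1 - 1 - n) * k' ^ n = k' ^ n := by
      rw [Nat.add_sub_cancel, Nat.sub_self, pow_zero, one_mul]
    rw [h4, mul_zpow, mul_zpow, ← zpow_mul, ← zpow_mul, ← zpow_mul, ← zpow_mul]
    have h5 : x n ^ (-(k' ^ n) * k) * x n ^ (k * k' ^ n) = 1 := by
      rw [← zpow_add]
      have : -(k' ^ n) * k + k * k' ^ n = 0 := by ring
      rw [this, zpow_zero]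
    have h6 : k ^ n * k = k ^ (n + 1) := (pow_succ k n).symm
    have h7 : -k' * k' ^ n = -(k' ^ (n + 1)) := by ring
    rw [h6, h7]
    calc x 0 ^ k ^ (n + 1) * x n ^ (-k' ^ n * k) * (x n ^ (k * k' ^ n) * x (n + 1) ^ (-k' ^ (n + 1)))
        = x 0 ^ k ^ (n + 1) * (x n ^ (-(k' ^ n) * k) * x n ^ (k * k' ^ n)) *
            x (n + 1) ^ (-k' ^ (n + 1)) := by simp only [mul_assoc]
      _ = x 0 ^ k ^ (n + 1) * x (n + 1) ^ (-k' ^ (n + 1)) := by rw [h5, mul_one]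

/-- Two coprime orders. -/
theorem eq_one_of_coprime {ζ : ℂ} {p q : ℕ} (hpq : Nat.Coprime p q) (h1 : ζ ^ p = 1)
    (h2 : ζ ^ q = 1) : ζ = 1 := by
  have h3 : orderOf ζ ∣ p := orderOf_dvd_of_pow_eq_one h1
  have h4 : orderOf ζ ∣ q := orderOf_dvd_of_pow_eq_one h2
  have h5 : orderOf ζ ∣ 1 := by
    rw [← hpq]
    exact Nat.dvd_gcd h3 h4
  exact orderOf_eq_one_iff.mp (Nat.dvd_one.mp h5)

/-- The product over the translates, with exponents. -/
theorem shift_prod {Z : Type*} [CommGroup Z] [MeasurableSpace Z] [MeasurableMul Z]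
    (lam : Measure Z) [lam.IsMulLeftInvariant] (α : Z) (φ : Z → Circle) (c₀ : Z) (ζ : ℂ)
    (hζ0 : ζ ≠ 0) (a b : ℤ) (β : Z → ℂ)
    (h : ∀ᵐ z ∂lam, β (α * z) = ζ * (φ z : ℂ) ^ a * (φ (c₀ * z) : ℂ) ^ b * β z) (n : ℕ)
    (e : ℕ → ℤ) :
    ∀ᵐ z ∂lam, ∏ i ∈ range n, β (c₀ ^ i * (α * z)) ^ e i =
      ζ ^ (∑ i ∈ range n, e i) *
        ((∏ i ∈ range n, (φ (c₀ ^ i * z) ^ a * φ (c₀ ^ (i + 1) * z) ^ b) ^ e i : Circle) : ℂ) *
        ∏ i ∈ range n, β (c₀ ^ i * z) ^ e i := by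
  have h1 : ∀ i : ℕ, ∀ᵐ z ∂lam, β (c₀ ^ i * (α * z)) =
      ζ * ((φ (c₀ ^ i * z) ^ a * φ (c₀ ^ (i + 1) * z) ^ b : Circle) : ℂ) * β (c₀ ^ i * z) := by
    intro i
    have h2 := (measurePreserving_mul_left lam (c₀ ^ i)).quasiMeasurePreserving.ae h
    filter_upwards [h2] with z hz
    have h3 : α * (c₀ ^ i * z) = c₀ ^ i * (α * z) := by
      rw [← mul_assoc, ← mul_assoc, mul_comm α]
    have h4 : c₀ * (c₀ ^ i * z) = c₀ ^ (i + 1) * z := by
      rw [← mul_assoc, pow_succ' c₀ i]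
    rw [h3, h4] at hz
    rw [hz, Circle.coe_mul, Circle.coe_zpow, Circle.coe_zpow]
    ring
  have h5 : ∀ᵐ z ∂lam, ∀ i : ℕ, β (c₀ ^ i * (α * z)) =
      ζ * ((φ (c₀ ^ i * z) ^ a * φ (c₀ ^ (i + 1) * z) ^ b : Circle) : ℂ) * β (c₀ ^ i * z) :=
    ae_all_iff.mpr h1
  filter_upwards [h5] with z hz
  induction n with
  | zero => simp
  | succ n ih =>
    rw [prod_range_succ, ih, prod_range_succ, prod_range_succ, sum_range_succ, hz n]
    generalize (∏ i ∈ range n, (φ (c₀ ^ i * z) ^ a * φ (c₀ ^ (i + 1) * z) ^ b) ^ e i : Circle) = P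
    generalize (φ (c₀ ^ n * z) ^ a * φ (c₀ ^ (n + 1) * z) ^ b : Circle) = w
    rw [mul_zpow, mul_zpow, zpow_add₀ hζ0, Circle.coe_mul, Circle.coe_zpow]
    ring

/-- Measurability and modulus of the product over the translates. -/
theorem shift_meas {Z : Type*} [CommGroup Z] [MeasurableSpace Z] [MeasurableMul Z]
    (lam : Measure Z) [lam.IsMulLeftInvariant] (c₀ : Z) (β : Z → ℂ) (hβ : Measurable β)
    (hβ1 : ∀ᵐ z ∂lam, ‖β z‖ = 1) (n : ℕ) (e : ℕ → ℤ) :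
    Measurable (fun z => ∏ i ∈ range n, β (c₀ ^ i * z) ^ e i) ∧
      ∀ᵐ z ∂lam, ‖∏ i ∈ range n, β (c₀ ^ i * z) ^ e i‖ = 1 := by
  constructor
  · refine Finset.measurable_prod _ fun i _ => ?_
    have h1 : Measurable fun z : Z => β (c₀ ^ i * z) := hβ.comp (measurable_const_mul _)
    rcases Int.eq_nat_or_neg (e i) with ⟨m, hm | hm⟩
    · rw [hm]
      simp only [zpow_natCast]
      exact h1.pow_const m
    · rw [hm]
      simp only [zpow_neg, zpow_natCast]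
      exact (h1.pow_const m).inv
  · have h1 : ∀ i : ℕ, ∀ᵐ z ∂lam, ‖β (c₀ ^ i * z)‖ = 1 := fun i =>
      (measurePreserving_mul_left lam (c₀ ^ i)).quasiMeasurePreserving.ae hβ1
    filter_upwards [ae_all_iff.mpr h1] with z hz
    rw [norm_prod]
    refine prod_eq_one fun i _ => ?_
    rw [norm_zpow, hz i, one_zpow]

end NR

/-- The case where no power of `φ` is cohomologous to a constant. `E` is the set of eigenvalues of an
extension. Proof. All powers below are of complex numbers of modulus one (a.e.), so they are multiplicative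
(`zpow`). `b = -k'`, `a = k`. If `f` holds for almost every `z` then also for almost every `c₀^i z`
(`lam` is invariant). Let `a_i = k^(p-1-i) k'^i` and `B z = ∏_{i < p} β(c₀^i z)^{a_i}`. Then
`B (α z) = ∏_{i<p} ζ^{a_i} φ(c₀^i z)^{k a_i} φ(c₀^{i+1} z)^{-k' a_i} β(c₀^i z)^{a_i}
= ζ^s φ(z)^{k^p} φ(c₀^p z)^{-k'^p} B z`, since for `1 ≤ j ≤ p - 1` the exponent of `φ(c₀^j z)` is
`k a_j - k' a_{j-1} = 0` (telescoping product; prove by induction on `n`:
`∏_{i<n} (φ(c₀^i z)^{k} φ(c₀^{i+1} z)^{-k'})^{k^(n-1-i) k'^i} = φ(z)^{k^n} φ(c₀^n z)^{-k'^n}`; in the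
induction step raise the product for `n` to the power `k` and multiply by the new factor to the power
`k'^n`). As `c₀^p = 1`, `B (α z) = ζ^s φ(z)^{k^p - k'^p} B z`.
If `k^p ≠ k'^p`, let `M = |k^p - k'^p| ≥ 1`: `B` (or `conj B` if `k^p < k'^p`) contradicts `hcoh M`.
If `k^p = k'^p` then `k = k'` (`p` odd). Let `B' z = ∏_{i < p} β(c₀^i z)`:
`B' (α z) = ζ^p ∏ φ(c₀^i z)^k φ(c₀^{i+1} z)^{-k} B' z = ζ^p B' z`, so `ζ^p` is an eigenvalue of the
rotation, `E (ζ^p)`, `(ζ^p)^q = 1`, so `ζ^p = 1`; with `ζ^q = 1` and `p, q` coprime `ζ = 1`. -/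
theorem no_relation_free {Z : Type*} [CommGroup Z] [MeasurableSpace Z] [MeasurableMul Z]
    (lam : Measure Z) [IsProbabilityMeasure lam] [lam.IsMulLeftInvariant] (α : Z)
    (φ : Z → Circle) [MeasurableSpace Circle] [BorelSpace Circle] (hφ : Measurable φ)
    (E : ℂ → Prop) (hE : ∀ c, IsEigenvalue lam (fun z => α * z) c → E c)
    (hroot : ∀ c, E c → ∀ n : ℕ, 1 ≤ n → c ^ n = 1 → c = 1)
    (hcoh : ∀ (M : ℕ) (l : ℂ), 1 ≤ M → ¬ Coh lam α φ M l)
    (p q : ℕ) (hp : p.Prime) (hp2 : p ≠ 2) (hq : q.Prime) (hqp : q ≠ p)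
    (c₀ : Z) (hc₀ : c₀ ^ p = 1) (ζ : ℂ) (hζ : ζ ^ q = 1) (hζ1 : ζ ≠ 1) (a b : ℤ) (β : Z → ℂ)
    (hβ : Measurable β) (hβ1 : ∀ᵐ z ∂lam, ‖β z‖ = 1)
    (h : ∀ᵐ z ∂lam, β (α * z) = ζ * (φ z : ℂ) ^ a * (φ (c₀ * z) : ℂ) ^ b * β z) : False := by
  have hζ0 : ζ ≠ 0 := by
    rintro rfl
    rw [zero_pow hq.ne_zero] at hζ
    exact zero_ne_one hζ
  obtain ⟨k', rfl⟩ : ∃ k' : ℤ, b = -k' := ⟨-b, (neg_neg b).symm⟩
  by_cases hk : a ^ p = k' ^ p
  · -- then `a = k'`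
    have hodd : Odd p := hp.odd_of_ne_two hp2
    have hak : a = k' := hodd.strictMono_pow.injective hk
    subst hak
    have h1 := NR.shift_prod lam α φ c₀ ζ hζ0 a (-a) β h p (fun _ => 1)
    obtain ⟨h2, h3⟩ := NR.shift_meas lam c₀ β hβ hβ1 p (fun _ => 1)
    have h4 : ∀ z : Z, (∏ i ∈ range p, (φ (c₀ ^ i * z) ^ a * φ (c₀ ^ (i + 1) * z) ^ (-a)) ^
        (1 : ℤ) : Circle) = 1 := by
      intro z
      have h5 : ∀ n : ℕ, (∏ i ∈ range n, (φ (c₀ ^ i * z) ^ a * φ (c₀ ^ (i + 1) * z) ^ (-a)) ^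
          (1 : ℤ) : Circle) = φ z ^ a * φ (c₀ ^ n * z) ^ (-a) := by
        intro n
        induction n with
        | zero => simp
        | succ n ih =>
          rw [prod_range_succ, ih, zpow_one, mul_assoc, ← mul_assoc (φ (c₀ ^ n * z) ^ (-a)),
            ← zpow_add, neg_add_cancel, zpow_zero, one_mul]
      rw [h5 p, hc₀, one_mul, ← zpow_add, add_neg_cancel, zpow_zero]
    have h6 : IsEigenvalue lam (fun z => α * z) (ζ ^ p) := by
      refine ⟨fun z => ∏ i ∈ range p, β (c₀ ^ i * z) ^ (1 : ℤ), h2, h3, ?_⟩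
      filter_upwards [h1] with z hz
      rw [h4 z] at hz
      simp only [sum_const, card_range, Circle.coe_one, mul_one, nsmul_eq_mul, zpow_natCast] at hz
      exact hz
    have h7 : ζ ^ p = 1 := by
      refine hroot _ (hE _ h6) q hq.one_lt.le ?_
      rw [← pow_mul, mul_comm, pow_mul, hζ, one_pow]
    exact hζ1 (NR.eq_one_of_coprime ((Nat.coprime_primes hp hq).mpr hqp.symm) h7 hζ)
  · set e : ℕ → ℤ := fun i => a ^ (p - 1 - i) * k' ^ i with he
    have h1 := NR.shift_prod lam α φ c₀ ζ hζ0 a (-k') β h p e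
    obtain ⟨h2, h3⟩ := NR.shift_meas lam c₀ β hβ hβ1 p e
    have h4 : ∀ z : Z, (∏ i ∈ range p, (φ (c₀ ^ i * z) ^ a * φ (c₀ ^ (i + 1) * z) ^ (-k')) ^
        e i : Circle) = φ z ^ (a ^ p - k' ^ p) := by
      intro z
      have h5 := NR.tele (fun i => φ (c₀ ^ i * z)) a k' p
      simp only [pow_zero, one_mul] at h5
      rw [h5, hc₀, one_mul, ← zpow_add, ← sub_eq_add_neg]
    set s : ℤ := ∑ i ∈ range p, e i with hs
    have h8 : ∀ᵐ z ∂lam, ∏ i ∈ range p, β (c₀ ^ i * (α * z)) ^ e i =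
        ζ ^ s * (φ z : ℂ) ^ (a ^ p - k' ^ p) * ∏ i ∈ range p, β (c₀ ^ i * z) ^ e i := by
      filter_upwards [h1] with z hz
      rw [hz, h4 z, Circle.coe_zpow]
    have h9 : a ^ p - k' ^ p ≠ 0 := sub_ne_zero.mpr hk
    have h10 : 1 ≤ (a ^ p - k' ^ p).natAbs := Nat.one_le_iff_ne_zero.mpr (Int.natAbs_ne_zero.mpr h9)
    rcases Int.natAbs_eq (a ^ p - k' ^ p) with h11 | h11
    · refine hcoh _ (ζ ^ s) h10 ⟨_, h2, h3, ?_⟩
      filter_upwards [h8] with z hz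
      rw [hz]
      conv_lhs => rw [h11]
      rw [zpow_natCast]
    · refine hcoh _ (ζ ^ s)⁻¹ h10 ⟨_, h2.inv, ?_, ?_⟩
      · filter_upwards [h3] with z hz
        simp only [Pi.inv_apply]
        rw [norm_inv, hz, inv_one]
      · filter_upwards [h8] with z hz
        simp only [Pi.inv_apply]
        rw [hz]
        conv_lhs => rw [h11]
        rw [zpow_neg, zpow_natCast, mul_inv, mul_inv, inv_inv]

end Pool.Agent.Lib.H82T
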