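import Pool.Agent.Lib.H82T.NR0

/-!
# Project H82T, chunk NR2: the relation in the case of a cocycle of finite type
-/

open MeasureTheory Filter Topology Finset
open scoped ENNReal ComplexConjugate

namespace Pool.Agent.Lib.H82T

open Pool.Agent.Lib.H22M

/-- The algebraic identity behind `no_relation_coh`. -/
theorem nr2_alg (x y ζ l β B B' : ℂ) (hx : x ≠ 0) (hy : y ≠ 0) (hl : l ≠ 0) (a b : ℤ) (M : ℕ) :
    (ζ * x ^ a * y ^ b * β) ^ M * (l * x ^ M * B) ^ (-a) * (l * y ^ M * B') ^ (-b) =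
      ζ ^ M * l ^ (-a - b) * (β ^ M * B ^ (-a) * B' ^ (-b)) := by
  have e1 : (x ^ a) ^ M * (x ^ M) ^ (-a) = 1 := by
    rw [← zpow_natCast (x ^ a) M, ← zpow_mul, ← zpow_natCast x M, ← zpow_mul, ← zpow_add₀ hx]
    have : a * (M : ℤ) + (M : ℤ) * (-a) = 0 := by ring
    rw [this, zpow_zero]
  have e2 : (y ^ b) ^ M * (y ^ M) ^ (-b) = 1 := by
    rw [← zpow_natCast (y ^ b) M, ← zpow_mul, ← zpow_natCast y M, ← zpow_mul, ← zpow_add₀ hy]
    have : b * (M : ℤ) + (M : ℤ) * (-b) = 0 := by ring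
    rw [this, zpow_zero]
  have e3 : l ^ (-a - b) = l ^ (-a) * l ^ (-b) := by
    rw [← zpow_add₀ hl]; rfl
  rw [e3, mul_pow, mul_pow, mul_pow, mul_zpow, mul_zpow, mul_zpow, mul_zpow]
  generalize (x ^ a) ^ M = X at *
  generalize (x ^ M) ^ (-a) = X' at *
  generalize (y ^ b) ^ M = Y at *
  generalize (y ^ M) ^ (-b) = Y' at *
  generalize ζ ^ M = Z at *
  generalize β ^ M = b1 at *
  generalize B ^ (-a) = b2 at *
  generalize B' ^ (-b) = b3 at *
  generalize l ^ (-a) = l1 at *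
  generalize l ^ (-b) = l2 at *
  linear_combination (Z * b1 * b2 * b3 * l1 * l2 * Y * Y') * e1 +
    (Z * b1 * b2 * b3 * l1 * l2) * e2

/-- The case where `φ^M` is cohomologous to a constant. Proof. Let `B, l` be from `hcoh`, put
`γ z = β(z)^M * B(z)^{-a} * B(c₀ z)^{-b}` (for almost every `z` everything has modulus one). From
`φ(z)^M = B(α z) / (l B z)`:
`γ(α z) = ζ^M φ(z)^{M a} φ(c₀ z)^{M b} β(z)^M B(α z)^{-a} B(c₀ α z)^{-b} = ζ^M l^{-a-b} γ(z)`. So
`ζ^M l^{-a-b}` is an eigenvalue of the rotation, `E (ζ^M l^{-a-b})`, and with `E l` (`hEmul`, `hEinv`)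
`E (ζ^M)` (multiply by `l^{a+b}`). `(ζ^M)^q = 1` gives `ζ^M = 1`; `q` is a prime larger than `M ≥ 1`, so
coprime to `M`, hence `ζ = 1`. -/
theorem no_relation_coh {Z : Type*} [CommGroup Z] [MeasurableSpace Z] [MeasurableMul Z]
    (lam : Measure Z) [IsProbabilityMeasure lam] [lam.IsMulLeftInvariant] (α : Z)
    (φ : Z → Circle) [MeasurableSpace Circle] [BorelSpace Circle] (hφ : Measurable φ)
    (E : ℂ → Prop) (hE : ∀ c, IsEigenvalue lam (fun z => α * z) c → E c)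
    (hEmul : ∀ c d, E c → E d → E (c * d)) (hEinv : ∀ c, E c → E c⁻¹)
    (hroot : ∀ c, E c → ∀ n : ℕ, 1 ≤ n → c ^ n = 1 → c = 1)
    (M : ℕ) (hM : 1 ≤ M) (l : ℂ) (hl : E l) (hcoh : Coh lam α φ M l)
    (q : ℕ) (hq : q.Prime) (hqM : M < q)
    (c₀ : Z) (ζ : ℂ) (hζ : ζ ^ q = 1) (hζ1 : ζ ≠ 1) (a b : ℤ) (β : Z → ℂ)
    (hβ : Measurable β) (hβ1 : ∀ᵐ z ∂lam, ‖β z‖ = 1)
    (h : ∀ᵐ z ∂lam, β (α * z) = ζ * (φ z : ℂ) ^ a * (φ (c₀ * z) : ℂ) ^ b * β z) : False := by
  obtain ⟨B, hB, hB1, hBe⟩ := hcoh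
  have hα : MeasurePreserving (fun z => α * z) lam lam := measurePreserving_mul_left lam α
  have hc : MeasurePreserving (fun z => c₀ * z) lam lam := measurePreserving_mul_left lam c₀
  have hB1α := hα.quasiMeasurePreserving.ae hB1
  have hB1c := hc.quasiMeasurePreserving.ae hB1
  have hBec := hc.quasiMeasurePreserving.ae hBe
  have hl0 : l ≠ 0 := by
    intro hl0
    obtain ⟨z, h1, h2⟩ := (hB1α.and hBe).exists
    rw [h2, hl0] at h1
    simp at h1
  have hγ : IsEigenvalue lam (fun z => α * z) (ζ ^ M * l ^ (-a - b)) := by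
    refine ⟨fun z => β z ^ M * B z ^ (-a) * B (c₀ * z) ^ (-b), ?_, ?_, ?_⟩
    · exact ((hβ.pow_const M).mul (hB.pow_const (-a))).mul
        ((hB.comp (measurable_const_mul c₀)).pow_const (-b))
    · filter_upwards [hβ1, hB1, hB1c] with z h1 h2 h3
      rw [norm_mul, norm_mul, norm_pow, norm_zpow, norm_zpow, h1, h2, h3]
      simp
    · filter_upwards [h, hBe, hBec] with z h1 h2 h3
      have h4 : c₀ * (α * z) = α * (c₀ * z) := mul_left_comm _ _ _
      show β (α * z) ^ M * B (α * z) ^ (-a) * B (c₀ * (α * z)) ^ (-b) = _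
      rw [h4, h1, h2, h3]
      exact nr2_alg _ _ _ _ _ _ _ (Circle.coe_ne_zero _) (Circle.coe_ne_zero _) hl0 a b M
  have hE1 : E 1 := by
    refine hE 1 ⟨fun _ => 1, measurable_const, ?_, ?_⟩
    · exact Eventually.of_forall fun _ => by simp
    · exact Eventually.of_forall fun _ => by simp
  have hEn : ∀ n : ℕ, E (l ^ n) := by
    intro n
    induction n with
    | zero => simpa using hE1
    | succ n ih => rw [pow_succ]; exact hEmul _ _ ih hl
  have hEz : ∀ n : ℤ, E (l ^ n) := by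
    intro n
    obtain ⟨k, hk | hk⟩ := n.eq_nat_or_neg
    · rw [hk, zpow_natCast]; exact hEn k
    · rw [hk, zpow_neg, zpow_natCast]; exact hEinv _ (hEn k)
  have hEζ : E (ζ ^ M) := by
    have h5 := hEmul _ _ (hE _ hγ) (hEz (a + b))
    have h6 : ζ ^ M * l ^ (-a - b) * l ^ (a + b) = ζ ^ M := by
      rw [mul_assoc, ← zpow_add₀ hl0]
      have : -a - b + (a + b) = 0 := by ring
      rw [this, zpow_zero, mul_one]
    rwa [h6] at h5
  have h7 : ζ ^ M = 1 := by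
    refine hroot _ hEζ q hq.one_le ?_
    rw [← pow_mul, mul_comm, pow_mul, hζ, one_pow]
  have h8 : orderOf ζ ∣ Nat.gcd q M :=
    Nat.dvd_gcd (orderOf_dvd_of_pow_eq_one hζ) (orderOf_dvd_of_pow_eq_one h7)
  have h9 : Nat.gcd q M = 1 :=
    (Nat.Prime.coprime_iff_not_dvd hq).2 fun hd => absurd (Nat.le_of_dvd (by omega) hd) (by omega)
  rw [h9, Nat.dvd_one, orderOf_eq_one_iff] at h8
  exact hζ1 h8

end Pool.Agent.Lib.H82T
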