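import Pool.Agent.Lib.H82T.B2
import Pool.Agent.Lib.H82T.NR
import Pool.Agent.Lib.H82T.NR2

/-!
# Project H82T, chunk B3: the base has no root of unity eigenfunctions
-/

open MeasureTheory Filter Topology Finset ProbabilityTheory
open scoped ENNReal ComplexConjugate

namespace Pool.Agent.Lib.H82T

open Pool.Agent.Lib.H22M

/-- Eigenvalues of the rotation are eigenvalues of `R`. Proof: compose the eigenfunction with `π`
(`π` maps `m` to `lam`). -/
theorem isEigenvalue_of_rotation {Y Z : Type*} [MeasurableSpace Y] {m : Measure Y} [Mul Z]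
    [MeasurableSpace Z] {lam : Measure Z} {R : Y → Y} {π : Y → Z}
    (hπ : MeasurePreserving π m lam) {α : Z} (hπR : ∀ y, π (R y) = α * π y) {c : ℂ}
    (hc : IsEigenvalue lam (fun z => α * z) c) : IsEigenvalue m R c := by
  obtain ⟨f, hf, hf1, hfe⟩ := hc
  refine ⟨fun y => f (π y), hf.comp hπ.measurable, hπ.quasiMeasurePreserving.ae hf1, ?_⟩
  filter_upwards [hπ.quasiMeasurePreserving.ae hfe] with y hy
  rw [hπR]
  exact hy

/-- Proof. Suppose `π` maps `m` to `lam`. The rotation by `α` is ergodic for `lam` as a factor of `R`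
(for an invariant measurable `s`, `π ⁻¹' s` is `R`-invariant) and preserves `lam`. -/
theorem ergodic_rotation {Y Z : Type*} [MeasurableSpace Y] {m : Measure Y} [Mul Z]
    [MeasurableSpace Z] [MeasurableMul Z] {lam : Measure Z} [lam.IsMulLeftInvariant]
    {R : Y → Y} (hR : Ergodic R m) {π : Y → Z} (hπ : MeasurePreserving π m lam) {α : Z}
    (hπR : ∀ y, π (R y) = α * π y) : Ergodic (fun z => α * z) lam := by
  refine ⟨measurePreserving_mul_left lam α, ?_⟩
  refine ⟨fun s hs hinv => ?_⟩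
  have h1 : R ⁻¹' (π ⁻¹' s) = π ⁻¹' s := by
    ext y
    show π (R y) ∈ s ↔ π y ∈ s
    rw [hπR]
    have : α * π y ∈ s ↔ π y ∈ (fun z => α * z) ⁻¹' s := Iff.rfl
    rw [this, hinv]
  have h2 := hR.toPreErgodic.aeconst_set (hπ.measurable hs) h1
  rw [eventuallyConst_set'] at h2 ⊢
  rcases h2 with h2 | h2
  · left
    rw [ae_eq_empty] at h2 ⊢
    rw [← hπ.measure_preimage hs.nullMeasurableSet]
    exact h2
  · right
    rw [ae_eq_univ] at h2 ⊢
    rw [← hπ.measure_preimage hs.compl.nullMeasurableSet]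
    exact h2

/-- Proof. If `χ α = 1` then `χ` is invariant under the ergodic rotation, so almost everywhere constant,
but `∫ χ dlam = 0` for `χ ≠ 1` (`Pool.Agent.Lib.CompactAbelian.integral_char_eq_zero`) and `‖χ‖ = 1`
(compare `char_ne_one` in `H22M/SZ.lean`). -/
theorem rotation_char_ne_one {Z : Type*} [CommGroup Z] [TopologicalSpace Z]
    [IsTopologicalGroup Z] [CompactSpace Z] [T2Space Z] [SecondCountableTopology Z]
    [MeasurableSpace Z] [BorelSpace Z] (lam : Measure Z) [lam.IsHaarMeasure]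
    [IsProbabilityMeasure lam] {α : Z} (hα : Ergodic (fun z => α * z) lam)
    (χ : PontryaginDual Z) (hχ : χ ≠ 1) : ((χ α : Circle) : ℂ) ≠ 1 := by
  intro h1
  have hg : Measurable fun z : Z => ((χ z : Circle) : ℂ) :=
    (continuous_subtype_val.comp (map_continuous χ)).measurable
  have hinv : (fun z : Z => ((χ z : Circle) : ℂ)) ∘ (fun z => α * z) =
      fun z : Z => ((χ z : Circle) : ℂ) := by
    funext z
    show ((χ (α * z) : Circle) : ℂ) = _
    rw [map_mul, Circle.coe_mul, h1, one_mul]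
  obtain ⟨c, hc⟩ := hα.toPreErgodic.ae_eq_const_of_ae_eq_comp hg hinv
  have h2 : ∫ z : Z, ((χ z : Circle) : ℂ) ∂lam = 0 :=
    Pool.Agent.Lib.CompactAbelian.integral_char_eq_zero lam χ hχ
  rw [integral_congr_ae hc] at h2
  have h4 : c = 0 := by simpa using h2
  have h5 : ∀ᵐ z ∂lam, False := by
    filter_upwards [hc] with z hz
    rw [h4] at hz
    have h6 : ‖((χ z : Circle) : ℂ)‖ = 1 := Circle.norm_coe _
    have h7 : ((χ z : Circle) : ℂ) = 0 := hz
    rw [h7] at h6
    simp at h6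
  rw [ae_iff] at h5
  simp at h5

/-- Proof. If there are `M ≥ 1` and `l` with `Coh lam α φ M l`, put `M₀ = M`, otherwise `M₀ = 0`. Let
`p, q, ν, ζ, h` be given, `h` not almost everywhere `0`. `‖ζ‖ = 1` as `ζ^q = 1`, `q ≥ 1`. By
`exists_relation` there are `a, b, c₀, β`. Let `E c = IsEigenvalue m R c`; it is closed under products and
inverses (`IsEigenvalue.mul`, `IsEigenvalue.inv`), contains the eigenvalues of the rotation
(`isEigenvalue_of_rotation`) and satisfies `hroot`. In the first case `no_relation_coh` gives `False`; there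
`E l`: with `B` from `Coh`, `f = conj (u^M) * B ∘ π` satisfies `f ∘ R = conj φ(π)^M conj u^M * l φ(π)^M B(π)
= l f` a.e. and `‖f‖ = 1` a.e. In the second case `no_relation_free` gives `False`. -/
theorem noRoot_base {Y Z : Type*} [MeasurableSpace Y] {m : Measure Y} [IsProbabilityMeasure m]
    [MeasurableSpace Circle] [BorelSpace Circle]
    [CommGroup Z] [TopologicalSpace Z] [IsTopologicalGroup Z]
    [CompactSpace Z] [T2Space Z] [SecondCountableTopology Z] [MeasurableSpace Z] [BorelSpace Z]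
    (lam : Measure Z) [lam.IsHaarMeasure] [IsProbabilityMeasure lam]
    (R : Y ≃ᵐ Y) (hR : Ergodic R m)
    (hroot : ∀ c : ℂ, IsEigenvalue m R c → ∀ n : ℕ, 1 ≤ n → c ^ n = 1 → c = 1)
    (π : Y → Z) (hπ : MeasurePreserving π m lam) (α : Z) (hπR : ∀ y, π (R y) = α * π y)
    (u : Y → Circle) (hu : Measurable u) (φ : Z → Circle) (hφ : Measurable φ)
    (huR : ∀ y, u (R y) = φ (π y) * u y) :
    ∃ M₀ : ℕ, ∀ p q : ℕ, p.Prime → p ≠ 2 → q.Prime → q ≠ p → M₀ < q →
      ∀ ν : Measure (Y × Y), IsSelf m R ν → (∀ᵐ z ∂ν, (π z.2 / π z.1) ^ p = 1) →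
        NoRoot (DD (MeasurableSpace.comap (fun y => (π y, u y)) inferInstance) ν R) ν
          (Prod.map R R) q := by
  classical
  have hRm : MeasurePreserving R m m := hR.toMeasurePreserving
  have hα : Ergodic (fun z => α * z) lam := ergodic_rotation hR hπ hπR
  have hα1 : ∀ χ : PontryaginDual Z, χ ≠ 1 → ((χ α : Circle) : ℂ) ≠ 1 :=
    fun χ hχ => rotation_char_ne_one lam hα χ hχ
  have hE : ∀ c, IsEigenvalue lam (fun z => α * z) c → IsEigenvalue m R c :=
    fun c hc => isEigenvalue_of_rotation hπ hπR hc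
  -- the relation
  have key : ∀ p q : ℕ, q.Prime → ∀ ν : Measure (Y × Y), IsSelf m R ν →
      (∀ᵐ z ∂ν, (π z.2 / π z.1) ^ p = 1) → ∀ ζ : ℂ, ζ ^ q = 1 → ∀ h : Y × Y → ℂ,
      Measurable[DD (MeasurableSpace.comap (fun y => (π y, u y)) inferInstance) ν R] h →
      (∃ C : ℝ, ∀ᵐ ω ∂ν, ‖h ω‖ ≤ C) → (∀ᵐ ω ∂ν, h (Prod.map R R ω) = ζ * h ω) →
      (¬ ∀ᵐ ω ∂ν, h ω = 0) →
      ∃ (a b : ℤ) (c₀ : Z) (β : Z → ℂ), c₀ ^ p = 1 ∧ Measurable β ∧ (∀ᵐ z ∂lam, ‖β z‖ = 1) ∧
        ∀ᵐ z ∂lam, β (α * z) = ζ * (φ z : ℂ) ^ a * (φ (c₀ * z) : ℂ) ^ b * β z := by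
    intro p q hq ν hν hp ζ hζ h hh hb hhR hne
    have := hν.prob
    have hζ1 : ‖ζ‖ = 1 := by
      have h1 : ‖ζ‖ ^ q = 1 := by rw [← norm_pow, hζ, norm_one]
      exact (pow_eq_one_iff_of_nonneg (norm_nonneg ζ) hq.ne_zero).1 h1
    exact exists_relation lam R π hπ.measurable α hα hα1 hπR u hu φ hφ huR ν hν.inv p hp ζ hζ1 h
      hh hb hhR hne
  by_cases hcoh : ∃ (M : ℕ) (l : ℂ), 1 ≤ M ∧ Coh lam α φ M l
  · obtain ⟨M, l, hM, hco⟩ := hcoh
    refine ⟨M, fun p q _ _ hq _ hMq ν hν hp ζ hζ hζ1 h hh hb hhR => ?_⟩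
    by_contra hne
    obtain ⟨a, b, c₀, β, _, hβ, hβ1, hrel⟩ := key p q hq ν hν hp ζ hζ h hh hb hhR hne
    have hl : IsEigenvalue m R l := by
      obtain ⟨B, hB, hB1, hBe⟩ := hco
      refine ⟨fun y => conj ((u y : ℂ) ^ M) * B (π y), ?_, ?_, ?_⟩
      · have hcoe : Continuous fun c : Circle => (c : ℂ) := by fun_prop
        exact (Complex.continuous_conj.measurable.comp
          ((hcoe.measurable.comp hu).pow_const M)).mul (hB.comp hπ.measurable)
      · filter_upwards [hπ.quasiMeasurePreserving.ae hB1] with y hy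
        rw [norm_mul, RCLike.norm_conj, norm_pow, Circle.norm_coe, one_pow, one_mul, hy]
      · filter_upwards [hπ.quasiMeasurePreserving.ae hBe] with y hy
        have hφ1 : conj (φ (π y) : ℂ) * (φ (π y) : ℂ) = 1 := by
          rw [mul_comm, Complex.mul_conj, Complex.normSq_eq_norm_sq, Circle.norm_coe]
          simp
        have hφM : conj (φ (π y) : ℂ) ^ M * (φ (π y) : ℂ) ^ M = 1 := by
          rw [← mul_pow, hφ1, one_pow]
        rw [huR, hπR, hy, Circle.coe_mul, mul_pow, map_mul, map_pow, map_pow]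
        linear_combination (l * conj (u y : ℂ) ^ M * B (π y)) * hφM
    exact no_relation_coh lam α φ hφ (fun c => IsEigenvalue m R c) hE
      (fun c d hc hd => hc.mul hd) (fun c hc => hc.inv hRm) hroot M hM l hl hco q hq hMq c₀ ζ hζ
      hζ1 a b β hβ hβ1 hrel
  · push Not at hcoh
    refine ⟨0, fun p q hp hp2 hq hqp _ ν hν hpν ζ hζ hζ1 h hh hb hhR => ?_⟩
    by_contra hne
    obtain ⟨a, b, c₀, β, hc₀, hβ, hβ1, hrel⟩ := key p q hq ν hν hpν ζ hζ h hh hb hhR hne
    exact no_relation_free lam α φ hφ (fun c => IsEigenvalue m R c) hE hroot hcoh p q hp hp2 hq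
      hqp c₀ hc₀ ζ hζ hζ1 a b β hβ hβ1 hrel

end Pool.Agent.Lib.H82T
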