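import Mathlib

/-!
# Project H82T, chunk CR: the characters of the circle
-/

open MeasureTheory Filter Topology Finset
open scoped ENNReal ComplexConjugate

namespace Pool.Agent.Lib.H82T

theorem cr_exp_of_mul (g : ℝ → ℂ) (hg : Continuous g) (h0 : g 0 = 1)
    (hadd : ∀ s t, g (s + t) = g s * g t) : ∃ c : ℂ, ∀ t : ℝ, g t = Complex.exp (c * t) := by
  set G : ℝ → ℂ := fun x => ∫ t in (0 : ℝ)..x, g t with hG
  have hGd : ∀ x, HasDerivAt G (g x) x := fun x =>
    intervalIntegral.integral_hasDerivAt_right (hg.intervalIntegrable _ _)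
      hg.stronglyMeasurable.stronglyMeasurableAtFilter hg.continuousAt
  have hG0 : G 0 = 0 := by simp [hG]
  have h1 : ∃ δ : ℝ, G δ ≠ 0 := by
    have h2 := (hGd 0).eventually_ne (c := (0 : ℂ)) (by rw [h0]; exact one_ne_zero)
    obtain ⟨δ, hδ⟩ := h2.exists
    exact ⟨δ, hδ⟩
  obtain ⟨δ, hδ⟩ := h1
  have h3 : ∀ x, g x * G δ = G (x + δ) - G x := by
    intro x
    have h4 : G (x + δ) - G x = ∫ t in x..(x + δ), g t := by
      simp only [hG]
      rw [intervalIntegral.integral_interval_sub_left (hg.intervalIntegrable _ _)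
        (hg.intervalIntegrable _ _)]
    rw [h4]
    have h5 : ∫ t in x..(x + δ), g t = ∫ t in (0 : ℝ)..δ, g (x + t) := by
      rw [intervalIntegral.integral_comp_add_left (fun t => g t) x]
      simp
    rw [h5]
    simp only [hadd]
    rw [intervalIntegral.integral_const_mul]
  set c : ℂ := (g δ - 1) / G δ with hc
  have h6 : ∀ x, HasDerivAt g (c * g x) x := by
    intro x
    have h7 : g = fun x => (G (x + δ) - G x) / G δ := by
      funext y
      rw [← h3 y]
      field_simp
    have h8 : HasDerivAt (fun x => (G (x + δ) - G x) / G δ) ((g (x + δ) - g x) / G δ) x := by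
      have h9 : HasDerivAt (fun x => G (x + δ)) (g (x + δ)) x := by
        have := (hGd (x + δ)).comp_add_const x δ
        exact this
      exact (h9.sub (hGd x)).div_const _
    rw [← h7] at h8
    have h10 : (g (x + δ) - g x) / G δ = c * g x := by
      rw [hadd, hc]; ring
    rw [← h10]; exact h8
  refine ⟨c, fun t => ?_⟩
  have h11 : ∀ x : ℝ, HasDerivAt (fun x : ℝ => g x * Complex.exp (-(c * x))) 0 x := by
    intro x
    have h12 : HasDerivAt (fun x : ℝ => Complex.exp (-(c * x))) (Complex.exp (-(c * x)) * (-(c * 1))) x := by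
      have h13 : HasDerivAt (fun x : ℝ => -(c * (x : ℂ))) (-(c * 1)) x :=
        ((Complex.ofRealCLM.hasDerivAt (x := x)).const_mul c).neg
      exact h13.cexp
    have h14 := (h6 x).mul h12
    have h15 : c * g x * Complex.exp (-(c * x)) + g x * (Complex.exp (-(c * x)) * (-(c * 1))) = 0 := by
      ring
    rw [h15] at h14
    exact h14
  have h16 : ∀ x y : ℝ, g x * Complex.exp (-(c * x)) = g y * Complex.exp (-(c * y)) :=
    is_const_of_deriv_eq_zero (fun x => (h11 x).differentiableAt) (fun x => (h11 x).deriv)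
  have h17 := h16 t 0
  rw [h0] at h17
  simp only [Complex.ofReal_zero, mul_zero, neg_zero, Complex.exp_zero, mul_one] at h17
  rw [Complex.exp_neg] at h17
  have h18 := Complex.exp_ne_zero (c * t)
  field_simp at h17
  exact h17

/-- The characters of the circle are the powers. Proof: let `ψ` be a character (a continuous homomorphism
`Circle → Circle`). The map `f : ℝ → Circle`, `f t = ψ (Circle.exp t)` is a continuous homomorphism from
`(ℝ, +)`. It is of the form `Circle.exp (a t)` for a real `a`: e.g. integrate: choose `δ > 0` with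
`∫_0^δ f ≠ 0` (as a complex number; `f 0 = 1` and continuity); `f x ∫_0^δ f = ∫_x^{x+δ} f`, so `f` (as a
function to `ℂ`) is differentiable with `f' = c f`, hence `f t = exp (c t)`
(`f t * exp (-c t)` has derivative `0`), and `‖f t‖ = 1` gives `c = i a`. Or lift: there is `a` with
`f (t₀ 2^{-n}) = Circle.exp (a t₀ 2^{-n})` for all `n` by taking the square roots in the right half plane.
`f (2π) = ψ 1 = 1` gives `a = k` an integer (`Circle.exp` equal to `1` at `2π a`). Hence
`ψ (Circle.exp t) = Circle.exp (k t) = (Circle.exp t)^k` and every `u` is `Circle.exp t`.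
Other proof: orthogonality: if `ψ` is none of the powers, `∫ ψ(u) conj(u^k) du = 0` for all `k`
(a nontrivial character of a compact group has integral `0`) and the trigonometric polynomials are dense in
`C(Circle, ℂ)` (`polynomialFunctions...`, `span_fourier_closure_eq_top`), so `∫ |ψ|^2 = 0`, a contradiction. -/
theorem circle_char (ψ : PontryaginDual Circle) : ∃ k : ℤ, ∀ u : Circle, ψ u = u ^ k := by
  obtain ⟨c, hc⟩ := cr_exp_of_mul (fun t => ((ψ (Circle.exp t) : Circle) : ℂ))
    (by
      have h1 : Continuous (fun t : ℝ => ψ (Circle.exp t)) :=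
        (map_continuous ψ).comp (map_continuous Circle.exp)
      exact continuous_subtype_val.comp h1)
    (by simp)
    (by intro s t; simp [Circle.exp_add])
  have h2 : Complex.exp (c * ((2 * Real.pi : ℝ) : ℂ)) = 1 := by
    rw [← hc (2 * Real.pi), Circle.exp_two_pi]; simp
  rw [Complex.exp_eq_one_iff] at h2
  obtain ⟨n, hn⟩ := h2
  have h3 : c = n * Complex.I := by
    have h4 : (2 * (Real.pi : ℂ)) ≠ 0 := by
      have := Real.pi_ne_zero
      simp [this]
    push_cast at hn
    have h5 : c * (2 * (Real.pi : ℂ)) = (n * Complex.I) * (2 * Real.pi) := by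
      rw [hn]; ring
    exact mul_right_cancel₀ h4 h5
  refine ⟨n, fun u => ?_⟩
  have h6 := hc (Complex.arg u)
  simp only [Circle.exp_arg] at h6
  apply Subtype.ext
  have h7 : ((u ^ n : Circle) : ℂ) = (u : ℂ) ^ n := by simp
  show ((ψ u : Circle) : ℂ) = ((u ^ n : Circle) : ℂ)
  rw [h7, h6, h3]
  have h8 : (u : ℂ) = Complex.exp ((Complex.arg u : ℂ) * Complex.I) := by
    conv_lhs => rw [← Circle.exp_arg u]
    rw [Circle.coe_exp]
  rw [h8, ← Complex.exp_int_mul]
  congr 1
  rw [← h8]
  ring

end Pool.Agent.Lib.H82T
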