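import Pool.Agent.Lib.H22M.JJ
import Pool.Agent.Lib.H22M.EG
import Pool.Agent.Lib.H22M.TE

/-!
# Project H82T (MP_10e165_an): definitions

Möbius disjointness of the uniquely ergodic models of towers of finite extensions of arbitrary
transfinite length over a circle extension of a rotation.
-/

open MeasureTheory Filter Topology Finset
open scoped ENNReal ComplexConjugate

namespace Pool.Agent.Lib.H82T

open Pool.Agent.Lib.H22M

/-! ## Root of unity eigenfunctions in a sub-σ-algebra -/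

/-- No function measurable for `𝒜` is an eigenfunction of `S` whose eigenvalue is a `q`-th root of
unity different from `1`. -/
def NoRoot {Ω : Type*} (𝒜 : MeasurableSpace Ω) [MeasurableSpace Ω] (ν : Measure Ω) (S : Ω → Ω)
    (q : ℕ) : Prop :=
  ∀ ζ : ℂ, ζ ^ q = 1 → ζ ≠ 1 → ∀ h : Ω → ℂ, Measurable[𝒜] h →
    (∃ C : ℝ, ∀ᵐ ω ∂ν, ‖h ω‖ ≤ C) → (∀ᵐ ω ∂ν, h (S ω) = ζ * h ω) → ∀ᵐ ω ∂ν, h ω = 0

/-- The average of the first `q` images of `σ` under `S`. -/
noncomputable def avg {Ω : Type*} [MeasurableSpace Ω] (σ : Measure Ω) (S : Ω → Ω) (q : ℕ) :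
    Measure Ω := (q : ℝ≥0∞)⁻¹ • ∑ n ∈ range q, σ.map (S^[n])

/-- The σ-algebra of the product generated by `ℬ` in both coordinates. -/
@[reducible] def CC {Y : Type*} (ℬ : MeasurableSpace Y) : MeasurableSpace (Y × Y) :=
  ℬ.comap Prod.fst ⊔ ℬ.comap Prod.snd

/-- `CC ℬ` together with the sets invariant under `R × R` modulo `ν`. -/
@[reducible] def DD {Y : Type*} (ℬ : MeasurableSpace Y) [MeasurableSpace Y] (ν : Measure (Y × Y))
    (R : Y → Y) : MeasurableSpace (Y × Y) :=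
  CC ℬ ⊔ aeInv ν (Prod.map R R)

/-- `R × R` as a measurable equivalence. -/
noncomputable def sqE {Y : Type*} [MeasurableSpace Y] (R : Y ≃ᵐ Y) : (Y × Y) ≃ᵐ (Y × Y) where
  toFun := Prod.map R R
  invFun := Prod.map R.symm R.symm
  left_inv z := Prod.ext (R.symm_apply_apply z.1) (R.symm_apply_apply z.2)
  right_inv z := Prod.ext (R.apply_symm_apply z.1) (R.apply_symm_apply z.2)
  measurable_toFun := R.measurable.prodMap R.measurable
  measurable_invFun := R.symm.measurable.prodMap R.symm.measurable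

/-! ## Self-couplings and small functions -/

/-- A coupling of `(Y, m, R)` with itself. -/
structure IsSelf {Y : Type*} [MeasurableSpace Y] (m : Measure Y) (R : Y → Y)
    (ν : Measure (Y × Y)) : Prop where
  prob : IsProbabilityMeasure ν
  fst : ν.map Prod.fst = m
  snd : ν.map Prod.snd = m
  inv : MeasurePreserving (Prod.map R R) ν ν

/-- The bounded eigenfunctions with eigenvalue in `F` are orthogonal, in both coordinates, to the
functions of the other coordinate. -/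
def Kills {Y : Type*} [MeasurableSpace Y] (m : Measure Y) (R : Y → Y) (F : Finset ℂ)
    (ν : Measure (Y × Y)) : Prop :=
  ∀ c ∈ F, ‖c‖ = 1 → ∀ e : Y → ℂ, BM e → (∀ᵐ y ∂m, e (R y) = c * e y) → ∀ g : Y → ℂ, BM g →
    ∫ z, e z.1 * g z.2 ∂ν = 0 ∧ ∫ z, g z.1 * e z.2 ∂ν = 0

/-- `f` is nearly orthogonal to everything in the other coordinate for every self-coupling killing a
suitable finite set of eigenvalues different from `1`. -/
def Small {Y : Type*} [MeasurableSpace Y] (m : Measure Y) (R : Y → Y) (f : Y → ℂ) : Prop :=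
  ∀ g : Y → ℂ, BM g → ∀ ε : ℝ, 0 < ε → ∃ F : Finset ℂ, 1 ∉ F ∧
    ∀ ν : Measure (Y × Y), IsSelf m R ν → Kills m R F ν →
      ‖∫ z, f z.1 * g z.2 ∂ν - (∫ y, f y ∂m) * ∫ y, g y ∂m‖ ≤ ε

/-! ## Towers -/

/-- The σ-algebras of the levels of the towers of finite extensions of degree at most `D` over the
σ-algebra `ℬ₀`. -/
inductive Tow {Y : Type*} (mY : MeasurableSpace Y) (R : Y → Y) (D : ℕ) (ℬ₀ : MeasurableSpace Y) :
    MeasurableSpace Y → Prop
  | base : Tow mY R D ℬ₀ ℬ₀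
  | step (ℬ : MeasurableSpace Y) (h : Tow mY R D ℬ₀ ℬ) (d : ℕ) (hd : d ≤ D) (θ : Y → Fin d)
      (hθ : Measurable[mY, ⊤] θ) (Φ : Y → Equiv.Perm (Fin d))
      (hΦ : ∀ s, MeasurableSet[ℬ] {y | Φ y = s}) (hR : ∀ y, θ (R y) = Φ y (θ y)) :
      Tow mY R D ℬ₀ (ℬ ⊔ MeasurableSpace.comap θ ⊤)
  | sup (𝒮 : Set (MeasurableSpace Y)) (hne : 𝒮.Nonempty) (hdir : DirectedOn (· ≤ ·) 𝒮)
      (h : ∀ ℬ ∈ 𝒮, Tow mY R D ℬ₀ ℬ) : Tow mY R D ℬ₀ (sSup 𝒮)

/-! ## Small lemmas -/

theorem bm_mono {Y : Type*} {ℬ : MeasurableSpace Y} [mY : MeasurableSpace Y] {f : Y → ℂ}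
    (hle : ℬ ≤ mY) (hf : Measurable[ℬ] f) {C : ℝ} (hC : ∀ y, ‖f y‖ ≤ C) : BM f :=
  ⟨hf.mono hle le_rfl, C, hC⟩

theorem IsSelf.bm_fst {Y : Type*} [MeasurableSpace Y] {m : Measure Y} {R : Y → Y}
    {ν : Measure (Y × Y)} (h : IsSelf m R ν) {f : Y → ℂ} (hf : BM f) :
    ∫ z, f z.1 ∂ν = ∫ y, f y ∂m := by
  rw [← h.fst, integral_map measurable_fst.aemeasurable hf.1.aestronglyMeasurable]

theorem IsSelf.bm_snd {Y : Type*} [MeasurableSpace Y] {m : Measure Y} {R : Y → Y}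
    {ν : Measure (Y × Y)} (h : IsSelf m R ν) {f : Y → ℂ} (hf : BM f) :
    ∫ z, f z.2 ∂ν = ∫ y, f y ∂m := by
  rw [← h.snd, integral_map measurable_snd.aemeasurable hf.1.aestronglyMeasurable]

end Pool.Agent.Lib.H82T
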