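import Pool.Agent.Lib.H82T.T2
import Pool.Agent.Lib.H82T.T3
import Pool.Agent.Lib.H82T.B3
import Pool.Agent.Lib.H82T.S4
import Pool.Agent.Lib.H82T.SC
import Pool.Agent.Lib.H82T.SC2
import Pool.Agent.Lib.H82T.NI

/-!
# Project H82T, chunk F1: the main estimate
-/

open MeasureTheory Filter Topology Finset
open scoped ENNReal ComplexConjugate

namespace Pool.Agent.Lib.H82T

open Pool.Agent.Lib.H22M

/-- A small function of integral `0` on a level of a tower has a small seminorm in the relative square.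
Proof. Let `ν = avg σ (Prod.map R R) q`: `IsSelf` (`avg_isSelf`), torsion (`avg_torsion`), `Kills F0`
(`avg_kills`). The function `z ↦ f z.1 * conj (f z.2)` is bounded and `DD ℬ ν R`-measurable, and
`NoRoot (DD ℬ ν R)` holds by `Tow.noRoot` and `hN`. `integral_eq_avg` for `S = sqE R` (`hσ.inv` with
`Prod.map_iterate`, `DD_le`, `DD_comap`): `∫ f conj f dσ = ∫ f conj f dν`, and this is at most `ε` in modulus
by `hF0`. As `∫ f conj f dσ = (qf σ f)^2` (`hσ.sq`), `(qf σ f)^2 ≤ ε`. -/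
theorem qf_sq_le {Y Z : Type*} {ℬ₀ ℬ : MeasurableSpace Y} [mY : MeasurableSpace Y]
    {m : Measure Y} [IsProbabilityMeasure m]
    [CommGroup Z] [TopologicalSpace Z] [IsTopologicalGroup Z]
    [CompactSpace Z] [T2Space Z] [SecondCountableTopology Z] [MeasurableSpace Z] [BorelSpace Z]
    (R : Y ≃ᵐ Y) (hR : MeasurePreserving R m m) (π : Y → Z) (hπ : Measurable π) (α : Z)
    (hπR : ∀ y, π (R y) = α * π y) {D : ℕ}
    (h : Tow mY R D ℬ₀ ℬ) (h₀ : ℬ₀ ≤ mY) (hinv : ℬ₀.comap R = ℬ₀) {p q : ℕ} (hq : q.Prime)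
    (hD : D ^ 2 < q) {ρ σ : Measure (Y × Y)} (hσ : RelSq m R p q ρ σ)
    (hN : ∀ ν : Measure (Y × Y), IsSelf m R ν → (∀ᵐ z ∂ν, (π z.2 / π z.1) ^ p = 1) →
      NoRoot (DD ℬ₀ ν R) ν (Prod.map R R) q)
    (f : Y → ℂ) (hf : Measurable[ℬ] f) (hb : ∃ C : ℝ, ∀ y, ‖f y‖ ≤ C) (F0 : Finset ℂ)
    (hp : ∀ c ∈ F0, ∀ e : ℂ, IsEigenvalue m R e → e ^ p ≠ c) (ε : ℝ)
    (hF0 : ∀ ν : Measure (Y × Y), IsSelf m R ν → Kills m R F0 ν →
      ‖∫ z, f z.1 * conj (f z.2) ∂ν‖ ≤ ε) :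
    qf σ f ^ 2 ≤ ε := by
  have hσp : IsProbabilityMeasure σ := hσ.prob
  obtain ⟨C, hC⟩ := hb
  have hle : ℬ ≤ mY := h.le h₀
  have hcom : ℬ.comap R = ℬ := h.comap_eq hinv
  have hν : IsSelf m R (avg σ (Prod.map R R) q) := avg_isSelf hR hq.one_le hσ
  have hνp : IsProbabilityMeasure (avg σ (Prod.map R R) q) := hν.prob
  have htor := avg_torsion hR hq.one_le hσ π hπ α hπR
  have hkill : Kills m R F0 (avg σ (Prod.map R R) q) := avg_kills hR hσ F0 hp
  have hNo : NoRoot (DD ℬ (avg σ (Prod.map R R) q) R) (avg σ (Prod.map R R) q) (Prod.map R R) q :=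
    h.noRoot h₀ hinv _ hν.inv q hq hD (hN _ hν htor)
  have h1 : ℬ.comap Prod.fst ≤ DD ℬ (avg σ (Prod.map R R) q) R :=
    (le_sup_left : ℬ.comap (Prod.fst : Y × Y → Y) ≤ CC ℬ).trans le_sup_left
  have h2 : ℬ.comap Prod.snd ≤ DD ℬ (avg σ (Prod.map R R) q) R :=
    (le_sup_right : ℬ.comap (Prod.snd : Y × Y → Y) ≤ CC ℬ).trans le_sup_left
  have hf1 : Measurable[DD ℬ (avg σ (Prod.map R R) q) R] (fun z : Y × Y => f z.1) := by
    have h3 : Measurable[ℬ.comap (Prod.fst : Y × Y → Y)] (fun z : Y × Y => f z.1) :=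
      hf.comp (comap_measurable Prod.fst)
    exact h3.mono h1 le_rfl
  have hf2 : Measurable[DD ℬ (avg σ (Prod.map R R) q) R] (fun z : Y × Y => f z.2) := by
    have h3 : Measurable[ℬ.comap (Prod.snd : Y × Y → Y)] (fun z : Y × Y => f z.2) :=
      hf.comp (comap_measurable Prod.snd)
    exact h3.mono h2 le_rfl
  have hf3 : Measurable[DD ℬ (avg σ (Prod.map R R) q) R] (fun z : Y × Y => conj (f z.2)) :=
    (Complex.continuous_conj.measurable).comp hf2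
  have hF : Measurable[DD ℬ (avg σ (Prod.map R R) q) R] (fun z : Y × Y => f z.1 * conj (f z.2)) :=
    hf1.mul hf3
  have hbF : ∃ C' : ℝ, ∀ z : Y × Y, ‖f z.1 * conj (f z.2)‖ ≤ C' := by
    refine ⟨C * C, fun z => ?_⟩
    rw [norm_mul, RCLike.norm_conj]
    exact mul_le_mul (hC _) (hC _) (norm_nonneg _) ((norm_nonneg _).trans (hC z.1))
  have hinvσ : MeasurePreserving ((⇑(sqE R))^[q]) σ σ := by
    have h3 := hσ.inv
    rw [← Prod.map_iterate] at h3
    exact h3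
  have hkey := integral_eq_avg (DD ℬ (avg σ (Prod.map R R) q) R) σ (sqE R) q hq.one_le hinvσ
    (DD_le ℬ _ R hle) (DD_comap ℬ _ R hν.inv hcom) hNo (fun z => f z.1 * conj (f z.2)) hF hbF
  have hBM : BM f := bm_mono hle hf hC
  have h4 := hF0 _ hν hkill
  have h5 : ‖((qf σ f ^ 2 : ℝ) : ℂ)‖ ≤ ε := by
    rw [← hσ.sq f hBM, hkey]
    exact h4
  rw [Complex.norm_real, Real.norm_eq_abs, abs_of_nonneg (sq_nonneg _)] at h5
  exact h5

end Pool.Agent.Lib.H82T
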