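import Pool.Agent.Lib.H82T.F3

/-!
# Project H82T, chunk F4: Möbius disjointness, complex form of the circle coordinate
-/

open MeasureTheory Filter Topology Finset
open scoped ENNReal ComplexConjugate

namespace Pool.Agent.Lib.H82T

open Pool.Agent.Lib.H22M

/-- The circle coordinate as a complex number. Proof: let `uC y : Circle` be `⟨u y, _⟩` and
`φC z = ⟨φ z, _⟩` (`Circle` is the unit sphere, `mem_sphere_zero_iff_norm`); the inclusion
`Circle → ℂ` is a closed embedding, hence a measurable embedding, so `uC`, `φC` are measurable and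
`comap (π, u)` (in `Z × ℂ`) is `comap (π, uC)` (in `Z × Circle`): `comap` of the measurable embedding
`Z × Circle → Z × ℂ` is the whole σ-algebra. Take the Borel σ-algebra on `Circle` and apply `main`. -/
theorem main_complex {Y Z : Type*} (𝒮 : Set (MeasurableSpace Y)) [mY : MeasurableSpace Y]
    [StandardBorelSpace Y] {m : Measure Y} [IsProbabilityMeasure m]
    [CommGroup Z] [TopologicalSpace Z] [IsTopologicalGroup Z]
    [CompactSpace Z] [T2Space Z] [SecondCountableTopology Z] [MeasurableSpace Z] [BorelSpace Z]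
    (lam : Measure Z) [lam.IsHaarMeasure] [IsProbabilityMeasure lam]
    (R : Y ≃ᵐ Y) (hR : Ergodic R m) (hD : ManyGoodPrimes m R)
    (π : Y → Z) (hπ : MeasurePreserving π m lam) (α : Z) (hπR : ∀ y, π (R y) = α * π y)
    (u : Y → ℂ) (hu : Measurable u) (hu1 : ∀ y, ‖u y‖ = 1) (φ : Z → ℂ) (hφ : Measurable φ)
    (hφ1 : ∀ z, ‖φ z‖ = 1) (huR : ∀ y, u (R y) = φ (π y) * u y)
    (hne : 𝒮.Nonempty) (hdir : DirectedOn (· ≤ ·) 𝒮)
    (hT : ∀ ℬ ∈ 𝒮, ∃ D : ℕ,
      Tow mY R D (MeasurableSpace.comap (fun y => (π y, u y)) inferInstance) ℬ)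
    (hgen : ∀ A : Set Y, MeasurableSet A → ∃ B, MeasurableSet[sSup 𝒮] B ∧ m (symmDiff A B) = 0)
    {X : Type*} [MetricSpace X] [CompactSpace X] [MeasurableSpace X] [BorelSpace X]
    (T : X ≃ₜ X) (ν : Measure X) (θ : X → Y) (ψ : Y → X)
    (hmodel : IsUEModel T ν m R θ ψ) (f : C(X, ℂ)) (x : X) :
    Tendsto (fun N : ℕ => (1 / (N : ℂ)) *
      ∑ n ∈ Icc 1 N, f ((⇑T)^[n] x) * (ArithmeticFunction.moebius n : ℂ)) atTop (𝓝 0) := by
  let _ : MeasurableSpace Circle := borel Circle
  have : BorelSpace Circle := ⟨rfl⟩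
  have hcont : Continuous (fun c : Circle => (c : ℂ)) := by fun_prop
  have hemb : MeasurableEmbedding (fun c : Circle => (c : ℂ)) :=
    (hcont.isClosedEmbedding Circle.coe_injective).measurableEmbedding
  set uC : Y → Circle := fun y => ⟨u y, mem_sphere_zero_iff_norm.2 (hu1 y)⟩ with huC
  set φC : Z → Circle := fun z => ⟨φ z, mem_sphere_zero_iff_norm.2 (hφ1 z)⟩ with hφC
  have huCm : Measurable uC := hemb.measurable_comp_iff.1 hu
  have hφCm : Measurable φC := hemb.measurable_comp_iff.1 hφ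
  have hcomap : MeasurableSpace.comap (fun y => (π y, u y)) (inferInstance : MeasurableSpace (Z × ℂ))
      = MeasurableSpace.comap (fun y => (π y, uC y)) (inferInstance : MeasurableSpace (Z × Circle)) := by
    have h1 : (fun y => (π y, u y)) = (Prod.map id (fun c : Circle => (c : ℂ))) ∘
        (fun y => (π y, uC y)) := rfl
    have h2 : MeasurableEmbedding (Prod.map (id : Z → Z) (fun c : Circle => (c : ℂ))) :=
      MeasurableEmbedding.id.prodMap hemb
    rw [h1, ← MeasurableSpace.comap_comp, h2.comap_eq]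
  refine main 𝒮 lam R hR hD π hπ α hπR uC huCm φC hφCm ?_ hne hdir ?_ hgen T ν θ ψ hmodel f x
  · intro y
    exact Subtype.ext (huR y)
  · intro ℬ hB
    obtain ⟨D, hDB⟩ := hT ℬ hB
    refine ⟨D, ?_⟩
    rw [← hcomap]
    exact hDB

end Pool.Agent.Lib.H82T
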