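import Pool.Agent.Lib.H82T.Defs

/-!
# Project H82T: cohomologous to a constant (definition)
-/

open MeasureTheory Filter Topology Finset
open scoped ENNReal ComplexConjugate

namespace Pool.Agent.Lib.H82T

/-- `φ^M` is cohomologous to the constant `l⁻¹` over the rotation by `α`. -/
def Coh {Z : Type*} [Mul Z] [MeasurableSpace Z] (lam : Measure Z) (α : Z) (φ : Z → Circle)
    (M : ℕ) (l : ℂ) : Prop :=
  ∃ B : Z → ℂ, Measurable B ∧ (∀ᵐ z ∂lam, ‖B z‖ = 1) ∧
    ∀ᵐ z ∂lam, B (α * z) = l * (φ z : ℂ) ^ M * B z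

end Pool.Agent.Lib.H82T
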